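import Pool.Agent.Lib.MP_7ec162_pr.LW.JUADef

/-!
# Block one (MP_7ec162_pr)
-/

set_option autoImplicit false

namespace Pool.Agent.Lib.MP7ec162

theorem oneUA (p z y w : ℝ) (hp : 0 ≤ p) (hz : 0 ≤ z) (hy : 0 ≤ y) (hw : 0 ≤ w) :
    0 ≤ aUA p z y w - iUA p z y w := by
  have g0 : 0 ≤ (4657181 / 5000000 : ℝ) * p * z * y * w * ((3 / 250) * p + (169 / 1000) * z - 1 * y + (971 / 1000) * w) ^ 2 := by positivity
  have g1 : 0 ≤ (6367669 / 10000000 : ℝ) * p * w * (-(193 / 500) * p * z + 1 * p * y + (4 / 125) * z ^ 2 - (669 / 1000) * z * y + (161 / 500) * z * w + (213 / 1000) * y ^ 2 - (71 / 1000) * y * w) ^ 2 := by positivity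
  have g2 : 0 ≤ (1025851 / 10000000 : ℝ) * z * w * ((13 / 500) * p ^ 2 - (213 / 500) * p * z + 1 * p * y - (101 / 200) * p * w + (42 / 125) * z ^ 2 - (841 / 1000) * z * y + (111 / 500) * z * w + (93 / 250) * y ^ 2 - (67 / 500) * y * w - (1 / 250) * w ^ 2) ^ 2 := by positivity
  have g3 : 0 ≤ (3397631 / 10000000 : ℝ) * p * w * (-(89 / 250) * p * z + 1 * p * y - (231 / 1000) * z ^ 2 - (167 / 1000) * z * y + (479 / 1000) * z * w - (257 / 1000) * y ^ 2 + (11 / 200) * y * w) ^ 2 := by positivity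
  have g4 : 0 ≤ (153003 / 5000000 : ℝ) * z * w * ((1 / 25) * p ^ 2 - (7 / 100) * p * z + (3 / 25) * p * y - 1 * p * w + (523 / 1000) * z ^ 2 - (41 / 250) * z * y - (509 / 1000) * z * w + (46 / 125) * y ^ 2 - (3 / 50) * y * w + (11 / 1000) * w ^ 2) ^ 2 := by positivity
  have g5 : 0 ≤ (775797 / 1250000 : ℝ) * z * y * (-(1 / 500) * p ^ 2 - (57 / 200) * p * z + (277 / 500) * p * y + (229 / 500) * p * w - (339 / 1000) * z ^ 2 + (279 / 500) * z * y - (8 / 125) * z * w - 1 * y ^ 2 + (47 / 50) * y * w - (237 / 1000) * w ^ 2) ^ 2 := by positivity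
  have g6 : 0 ≤ (1319991 / 1250000 : ℝ) * p * w * ((257 / 1000) * p * z - (67 / 100) * p * y - (59 / 500) * z ^ 2 + 1 * z * y - (401 / 500) * z * w - (93 / 1000) * y ^ 2 + (19 / 500) * y * w) ^ 2 := by positivity
  have g7 : 0 ≤ (142039 / 156250 : ℝ) * (-(33 / 1000) * p ^ 2 * z + (47 / 500) * p ^ 2 * y + (167 / 1000) * p * z ^ 2 - (37 / 100) * p * z * y - (141 / 250) * p * z * w - (147 / 1000) * p * y ^ 2 + 1 * p * y * w + (113 / 1000) * z ^ 3 + (71 / 250) * z ^ 2 * y - (273 / 1000) * z ^ 2 * w - (729 / 1000) * z * y ^ 2 + (53 / 100) * z * y * w - (3 / 250) * z * w ^ 2 + (31 / 125) * y ^ 3 - (19 / 100) * y ^ 2 * w + (2 / 125) * y * w ^ 2) ^ 2 := by positivity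
  have g8 : 0 ≤ (48467 / 156250 : ℝ) * y * w * ((1 / 500) * p ^ 2 + (87 / 250) * p * z - (139 / 250) * p * y - (133 / 250) * p * w - (73 / 500) * z ^ 2 + 1 * z * y - (533 / 1000) * z * w - (173 / 500) * y ^ 2 + (28 / 125) * y * w - (21 / 1000) * w ^ 2) ^ 2 := by positivity
  have g9 : 0 ≤ (4685157 / 5000000 : ℝ) * p * y * ((1 / 500) * p ^ 2 - (27 / 125) * p * z + (77 / 200) * p * y + (87 / 500) * p * w + (127 / 1000) * z ^ 2 - (83 / 250) * z * y + (3 / 50) * z * w - (637 / 1000) * y ^ 2 + 1 * y * w - (121 / 500) * w ^ 2) ^ 2 := by positivity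
  have g10 : 0 ≤ (5963747 / 2500000 : ℝ) * (-(31 / 500) * p ^ 2 * z + (157 / 1000) * p ^ 2 * y + (347 / 1000) * p * z ^ 2 - 1 * p * z * y - (31 / 100) * p * z * w + (173 / 1000) * p * y ^ 2 + (79 / 100) * p * y * w + (27 / 200) * z ^ 3 + (59 / 500) * z ^ 2 * y - (409 / 1000) * z ^ 2 * w - (13 / 125) * z * y ^ 2 + (89 / 200) * z * y * w - (1 / 1000) * z * w ^ 2 - (77 / 500) * y ^ 3 - (1 / 125) * y ^ 2 * w + (1 / 1000) * y * w ^ 2) ^ 2 := by positivity
  have g11 : 0 ≤ (1460429 / 10000000 : ℝ) * y ^ 2 * ((3 / 500) * p ^ 2 + (87 / 250) * p * z - 1 * p * y + (27 / 1000) * p * w + (77 / 500) * z ^ 2 + (249 / 1000) * z * y - (171 / 500) * z * w + (12 / 125) * y ^ 2 - (1 / 250) * y * w) ^ 2 := by positivity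
  have g12 : 0 ≤ (10840941 / 10000000 : ℝ) * p * y * ((1 / 250) * p ^ 2 - (553 / 1000) * p * z + 1 * p * y + (559 / 1000) * p * w + (7 / 1000) * z ^ 2 - (623 / 1000) * z * y + (227 / 1000) * z * w + (37 / 100) * y ^ 2 - (7 / 20) * y * w + (51 / 1000) * w ^ 2) ^ 2 := by positivity
  have g13 : 0 ≤ (21785361 / 5000000 : ℝ) * p * z * ((1 / 1000) * p ^ 2 - (57 / 1000) * p * z - (27 / 1000) * p * y + (11 / 40) * p * w + (2 / 125) * z ^ 2 - (501 / 1000) * z * y + (33 / 100) * z * w + 1 * y ^ 2 - (403 / 500) * y * w - (111 / 500) * w ^ 2) ^ 2 := by positivity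
  have g14 : 0 ≤ (1158521 / 10000000 : ℝ) * (-(2 / 25) * p ^ 2 * z + (209 / 1000) * p ^ 2 * y + (119 / 500) * p * z ^ 2 - 1 * p * z * y + (787 / 1000) * p * z * w - (403 / 1000) * p * y ^ 2 - (6 / 125) * p * y * w + (133 / 1000) * z ^ 3 - (49 / 1000) * z ^ 2 * y - (53 / 500) * z ^ 2 * w + (351 / 1000) * z * y ^ 2 - (63 / 250) * z * y * w + (2 / 125) * z * w ^ 2 + (1 / 200) * y ^ 3 + (2 / 125) * y ^ 2 * w - (1 / 1000) * y * w ^ 2) ^ 2 := by positivity
  have g15 : 0 ≤ (28411 / 2500000 : ℝ) * z * w * ((53 / 1000) * p ^ 2 + (79 / 1000) * p * z - (473 / 1000) * p * y - 1 * p * w + (697 / 1000) * z ^ 2 + (1 / 20) * z * y - (22 / 25) * z * w + (373 / 1000) * y ^ 2 + (9 / 1000) * y * w + (2 / 125) * w ^ 2) ^ 2 := by positivity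
  have g16 : 0 ≤ (24333 / 40000 : ℝ) * z * y * ((3 / 500) * p ^ 2 - (557 / 1000) * p * z + 1 * p * y + (589 / 1000) * p * w - (18 / 125) * z ^ 2 - (33 / 1000) * z * y + (139 / 1000) * z * w - (171 / 200) * y ^ 2 + (921 / 1000) * y * w - (251 / 1000) * w ^ 2) ^ 2 := by positivity
  have g17 : 0 ≤ (63811 / 500000 : ℝ) * p * y * (-(3 / 1000) * p ^ 2 + (129 / 250) * p * z - 1 * p * y - (519 / 1000) * p * w + (401 / 1000) * z ^ 2 - (102 / 125) * z * y + (161 / 250) * z * w + (2 / 125) * y ^ 2 + (57 / 250) * y * w - (51 / 1000) * w ^ 2) ^ 2 := by positivity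
  have g18 : 0 ≤ (185203 / 2500000 : ℝ) * p * z * (-(1 / 500) * p ^ 2 + (129 / 1000) * p * z - (17 / 100) * p * y - (1 / 10) * p * w - (397 / 1000) * z ^ 2 + 1 * z * y - (57 / 250) * z * w + (41 / 250) * y ^ 2 - (69 / 100) * y * w + (101 / 1000) * w ^ 2) ^ 2 := by positivity
  have g19 : 0 ≤ (747291 / 10000000 : ℝ) * (-(1 / 125) * p ^ 2 * z + (11 / 1000) * p ^ 2 * y + (157 / 1000) * p * z ^ 2 - (81 / 500) * p * z * y - (24 / 25) * p * z * w + (21 / 50) * p * y ^ 2 + 1 * p * y * w + (49 / 1000) * z ^ 3 - (21 / 200) * z ^ 2 * y - (9 / 125) * z ^ 2 * w - (8 / 25) * z * y ^ 2 + (547 / 1000) * z * y * w - (21 / 1000) * z * w ^ 2 - (139 / 1000) * y ^ 3 - (19 / 1000) * y ^ 2 * w) ^ 2 := by positivity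
  have g20 : 0 ≤ (1719897 / 1000000 : ℝ) * y ^ 2 * ((1 / 200) * p ^ 2 - (1 / 2) * p * z + 1 * p * y + (351 / 1000) * p * w + (21 / 500) * z ^ 2 - (98 / 125) * z * y + (123 / 250) * z * w + (33 / 250) * y ^ 2 - (12 / 125) * y * w + (3 / 500) * w ^ 2) ^ 2 := by positivity
  have g21 : 0 ≤ (78523 / 156250 : ℝ) * z * w * ((49 / 1000) * p ^ 2 - (131 / 500) * p * z + (13 / 25) * p * y - 1 * p * w + (297 / 500) * z ^ 2 - (543 / 1000) * z * y - (277 / 1000) * z * w + (437 / 1000) * y ^ 2 - (19 / 200) * y * w + (1 / 250) * w ^ 2) ^ 2 := by positivity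
  have g22 : 0 ≤ (2274909 / 1000000 : ℝ) * p * z * ((1 / 500) * p ^ 2 - (81 / 1000) * p * z + (3 / 40) * p * y + (23 / 250) * p * w + (347 / 1000) * z ^ 2 - 1 * z * y + (331 / 1000) * z * w + (7 / 50) * y ^ 2 + (51 / 125) * y * w - (109 / 500) * w ^ 2) ^ 2 := by positivity
  have g23 : 0 ≤ (7387 / 312500 : ℝ) * ((7 / 500) * p ^ 2 * z - (31 / 1000) * p ^ 2 * y - (7 / 1000) * p * z ^ 2 - (3 / 40) * p * z * y - (259 / 500) * p * z * w + (673 / 1000) * p * y ^ 2 + (151 / 250) * p * y * w - (31 / 250) * z ^ 3 + (56 / 125) * z ^ 2 * y - (123 / 1000) * z ^ 2 * w - 1 * z * y ^ 2 + (147 / 250) * z * y * w - (3 / 1000) * z * w ^ 2 + (159 / 1000) * y ^ 3 - (14 / 125) * y ^ 2 * w + (7 / 1000) * y * w ^ 2) ^ 2 := by positivity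
  have g24 : 0 ≤ (6723321 / 10000000 : ℝ) * y ^ 2 * (-(1 / 500) * p ^ 2 - (221 / 500) * p * z + 1 * p * y + (29 / 100) * p * w - (123 / 1000) * z ^ 2 - (87 / 200) * z * y + (467 / 1000) * z * w - (103 / 1000) * y ^ 2 + (3 / 500) * y * w - (3 / 1000) * w ^ 2) ^ 2 := by positivity
  have g25 : 0 ≤ (12739523 / 10000000 : ℝ) * z * w * (-(6 / 125) * p ^ 2 + (121 / 1000) * p * z - (109 / 1000) * p * y + 1 * p * w - (171 / 250) * z ^ 2 + (359 / 1000) * z * y + (283 / 500) * z * w - (449 / 1000) * y ^ 2 + (1 / 20) * y * w - (1 / 100) * w ^ 2) ^ 2 := by positivity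
  have g26 : 0 ≤ (9958369 / 10000000 : ℝ) * p * z * ((1 / 500) * p ^ 2 - (17 / 1000) * p * z - (77 / 500) * p * y + (319 / 1000) * p * w - (47 / 250) * z ^ 2 + (159 / 500) * z * y - (229 / 1000) * z * w + 1 * y ^ 2 - (843 / 1000) * y * w - (89 / 250) * w ^ 2) ^ 2 := by positivity
  have g27 : 0 ≤ (2088437 / 10000000 : ℝ) * p * z * (-(1 / 500) * p ^ 2 + (93 / 1000) * p * z - (19 / 200) * p * y - (49 / 500) * p * w - (17 / 50) * z ^ 2 + 1 * z * y - (7 / 40) * z * w - (63 / 125) * y ^ 2 - (143 / 500) * y * w + (197 / 500) * w ^ 2) ^ 2 := by positivity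
  have g28 : 0 ≤ (250961 / 500000 : ℝ) * ((31 / 500) * p ^ 2 * z - (77 / 500) * p ^ 2 * y - (283 / 1000) * p * z ^ 2 + 1 * p * z * y + (199 / 1000) * p * z * w - (497 / 1000) * p * y ^ 2 - (749 / 1000) * p * y * w - (143 / 1000) * z ^ 3 + (13 / 100) * z ^ 2 * y + (123 / 1000) * z ^ 2 * w + (281 / 1000) * z * y ^ 2 - (54 / 125) * z * y * w + (13 / 1000) * z * w ^ 2 + (47 / 1000) * y ^ 3 + (39 / 1000) * y ^ 2 * w - (1 / 1000) * y * w ^ 2) ^ 2 := by positivity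
  have g29 : 0 ≤ (4131599 / 5000000 : ℝ) * z * y * ((1 / 250) * p ^ 2 - (423 / 1000) * p * z + 1 * p * y + (9 / 100) * p * w - (37 / 200) * z ^ 2 + (3 / 20) * z * y + (7 / 125) * z * w - (737 / 1000) * y ^ 2 + (199 / 250) * y * w - (227 / 1000) * w ^ 2) ^ 2 := by positivity
  have g30 : 0 ≤ (1356913 / 2000000 : ℝ) * p * y * (-(1 / 500) * p ^ 2 + (381 / 1000) * p * z - (367 / 500) * p * y - (111 / 250) * p * w + (57 / 200) * z ^ 2 - (27 / 200) * z * y + (1 / 200) * z * w - (77 / 125) * y ^ 2 + 1 * y * w - (111 / 500) * w ^ 2) ^ 2 := by positivity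
  have g31 : 0 ≤ (64903 / 200000 : ℝ) * p * z * ((3 / 1000) * p ^ 2 - (13 / 250) * p * z - (14 / 125) * p * y + (179 / 500) * p * w - (31 / 500) * z ^ 2 - (41 / 250) * z * y + (11 / 1000) * z * w + 1 * y ^ 2 - (213 / 500) * y * w - (159 / 250) * w ^ 2) ^ 2 := by positivity
  have g32 : 0 ≤ (1918693 / 10000000 : ℝ) * y * w * (-(9 / 500) * p ^ 2 + (61 / 125) * p * z - (919 / 1000) * p * y - (119 / 1000) * p * w - (243 / 1000) * z ^ 2 + 1 * z * y - (223 / 500) * z * w - (337 / 1000) * y ^ 2 + (47 / 250) * y * w - (17 / 1000) * w ^ 2) ^ 2 := by positivity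
  have g33 : 0 ≤ (38153 / 2500000 : ℝ) * z * y * ((1 / 250) * p ^ 2 + (401 / 1000) * p * z - 1 * p * y - (223 / 1000) * p * w + (139 / 500) * z ^ 2 - (2 / 25) * z * y - (253 / 1000) * z * w + (61 / 100) * y ^ 2 - (257 / 500) * y * w + (27 / 200) * w ^ 2) ^ 2 := by positivity
  have g34 : 0 ≤ (1512733 / 5000000 : ℝ) * p * y * ((1 / 250) * p ^ 2 - (207 / 500) * p * z + (733 / 1000) * p * y + (43 / 100) * p * w + (7 / 250) * z ^ 2 - (69 / 500) * z * y - (283 / 1000) * z * w - (533 / 1000) * y ^ 2 + 1 * y * w - (141 / 500) * w ^ 2) ^ 2 := by positivity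
  have g35 : 0 ≤ (130357 / 625000 : ℝ) * p * z * ((29 / 1000) * p * z - (29 / 200) * p * y + (26 / 125) * p * w - (297 / 1000) * z ^ 2 + (419 / 1000) * z * y - (23 / 200) * z * w + 1 * y ^ 2 - (153 / 200) * y * w - (263 / 500) * w ^ 2) ^ 2 := by positivity
  have g36 : 0 ≤ (156127 / 5000000 : ℝ) * (-(43 / 500) * p ^ 2 * z + (223 / 1000) * p ^ 2 * y + (161 / 500) * p * z ^ 2 - (71 / 100) * p * z * y + (1 / 10) * p * z * w - 1 * p * y ^ 2 + (261 / 500) * p * y * w + (109 / 1000) * z ^ 3 + (391 / 1000) * z ^ 2 * y - (54 / 125) * z ^ 2 * w + (13 / 100) * z * y ^ 2 - (59 / 1000) * z * y * w + (1 / 50) * z * w ^ 2 + (17 / 200) * y ^ 3 - (31 / 500) * y ^ 2 * w + (7 / 1000) * y * w ^ 2) ^ 2 := by positivity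
  have m0 : 0 ≤
    (227157 / 78125000000) * p ^ 5 * z + (3878999 / 1250000000000) * p ^ 5 * y
    + (41113087 / 2500000000000) * p ^ 4 * z ^ 2 + (14232807 / 500000000000) * p ^ 4 * z * y
    + (4864203 / 312500000000) * p ^ 4 * z * w + (20568051 / 1250000000000) * p ^ 4 * y ^ 2
    + (7718483 / 500000000000) * p ^ 4 * y * w + (31868837 / 1000000000000) * p ^ 3 * z ^ 3
    + (427360201 / 5000000000000) * p ^ 3 * z ^ 2 * y
    + (295609079 / 5000000000000) * p ^ 3 * z ^ 2 * w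
    + (850105623 / 10000000000000) * p ^ 3 * z * y ^ 2
    + (307197959 / 2500000000000) * p ^ 3 * z * y * w := by positivity
  have m1 : 0 ≤
    (283682589 / 10000000000000) * p ^ 3 * z * w ^ 2 + (28388631 / 1000000000000) * p ^ 3 * y ^ 3
    + (142488813 / 2500000000000) * p ^ 3 * y ^ 2 * w
    + (342455187 / 10000000000000) * p ^ 3 * y * w ^ 2 + (56937017 / 2000000000000) * p ^ 2 * z ^ 4
    + (147258061 / 1250000000000) * p ^ 2 * z ^ 3 * y
    + (170275581 / 2000000000000) * p ^ 2 * z ^ 3 * w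
    + (85085487 / 500000000000) * p ^ 2 * z ^ 2 * y ^ 2
    + (319180539 / 1250000000000) * p ^ 2 * z ^ 2 * y * w
    + (922101117 / 10000000000000) * p ^ 2 * z ^ 2 * w ^ 2
    + (568187049 / 5000000000000) * p ^ 2 * z * y ^ 3
    + (2551851711 / 10000000000000) * p ^ 2 * z * y ^ 2 * w := by positivity
  have m2 : 0 ≤
    (850138487 / 5000000000000) * p ^ 2 * z * y * w ^ 2
    + (285306317 / 10000000000000) * p ^ 2 * z * w ^ 3
    + (287667571 / 10000000000000) * p ^ 2 * y ^ 4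
    + (852102009 / 10000000000000) * p ^ 2 * y ^ 3 * w
    + (853299229 / 10000000000000) * p ^ 2 * y ^ 2 * w ^ 2
    + (284021597 / 10000000000000) * p ^ 2 * y * w ^ 3 + (19934499 / 1250000000000) * p * z ^ 5
    + (354273241 / 5000000000000) * p * z ^ 4 * y + (636816959 / 10000000000000) * p * z ^ 4 * w
    + (44303671 / 312500000000) * p * z ^ 3 * y ^ 2
    + (227006009 / 1000000000000) * p * z ^ 3 * y * w
    + (424425631 / 5000000000000) * p * z ^ 3 * w ^ 2 := by positivity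
  have m3 : 0 ≤
    (710579721 / 5000000000000) * p * z ^ 2 * y ^ 3
    + (170365239 / 500000000000) * p * z ^ 2 * y ^ 2 * w
    + (638134757 / 2500000000000) * p * z ^ 2 * y * w ^ 2
    + (883512841 / 10000000000000) * p * z ^ 2 * w ^ 3 + (444102063 / 5000000000000) * p * z * y ^ 4
    + (1133969243 / 5000000000000) * p * z * y ^ 3 * w
    + (2553642323 / 10000000000000) * p * z * y ^ 2 * w ^ 2
    + (59175371 / 500000000000) * p * z * y * w ^ 3 + (17773889 / 1250000000000) * p * z * w ^ 4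
    + (71003259 / 5000000000000) * p * y ^ 5 + (283559429 / 5000000000000) * p * y ^ 4 * w
    + (212926777 / 2500000000000) * p * y ^ 3 * w ^ 2 := by positivity
  have m4 : 0 ≤
    (283491819 / 5000000000000) * p * y ^ 2 * w ^ 3 + (141918149 / 10000000000000) * p * y * w ^ 4
    + (14208339 / 5000000000000) * z ^ 6 + (19774959 / 1000000000000) * z ^ 5 * y
    + (71303921 / 5000000000000) * z ^ 5 * w + (109005719 / 2000000000000) * z ^ 4 * y ^ 2
    + (141618517 / 2000000000000) * z ^ 4 * y * w + (28234739 / 1000000000000) * z ^ 4 * w ^ 2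
    + (283748051 / 5000000000000) * z ^ 3 * y ^ 3 + (354925241 / 2500000000000) * z ^ 3 * y ^ 2 * w
    + (113550861 / 1000000000000) * z ^ 3 * y * w ^ 2 + (172100243 / 5000000000000) * z ^ 3 * w ^ 3 := by positivity
  have m5 : 0 ≤
    (427199283 / 10000000000000) * z ^ 2 * y ^ 4 + (95570233 / 625000000000) * z ^ 2 * y ^ 3 * w
    + (889191281 / 5000000000000) * z ^ 2 * y ^ 2 * w ^ 2
    + (212832669 / 2500000000000) * z ^ 2 * y * w ^ 3 + (149327561 / 10000000000000) * z ^ 2 * w ^ 4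
    + (13338429 / 625000000000) * z * y ^ 5 + (707200509 / 10000000000000) * z * y ^ 4 * w
    + (568520921 / 5000000000000) * z * y ^ 3 * w ^ 2
    + (110937913 / 1250000000000) * z * y ^ 2 * w ^ 3 + (1803263 / 62500000000) * z * y * w ^ 4
    + (15053471 / 5000000000000) * z * w ^ 5 + (5694141 / 2000000000000) * y ^ 6 := by positivity
  have m6 : 0 ≤
    (142508153 / 10000000000000) * y ^ 5 * w + (56729893 / 2000000000000) * y ^ 4 * w ^ 2
    + (28376841 / 1000000000000) * y ^ 3 * w ^ 3 + (17761523 / 1250000000000) * y ^ 2 * w ^ 4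
    + (5713023 / 2000000000000) * y * w ^ 5 := by positivity
  unfold aUA iUA
  linear_combination g0 + g1 + g2 + g3 + g4 + g5 + g6 + g7 + g8 + g9 + g10 + g11 + g12 + g13 + g14 + g15 + g16 + g17 + g18 + g19 + g20 + g21 + g22 + g23 + g24 + g25 + g26 + g27 + g28 + g29 + g30 + g31 + g32 + g33 + g34 + g35 + g36 + m0 + m1 + m2 + m3 + m4 + m5 + m6

end Pool.Agent.Lib.MP7ec162
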