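import Pool.Agent.Lib.MP_7ec162_pr.LW.JUADef

/-!
# The integrality part (MP_7ec162_pr)
-/

set_option autoImplicit false

namespace Pool.Agent.Lib.MP7ec162

theorem thrUA (p z y w : ℝ) (hp : 0 ≤ p) (hz : 0 ≤ z) (hy : 0 ≤ y) (hw : 0 ≤ w) (hz1 : 0 ≤ z * (z - 1)) (hy1 : 0 ≤ y * (y - 1))
    (hp1 : 0 ≤ p * (p - 1)) (hw1 : 0 ≤ w * (w - 1)) (hq2 : 0 ≤ (p + z) * (p + z - 2))
    (hp2 : 0 ≤ p * (p - 2)) :
    0 ≤ iUA p z y w - jUA p z y w := by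
  have g0 : 0 ≤ z * (z - 1) * ((17 / 5000000 : ℝ) * z * y * w ^ 2) := mul_nonneg hz1 (by positivity)
  have g1 : 0 ≤ z * (z - 1) * ((1 / 1000000 : ℝ) * p * z ^ 3) := mul_nonneg hz1 (by positivity)
  have g2 : 0 ≤ z * (z - 1) * ((113 / 5000000 : ℝ) * p ^ 2 * y * w) := mul_nonneg hz1 (by positivity)
  have g3 : 0 ≤ z * (z - 1) * ((53 / 10000000 : ℝ) * p ^ 3 * y) := mul_nonneg hz1 (by positivity)
  have g4 : 0 ≤ y * (y - 1) * ((101 / 5000000 : ℝ) * p * z ^ 2 * w) := mul_nonneg hy1 (by positivity)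
  have g5 : 0 ≤ y * (y - 1) * ((27 / 5000000 : ℝ) * p * z ^ 2 * y) := mul_nonneg hy1 (by positivity)
  have g6 : 0 ≤ y * (y - 1) * ((133 / 5000000 : ℝ) * p ^ 2 * z ^ 2) := mul_nonneg hy1 (by positivity)
  have g7 : 0 ≤ (p + z) * (p + z - 2) * ((19 / 10000000 : ℝ) * p ^ 2 * z * y) := mul_nonneg hq2 (by positivity)
  have g8 : 0 ≤ p * (p - 2) * ((11 / 400000 : ℝ) * z * y ^ 2 * w) := mul_nonneg hp2 (by positivity)
  have g9 : 0 ≤ p * (p - 2) * ((9 / 5000000 : ℝ) * z ^ 4) := mul_nonneg hp2 (by positivity)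
  have g10 : 0 ≤ p * (p - 2) * ((1 / 2000000 : ℝ) * p ^ 3 * z) := mul_nonneg hp2 (by positivity)
  unfold iUA jUA
  linear_combination g0 + g1 + g2 + g3 + g4 + g5 + g6 + g7 + g8 + g9 + g10

theorem resUA (p z y w : ℝ) (hp : 0 ≤ p) (hz : 0 ≤ z) (hy : 0 ≤ y) (hw : 0 ≤ w) : 0 ≤ rUA p z y w := by
  unfold rUA
  positivity

end Pool.Agent.Lib.MP7ec162
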