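import Pool.Agent.Lib.MP_7ec162_pr.LW.JUADef

/-!
# Block two (MP_7ec162_pr)
-/

set_option autoImplicit false

namespace Pool.Agent.Lib.MP7ec162

theorem twoUA (p z y w : ℝ) (hp : 0 ≤ p) (hz : 0 ≤ z) (hy : 0 ≤ y) (hw : 0 ≤ w) :
    0 ≤ 20 * aUA p z y w + (p + z + y + w) * bUA p z y w - 20 * iUA p z y w +
      (p + z + y + w) * jUA p z y w := by
  have g0 : 0 ≤ (57353 / 12500 : ℝ) * p * z * y * w * (-(17 / 1000) * p - (189 / 1000) * z - (2 / 5) * y + 1 * w) ^ 2 := by positivity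
  have g1 : 0 ≤ (866774 / 15625 : ℝ) * p * z * y ^ 2 * ((91 / 1000) * p - (9 / 200) * z - (71 / 100) * y + 1 * w) ^ 2 := by positivity
  have g2 : 0 ≤ (402438 / 15625 : ℝ) * y ^ 2 * ((23 / 500) * p ^ 2 + (257 / 1000) * p * z - 1 * p * y + (51 / 200) * p * w + (13 / 200) * z ^ 2 + (253 / 1000) * z * y - (289 / 1000) * z * w + (129 / 1000) * y ^ 2 - (39 / 1000) * y * w - (3 / 1000) * w ^ 2) ^ 2 := by positivity
  have g3 : 0 ≤ (458587 / 125000 : ℝ) * (-(7 / 250) * p ^ 2 * z + (83 / 1000) * p ^ 2 * y + (67 / 1000) * p * z ^ 2 + (87 / 250) * p * z * y + (12 / 125) * p * z * w - (117 / 125) * p * y ^ 2 - (421 / 1000) * p * y * w - (7 / 40) * z ^ 3 - (29 / 1000) * z ^ 2 * y + (529 / 1000) * z ^ 2 * w + (131 / 200) * z * y ^ 2 - 1 * z * y * w + (3 / 1000) * z * w ^ 2 + (249 / 1000) * y ^ 3 - (99 / 1000) * y ^ 2 * w + (19 / 1000) * y * w ^ 2) ^ 2 := by positivity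
  have g4 : 0 ≤ (86641 / 15625 : ℝ) * p * w * ((81 / 500) * p * z - (51 / 200) * p * y + (261 / 1000) * z ^ 2 + (49 / 1000) * z * y - 1 * z * w + (417 / 1000) * y ^ 2 - (69 / 500) * y * w) ^ 2 := by positivity
  have g5 : 0 ≤ (2490519 / 125000 : ℝ) * p ^ 2 * ((21 / 250) * p * z - (17 / 125) * p * y - (393 / 1000) * z ^ 2 + 1 * z * y - (6 / 125) * z * w - (61 / 125) * y ^ 2 - (33 / 1000) * y * w) ^ 2 := by positivity
  have g6 : 0 ≤ (4711981 / 500000 : ℝ) * p * y * (-(3 / 200) * p ^ 2 + (147 / 200) * p * z - 1 * p * y - (81 / 1000) * p * w - (3 / 8) * z ^ 2 + (99 / 250) * z * y + (93 / 1000) * z * w - (89 / 200) * y ^ 2 + (37 / 50) * y * w - (59 / 250) * w ^ 2) ^ 2 := by positivity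
  have g7 : 0 ≤ (345559 / 250000 : ℝ) * ((73 / 1000) * p ^ 2 * z - (7 / 100) * p ^ 2 * y - (71 / 200) * p * z ^ 2 + (17 / 500) * p * z * y + (161 / 500) * p * z * w + (41 / 200) * p * y ^ 2 - (56 / 125) * p * y * w - (37 / 125) * z ^ 3 + 1 * z ^ 2 * y + (127 / 500) * z ^ 2 * w + (171 / 1000) * z * y ^ 2 - (409 / 500) * z * y * w - (13 / 1000) * z * w ^ 2 - (37 / 250) * y ^ 3 + (11 / 500) * y ^ 2 * w + (11 / 500) * y * w ^ 2) ^ 2 := by positivity
  have g8 : 0 ≤ (61803 / 500000 : ℝ) * ((3 / 1000) * p ^ 2 * z + (23 / 500) * p ^ 2 * y - (2 / 25) * p * z ^ 2 - (289 / 500) * p * z * y - (99 / 500) * p * z * w + (17 / 50) * p * y ^ 2 + 1 * p * y * w + (17 / 500) * z ^ 3 + (283 / 1000) * z ^ 2 * y - (159 / 1000) * z ^ 2 * w + (363 / 1000) * z * y ^ 2 - (9 / 125) * z * y * w - (1 / 1000) * z * w ^ 2 - (269 / 500) * y ^ 3 + (11 / 100) * y ^ 2 * w + (21 / 1000) * y * w ^ 2) ^ 2 := by positivity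
  have g9 : 0 ≤ (282711 / 25000 : ℝ) * y * w * (-(303 / 500) * p * z + 1 * p * y - (1 / 500) * p * w + (161 / 1000) * z ^ 2 + (7 / 1000) * z * y + (9 / 500) * z * w - (347 / 1000) * y ^ 2 + (16 / 125) * y * w - (3 / 1000) * w ^ 2) ^ 2 := by positivity
  have g10 : 0 ≤ (3138459 / 500000 : ℝ) * z * w * (-(7 / 250) * p ^ 2 + (313 / 500) * p * z - (611 / 1000) * p * y - (247 / 1000) * p * w + (39 / 1000) * z ^ 2 - 1 * z * y + (237 / 500) * z * w + (411 / 500) * y ^ 2 - (3 / 8) * y * w - (9 / 500) * w ^ 2) ^ 2 := by positivity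
  have g11 : 0 ≤ (10784 / 15625 : ℝ) * z * w * (-(3 / 200) * p ^ 2 - (17 / 250) * p * z + (137 / 500) * p * y + (121 / 500) * p * w - (681 / 1000) * z ^ 2 + (61 / 125) * z * y + 1 * z * w + (9 / 1000) * y ^ 2 - (807 / 1000) * y * w - (41 / 1000) * w ^ 2) ^ 2 := by positivity
  have g12 : 0 ≤ (711709 / 125000 : ℝ) * z * y * (-(43 / 1000) * p ^ 2 + (69 / 125) * p * z - (33 / 500) * p * y - (277 / 1000) * p * w - (433 / 1000) * z ^ 2 - (597 / 1000) * z * y + (909 / 1000) * z * w - (129 / 500) * y ^ 2 + 1 * y * w - (351 / 500) * w ^ 2) ^ 2 := by positivity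
  have g13 : 0 ≤ (1252239 / 500000 : ℝ) * p * y * (-(1 / 250) * p ^ 2 - (24 / 125) * p * z + (447 / 1000) * p * y + (23 / 250) * p * w + (2 / 125) * z ^ 2 - (11 / 125) * z * y - (27 / 500) * z * w - (123 / 200) * y ^ 2 + 1 * y * w - (33 / 100) * w ^ 2) ^ 2 := by positivity
  have g14 : 0 ≤ (23563 / 31250 : ℝ) * y ^ 2 * (-(33 / 1000) * p ^ 2 - (207 / 1000) * p * z + 1 * p * y + (147 / 1000) * p * w - (241 / 500) * z ^ 2 - (33 / 200) * z * y + (703 / 1000) * z * w - (93 / 250) * y ^ 2 + (9 / 100) * y * w + (3 / 250) * w ^ 2) ^ 2 := by positivity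
  have g15 : 0 ≤ (3874097 / 500000 : ℝ) * z * w * ((21 / 250) * p ^ 2 - (207 / 1000) * p * z - (3 / 500) * p * y - 1 * p * w + (303 / 500) * z ^ 2 + (119 / 500) * z * y - (109 / 200) * z * w + (359 / 1000) * y ^ 2 - (21 / 50) * y * w + (1 / 40) * w ^ 2) ^ 2 := by positivity
  have g16 : 0 ≤ (5925417 / 250000 : ℝ) * p * w * (-(327 / 1000) * p * z + (473 / 500) * p * y + (117 / 250) * z ^ 2 - 1 * z * y - (301 / 500) * z * w + (353 / 500) * y ^ 2 - (177 / 500) * y * w) ^ 2 := by positivity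
  have g17 : 0 ≤ (1044777 / 62500 : ℝ) * p * z * (-(3 / 500) * p ^ 2 - (1 / 20) * p * z + (207 / 1000) * p * y + (47 / 1000) * p * w + (327 / 1000) * z ^ 2 - (211 / 500) * z * y - (787 / 1000) * z * w - (173 / 250) * y ^ 2 + (461 / 500) * y * w + 1 * w ^ 2) ^ 2 := by positivity
  have g18 : 0 ≤ (6255449 / 500000 : ℝ) * (-(43 / 1000) * p ^ 2 * z + (19 / 250) * p ^ 2 * y + (41 / 250) * p * z ^ 2 - (177 / 1000) * p * z * y - (369 / 1000) * p * z * w + (21 / 200) * p * y ^ 2 + 1 * p * y * w - (1 / 20) * z ^ 3 - (229 / 1000) * z ^ 2 * y - (9 / 200) * z ^ 2 * w - (207 / 1000) * z * y ^ 2 + (599 / 1000) * z * y * w + (17 / 1000) * z * w ^ 2 - (219 / 1000) * y ^ 3 - (17 / 500) * y ^ 2 * w + (3 / 125) * y * w ^ 2) ^ 2 := by positivity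
  have g19 : 0 ≤ (3696591 / 250000 : ℝ) * p * w * (-(57 / 200) * p * z + (757 / 1000) * p * y + (103 / 1000) * z ^ 2 + (41 / 250) * z * y - 1 * z * w + (53 / 250) * y ^ 2 - (13 / 100) * y * w) ^ 2 := by positivity
  have g20 : 0 ≤ (2342229 / 500000 : ℝ) * p * y * ((21 / 1000) * p ^ 2 - (113 / 200) * p * z + (651 / 1000) * p * y + (157 / 500) * p * w + (3 / 500) * z ^ 2 + (11 / 40) * z * y + (233 / 1000) * z * w - 1 * y ^ 2 + (829 / 1000) * y * w - (81 / 500) * w ^ 2) ^ 2 := by positivity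
  have g21 : 0 ≤ (30891 / 250000 : ℝ) * z * w * (-(1 / 200) * p ^ 2 + (1 / 50) * p * z - (133 / 250) * p * y + 1 * p * w - (299 / 1000) * z ^ 2 + (579 / 1000) * z * y - (47 / 500) * z * w - (209 / 500) * y ^ 2 + (49 / 250) * y * w + (9 / 1000) * w ^ 2) ^ 2 := by positivity
  have g22 : 0 ≤ (493443 / 125000 : ℝ) * p * w * (-(533 / 1000) * p * z + (183 / 200) * p * y + (501 / 1000) * z ^ 2 - (39 / 200) * z * y - 1 * z * w + (33 / 125) * y ^ 2 - (43 / 250) * y * w) ^ 2 := by positivity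
  have g23 : 0 ≤ (5405911 / 250000 : ℝ) * p * z * ((3 / 1000) * p ^ 2 - (13 / 250) * p * z + (279 / 1000) * p * y - (103 / 250) * p * w + (253 / 1000) * z ^ 2 - (367 / 1000) * z * y - (149 / 1000) * z * w - (141 / 250) * y ^ 2 + 1 * y * w + (18 / 125) * w ^ 2) ^ 2 := by positivity
  have g24 : 0 ≤ (3129619 / 100000 : ℝ) * p * z * (-(1 / 1000) * p ^ 2 + (49 / 500) * p * z - (27 / 250) * p * y - (67 / 1000) * p * w - (119 / 250) * z ^ 2 + 1 * z * y + (133 / 1000) * z * w - (33 / 50) * y ^ 2 + (107 / 1000) * y * w + (123 / 500) * w ^ 2) ^ 2 := by positivity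
  have g25 : 0 ≤ (117241 / 500000 : ℝ) * (-(153 / 1000) * p ^ 2 * z + (211 / 1000) * p ^ 2 * y + (729 / 1000) * p * z ^ 2 - (527 / 1000) * p * z * y - (157 / 500) * p * z * w - (63 / 1000) * p * y ^ 2 - (89 / 1000) * p * y * w + (39 / 1000) * z ^ 3 - 1 * z ^ 2 * y + (34 / 125) * z ^ 2 * w + (69 / 200) * z * y ^ 2 + (139 / 1000) * z * y * w - (1 / 50) * z * w ^ 2 + (47 / 250) * y ^ 3 - (19 / 200) * y ^ 2 * w + (9 / 1000) * y * w ^ 2) ^ 2 := by positivity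
  have g26 : 0 ≤ (5102541 / 500000 : ℝ) * (-(7 / 1000) * p ^ 2 * z + (3 / 500) * p ^ 2 * y + (6 / 125) * p * z ^ 2 + (51 / 250) * p * z * y - (86 / 125) * p * z * w - (289 / 1000) * p * y ^ 2 + 1 * p * y * w - (33 / 500) * z ^ 3 + (9 / 125) * z ^ 2 * y + (127 / 1000) * z ^ 2 * w - (123 / 1000) * z * y ^ 2 + (97 / 1000) * z * y * w - (11 / 1000) * z * w ^ 2 - (9 / 125) * y ^ 3 - (67 / 1000) * y ^ 2 * w + (21 / 1000) * y * w ^ 2) ^ 2 := by positivity
  have g27 : 0 ≤ (918117 / 250000 : ℝ) * z * w * (-(79 / 1000) * p ^ 2 + (537 / 1000) * p * z - (443 / 1000) * p * y + (209 / 500) * p * w - (687 / 1000) * z ^ 2 + (41 / 1000) * z * y + 1 * z * w + (51 / 1000) * y ^ 2 - (87 / 200) * y * w - (3 / 50) * w ^ 2) ^ 2 := by positivity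
  have g28 : 0 ≤ (1853629 / 500000 : ℝ) * z * w * (-(21 / 1000) * p ^ 2 + (391 / 1000) * p * z - (11 / 200) * p * y - 1 * p * w - (177 / 1000) * z ^ 2 + (113 / 200) * z * y - (89 / 1000) * z * w + (19 / 250) * y ^ 2 - (71 / 250) * y * w + (11 / 1000) * w ^ 2) ^ 2 := by positivity
  have g29 : 0 ≤ (5310639 / 500000 : ℝ) * p * w * ((153 / 500) * p * z - 1 * p * y + (101 / 1000) * z ^ 2 + (153 / 200) * z * y - (69 / 100) * z * w + (13 / 200) * y ^ 2 - (13 / 500) * y * w) ^ 2 := by positivity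
  have g30 : 0 ≤ (26611 / 250000 : ℝ) * ((12 / 125) * p ^ 2 * z - (27 / 200) * p ^ 2 * y - (229 / 500) * p * z ^ 2 - (11 / 200) * p * z * y + (289 / 1000) * p * z * w + 1 * p * y ^ 2 - (109 / 200) * p * y * w - (24 / 125) * z ^ 3 + (927 / 1000) * z ^ 2 * y + (61 / 200) * z ^ 2 * w - (639 / 1000) * z * y ^ 2 - (329 / 1000) * z * y * w - (2 / 125) * z * w ^ 2 + (49 / 500) * y ^ 3 - (31 / 200) * y ^ 2 * w + (6 / 125) * y * w ^ 2) ^ 2 := by positivity
  have g31 : 0 ≤ (444421 / 500000 : ℝ) * y * w * ((13 / 250) * p ^ 2 + (22 / 125) * p * z - (451 / 500) * p * y - (73 / 500) * p * w + (279 / 500) * z ^ 2 - (77 / 100) * z * y - (153 / 1000) * z * w + 1 * y ^ 2 - (509 / 1000) * y * w + (9 / 200) * w ^ 2) ^ 2 := by positivity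
  have g32 : 0 ≤ (4668489 / 250000 : ℝ) * p * y * ((1 / 100) * p ^ 2 - (79 / 1000) * p * z - (81 / 1000) * p * y + (209 / 1000) * p * w - (4 / 125) * z ^ 2 + (183 / 500) * z * y - (31 / 200) * z * w - (88 / 125) * y ^ 2 + 1 * y * w - (157 / 500) * w ^ 2) ^ 2 := by positivity
  have g33 : 0 ≤ (1309447 / 500000 : ℝ) * (-(139 / 1000) * p ^ 2 * z + (247 / 1000) * p ^ 2 * y + (457 / 1000) * p * z ^ 2 - (131 / 500) * p * z * y - (91 / 500) * p * z * w - 1 * p * y ^ 2 + (397 / 500) * p * y * w + (87 / 1000) * z ^ 3 - (191 / 500) * z ^ 2 * y - (13 / 50) * z ^ 2 * w + (67 / 500) * z * y ^ 2 + (159 / 500) * z * y * w - (1 / 500) * z * w ^ 2 + (9 / 50) * y ^ 3 - (53 / 1000) * y ^ 2 * w - (3 / 200) * y * w ^ 2) ^ 2 := by positivity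
  have g34 : 0 ≤ (516737 / 250000 : ℝ) * z * w * (-(9 / 125) * p ^ 2 + (17 / 40) * p * z - (119 / 1000) * p * y + (331 / 1000) * p * w - 1 * z ^ 2 + (93 / 100) * z * y + (151 / 250) * z * w - (411 / 1000) * y ^ 2 - (101 / 500) * y * w - (7 / 250) * w ^ 2) ^ 2 := by positivity
  have g35 : 0 ≤ (329 / 10000 : ℝ) * z ^ 2 * ((1 / 1000) * p ^ 2 + (41 / 1000) * p * z - (4 / 25) * p * y + (171 / 1000) * p * w - (341 / 1000) * z ^ 2 + 1 * z * y - (7 / 25) * z * w - (479 / 1000) * y ^ 2 + (109 / 1000) * y * w + (3 / 100) * w ^ 2) ^ 2 := by positivity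
  have g36 : 0 ≤ (7163371 / 500000 : ℝ) * p * y * ((9 / 1000) * p ^ 2 - (69 / 100) * p * z + 1 * p * y + (51 / 125) * p * w + (13 / 40) * z ^ 2 - (463 / 1000) * z * y - (3 / 10) * z * w - (83 / 1000) * y ^ 2 + (339 / 1000) * y * w - (101 / 500) * w ^ 2) ^ 2 := by positivity
  have g37 : 0 ≤ (1837103 / 500000 : ℝ) * z * w * (-(1 / 50) * p ^ 2 - (301 / 1000) * p * z + (41 / 50) * p * y + (393 / 500) * p * w - (81 / 250) * z ^ 2 - 1 * z * y + (169 / 200) * z * w - (1 / 40) * y ^ 2 + (119 / 500) * y * w - (47 / 1000) * w ^ 2) ^ 2 := by positivity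
  have g38 : 0 ≤ (377937 / 10000 : ℝ) * z * y * (-(9 / 1000) * p ^ 2 - (183 / 1000) * p * z + (349 / 1000) * p * y + (249 / 1000) * p * w + (149 / 1000) * z ^ 2 - (213 / 1000) * z * y - (117 / 250) * z * w - (12 / 25) * y ^ 2 + 1 * y * w - (93 / 1000) * w ^ 2) ^ 2 := by positivity
  have g39 : 0 ≤ (323153 / 250000 : ℝ) * (-(57 / 1000) * p ^ 2 * z + (41 / 500) * p ^ 2 * y + (34 / 125) * p * z ^ 2 - (27 / 125) * p * z * y - (299 / 1000) * p * z * w - (7 / 500) * p * y ^ 2 + (311 / 500) * p * y * w + (179 / 1000) * z ^ 3 - 1 * z ^ 2 * y + (51 / 500) * z ^ 2 * w + (387 / 1000) * z * y ^ 2 + (63 / 200) * z * y * w - (3 / 500) * z * w ^ 2 - (8 / 125) * y ^ 3 - (47 / 500) * y ^ 2 * w + (7 / 200) * y * w ^ 2) ^ 2 := by positivity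
  have g40 : 0 ≤ (59647 / 100000 : ℝ) * ((109 / 1000) * p ^ 2 * z - (257 / 1000) * p ^ 2 * y - (12 / 25) * p * z ^ 2 + 1 * p * z * y - (321 / 1000) * p * z * w + (639 / 1000) * p * y ^ 2 - (139 / 1000) * p * y * w - (69 / 200) * z ^ 2 * y + (289 / 1000) * z ^ 2 * w - (47 / 1000) * z * y ^ 2 + (39 / 1000) * z * y * w + (7 / 1000) * z * w ^ 2 - (37 / 250) * y ^ 3 + (53 / 1000) * y ^ 2 * w) ^ 2 := by positivity
  have g41 : 0 ≤ (30773 / 62500 : ℝ) * y * w * ((43 / 125) * p ^ 2 - 1 * p * z + (687 / 1000) * p * y - (843 / 1000) * p * w + (87 / 125) * z ^ 2 + (93 / 500) * z * y - (173 / 250) * z * w + (3 / 125) * y ^ 2 + (7 / 1000) * w ^ 2) ^ 2 := by positivity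
  have g42 : 0 ≤ (5485197 / 500000 : ℝ) * z * y * (-(37 / 1000) * p ^ 2 + (17 / 40) * p * z - (173 / 1000) * p * y - (51 / 200) * p * w + (87 / 500) * z ^ 2 - 1 * z * y + (43 / 500) * z * w + (149 / 1000) * y ^ 2 + (69 / 100) * y * w - (51 / 250) * w ^ 2) ^ 2 := by positivity
  have g43 : 0 ≤ (824451 / 500000 : ℝ) * p * y * (-(9 / 200) * p ^ 2 + (911 / 1000) * p * z - (883 / 1000) * p * y - (149 / 500) * p * w - (433 / 500) * z ^ 2 + 1 * z * y + (187 / 1000) * z * w - (33 / 1000) * y ^ 2 - (293 / 1000) * y * w + (147 / 1000) * w ^ 2) ^ 2 := by positivity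
  have g44 : 0 ≤ (479791 / 100000 : ℝ) * (-(3 / 100) * p ^ 2 * z + (17 / 200) * p ^ 2 * y + (27 / 250) * p * z ^ 2 - (529 / 1000) * p * z * y - (81 / 500) * p * z * w + (23 / 250) * p * y ^ 2 + 1 * p * y * w + (7 / 200) * z ^ 3 + (59 / 250) * z ^ 2 * y - (467 / 1000) * z ^ 2 * w - (113 / 1000) * z * y ^ 2 + (449 / 1000) * z * y * w + (27 / 1000) * z * w ^ 2 - (133 / 250) * y ^ 3 + (207 / 500) * y ^ 2 * w - (97 / 1000) * y * w ^ 2) ^ 2 := by positivity
  have g45 : 0 ≤ (130061 / 50000 : ℝ) * ((7 / 200) * p ^ 2 * z - (137 / 1000) * p ^ 2 * y - (63 / 500) * p * z ^ 2 + 1 * p * z * y - (369 / 1000) * p * z * w - (47 / 200) * p * y ^ 2 + (59 / 200) * p * y * w + (9 / 125) * z ^ 3 - (713 / 1000) * z ^ 2 * y + (47 / 1000) * z ^ 2 * w - (27 / 200) * z * y ^ 2 + (113 / 200) * z * y * w - (1 / 200) * z * w ^ 2 - (133 / 1000) * y ^ 3 + (79 / 500) * y ^ 2 * w - (11 / 250) * y * w ^ 2) ^ 2 := by positivity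
  have g46 : 0 ≤ (92391 / 25000 : ℝ) * p ^ 2 * z * w * (-(1 / 500) * p - (147 / 1000) * z - (409 / 1000) * y + 1 * w) ^ 2 := by positivity
  have g47 : 0 ≤ (2534097 / 500000 : ℝ) * z * y * (-(43 / 1000) * p ^ 2 + (637 / 1000) * p * z - (557 / 1000) * p * y - (261 / 500) * p * w - (337 / 500) * z ^ 2 + (389 / 500) * z * y + (319 / 500) * z * w + (309 / 1000) * y ^ 2 - 1 * y * w + (3 / 50) * w ^ 2) ^ 2 := by positivity
  have g48 : 0 ≤ (150983 / 125000 : ℝ) * (-(137 / 1000) * p ^ 2 * z + (129 / 500) * p ^ 2 * y + (691 / 1000) * p * z ^ 2 - (789 / 1000) * p * z * y + (61 / 200) * p * z * w - 1 * p * y ^ 2 - (127 / 500) * p * y * w + (1 / 50) * z ^ 3 - (323 / 1000) * z ^ 2 * y - (7 / 500) * z ^ 2 * w + (1 / 4) * z * y ^ 2 - (89 / 500) * z * y * w - (9 / 1000) * z * w ^ 2 + (63 / 100) * y ^ 3 - (231 / 1000) * y ^ 2 * w - (1 / 1000) * y * w ^ 2) ^ 2 := by positivity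
  have g49 : 0 ≤ (3234491 / 500000 : ℝ) * p * y * (-(1 / 200) * p ^ 2 + (211 / 500) * p * z - (14 / 25) * p * y - (41 / 200) * p * w - (239 / 500) * z ^ 2 + (759 / 1000) * z * y + (59 / 125) * z * w - 1 * y ^ 2 + (469 / 500) * y * w - (169 / 1000) * w ^ 2) ^ 2 := by positivity
  have m0 : 0 ≤
    (29649731 / 500000000000) * p ^ 5 * z + (30389061 / 500000000000) * p ^ 5 * y
    + (42152373 / 125000000000) * p ^ 4 * z ^ 2 + (18864419 / 31250000000) * p ^ 4 * z * y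
    + (156894961 / 500000000000) * p ^ 4 * z * w + (71020523 / 250000000000) * p ^ 4 * y ^ 2
    + (7193839 / 25000000000) * p ^ 4 * y * w + (70834363 / 125000000000) * p ^ 3 * z ^ 3
    + (864141293 / 500000000000) * p ^ 3 * z ^ 2 * y + (17739227 / 15625000000) * p ^ 3 * z ^ 2 * w
    + (212360117 / 125000000000) * p ^ 3 * z * y ^ 2 + (141511437 / 62500000000) * p ^ 3 * z * y * w := by positivity
  have m1 : 0 ≤
    (283642709 / 500000000000) * p ^ 3 * z * w ^ 2 + (325108369 / 500000000000) * p ^ 3 * y ^ 3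
    + (142500611 / 125000000000) * p ^ 3 * y ^ 2 * w + (41046917 / 50000000000) * p ^ 3 * y * w ^ 2
    + (22649699 / 31250000000) * p ^ 2 * z ^ 4 + (28365351 / 12500000000) * p ^ 2 * z ^ 3 * y
    + (959786137 / 500000000000) * p ^ 2 * z ^ 3 * w
    + (1703699657 / 500000000000) * p ^ 2 * z ^ 2 * y ^ 2
    + (1278381581 / 250000000000) * p ^ 2 * z ^ 2 * y * w
    + (212907361 / 125000000000) * p ^ 2 * z ^ 2 * w ^ 2
    + (4530889 / 2000000000) * p ^ 2 * z * y ^ 3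
    + (637692527 / 125000000000) * p ^ 2 * z * y ^ 2 * w := by positivity
  have m2 : 0 ≤
    (1698973751 / 500000000000) * p ^ 2 * z * y * w ^ 2
    + (287678269 / 500000000000) * p ^ 2 * z * w ^ 3 + (144054539 / 250000000000) * p ^ 2 * y ^ 4
    + (4912609 / 1562500000) * p ^ 2 * y ^ 3 * w + (10660833 / 6250000000) * p ^ 2 * y ^ 2 * w ^ 2
    + (142054013 / 250000000000) * p ^ 2 * y * w ^ 3 + (71501583 / 250000000000) * p * z ^ 5
    + (191467639 / 125000000000) * p * z ^ 4 * y + (565468693 / 500000000000) * p * z ^ 4 * w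
    + (709118409 / 250000000000) * p * z ^ 3 * y ^ 2
    + (1176056427 / 250000000000) * p * z ^ 3 * y * w
    + (848579087 / 500000000000) * p * z ^ 3 * w ^ 2 := by positivity
  have m3 : 0 ≤
    (1423874539 / 500000000000) * p * z ^ 2 * y ^ 3
    + (3402021527 / 500000000000) * p * z ^ 2 * y ^ 2 * w
    + (509942179 / 100000000000) * p * z ^ 2 * y * w ^ 2
    + (285688013 / 250000000000) * p * z ^ 2 * w ^ 3 + (176476717 / 125000000000) * p * z * y ^ 4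
    + (141957721 / 31250000000) * p * z * y ^ 3 * w
    + (2553963141 / 500000000000) * p * z * y ^ 2 * w ^ 2
    + (284649587 / 125000000000) * p * z * y * w ^ 3 + (57935597 / 125000000000) * p * z * w ^ 4
    + (8860943 / 31250000000) * p * y ^ 5 + (561628167 / 500000000000) * p * y ^ 4 * w
    + (171137203 / 100000000000) * p * y ^ 3 * w ^ 2 := by positivity
  have m4 : 0 ≤
    (35373079 / 31250000000) * p * y ^ 2 * w ^ 3 + (71021917 / 250000000000) * p * y * w ^ 4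
    + (1143633 / 20000000000) * z ^ 6 + (84461243 / 250000000000) * z ^ 5 * y
    + (71660023 / 250000000000) * z ^ 5 * w + (85857113 / 100000000000) * z ^ 4 * y ^ 2
    + (187270363 / 125000000000) * z ^ 4 * y * w + (281423781 / 500000000000) * z ^ 4 * w ^ 2
    + (28274411 / 25000000000) * z ^ 3 * y ^ 3 + (1746365137 / 500000000000) * z ^ 3 * y ^ 2 * w
    + (283189953 / 125000000000) * z ^ 3 * y * w ^ 2 + (289996803 / 500000000000) * z ^ 3 * w ^ 3 := by positivity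
  have m5 : 0 ≤
    (21329789 / 25000000000) * z ^ 2 * y ^ 4 + (28320451 / 10000000000) * z ^ 2 * y ^ 3 * w
    + (1702875083 / 500000000000) * z ^ 2 * y ^ 2 * w ^ 2
    + (170142051 / 100000000000) * z ^ 2 * y * w ^ 3 + (156291631 / 500000000000) * z ^ 2 * w ^ 4
    + (27791461 / 62500000000) * z * y ^ 5 + (35386243 / 25000000000) * z * y ^ 4 * w
    + (284919993 / 125000000000) * z * y ^ 3 * w ^ 2
    + (851237227 / 500000000000) * z * y ^ 2 * w ^ 3 + (164236881 / 250000000000) * z * y * w ^ 4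
    + (29745737 / 500000000000) * z * w ^ 5 + (52139469 / 500000000000) * y ^ 6 := by positivity
  have m6 : 0 ≤
    (8847277 / 31250000000) * y ^ 5 * w + (141842029 / 250000000000) * y ^ 4 * w ^ 2
    + (283746621 / 500000000000) * y ^ 3 * w ^ 3 + (28377537 / 100000000000) * y ^ 2 * w ^ 4
    + (28846479 / 500000000000) * y * w ^ 5 := by positivity
  unfold aUA bUA iUA jUA
  linear_combination g0 + g1 + g2 + g3 + g4 + g5 + g6 + g7 + g8 + g9 + g10 + g11 + g12 + g13 + g14 + g15 + g16 + g17 + g18 + g19 + g20 + g21 + g22 + g23 + g24 + g25 + g26 + g27 + g28 + g29 + g30 + g31 + g32 + g33 + g34 + g35 + g36 + g37 + g38 + g39 + g40 + g41 + g42 + g43 + g44 + g45 + g46 + g47 + g48 + g49 + m0 + m1 + m2 + m3 + m4 + m5 + m6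

end Pool.Agent.Lib.MP7ec162
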