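import Pool.Agent.Lib.MP_7ec162_pr.Bounds
import Pool.Agent.Lib.MP_7ec162_pr.LW.JUAOne
import Pool.Agent.Lib.MP_7ec162_pr.LW.JUATwo
import Pool.Agent.Lib.MP_7ec162_pr.LW.JUAThr

/-!
# The joint upper certificate (MP_7ec162_pr)
-/

set_option autoImplicit false

namespace Pool.Agent.Lib.MP7ec162

/-- the potential -/
noncomputable def phUA (N x t : ℝ) : ℝ :=
    -(1492699 / 2500000) * N ^ 4 * x + (1996067 / 2000000) * N ^ 3 * x ^ 2
    + (147177 / 5000000) * N ^ 3 * x * t - (480941 / 500000) * N ^ 3 * x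
    + (3617539 / 5000000) * N ^ 2 * x ^ 3 + (6174269 / 10000000) * N ^ 2 * x ^ 2 * t
    + (2909759 / 2500000) * N ^ 2 * x ^ 2 - (25571941 / 10000000) * N ^ 2 * x * t ^ 2
    + (1203121 / 10000000) * N ^ 2 * x * t + (6233359 / 10000000) * N * x ^ 4
    - (10418239 / 10000000) * N * x ^ 3 * t - (770763 / 10000000) * N * x ^ 3
    + (136937 / 31250) * N * x ^ 2 * t ^ 2 - (5139211 / 5000000) * N * x ^ 2 * t
    - (5721697 / 2000000) * N * x * t ^ 3 + (6076661 / 10000000) * N * x * t ^ 2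
    + (2367531 / 10000000) * x ^ 5 + (39178 / 78125) * x ^ 4 * t - (1152199 / 5000000) * x ^ 4
    - (6627527 / 2500000) * x ^ 3 * t ^ 2 + (19682907 / 10000000) * x ^ 3 * t
    + (3439959 / 1250000) * x ^ 2 * t ^ 3 - (671059 / 312500) * x ^ 2 * t ^ 2
    - (11559653 / 10000000) * x * t ^ 4 + (2922283 / 5000000) * x * t ^ 3

/-- the telescoping function -/
noncomputable def whUA (N x t : ℝ) : ℝ :=
    (1951 / 10000000) * N ^ 5 * x + (1467 / 10000000) * N ^ 5 * t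
    + (2002603 / 2500000) * N ^ 4 * x ^ 2 - (673971 / 1000000) * N ^ 4 * x * t
    - (8077593 / 10000000) * N ^ 4 * x + (3285831 / 5000000) * N ^ 4 * t ^ 2
    + (285783 / 10000000) * N ^ 4 * t + (243801 / 2500000) * N ^ 3 * x ^ 3
    + (6030007 / 2500000) * N ^ 3 * x ^ 2 * t + (10565837 / 5000000) * N ^ 3 * x ^ 2
    - (1696333 / 1250000) * N ^ 3 * x * t ^ 2 - (17923991 / 2500000) * N ^ 3 * x * t
    - (20683691 / 10000000) * N ^ 3 * x - (4917181 / 10000000) * N ^ 3 * t ^ 3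
    + (30863487 / 5000000) * N ^ 3 * t ^ 2 + (11331299 / 10000000) * N ^ 2 * x ^ 4
    - (53618807 / 10000000) * N ^ 2 * x ^ 3 * t - (120073617 / 10000000) * N ^ 2 * x ^ 3
    + (4828083 / 5000000) * N ^ 2 * x ^ 2 * t ^ 2 + (206401113 / 5000000) * N ^ 2 * x ^ 2 * t
    + (40863657 / 2000000) * N ^ 2 * x ^ 2 + (32307681 / 10000000) * N ^ 2 * x * t ^ 3
    - (452147401 / 10000000) * N ^ 2 * x * t ^ 2 - (68548193 / 2000000) * N ^ 2 * x * t
    + (237 / 10) * N ^ 2 * x - (5568479 / 5000000) * N ^ 2 * t ^ 4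
    + (48910537 / 5000000) * N ^ 2 * t ^ 3 + (68548193 / 2000000) * N ^ 2 * t ^ 2
    - (5105569 / 2500000) * N * x ^ 5 + (9253107 / 1000000) * N * x ^ 4 * t
    + (47775331 / 2500000) * N * x ^ 4 - (75621589 / 10000000) * N * x ^ 3 * t ^ 2
    - (744450949 / 10000000) * N * x ^ 3 * t - (113770131 / 5000000) * N * x ^ 3
    + (1129641 / 500000) * N * x ^ 2 * t ^ 3 + (965511113 / 10000000) * N * x ^ 2 * t ^ 2
    + (509478507 / 10000000) * N * x ^ 2 * t - (5278889 / 5000000) * N * x * t ^ 4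
    - (363409177 / 10000000) * N * x * t ^ 3 - (220073411 / 5000000) * N * x * t ^ 2
    + (209 / 25) * N * x + (2482023 / 5000000) * N * t ^ 5 + (35437779 / 10000000) * N * t ^ 4
    - (13866337 / 2000000) * N * t ^ 3 + (5917639 / 5000000) * x ^ 6
    - (29471931 / 5000000) * x ^ 5 * t - (81529253 / 10000000) * x ^ 5
    + (94921513 / 10000000) * x ^ 4 * t ^ 2 + (374124957 / 10000000) * x ^ 4 * t
    + (69192951 / 10000000) * x ^ 4 - (96648021 / 10000000) * x ^ 3 * t ^ 3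
    - (27806963 / 500000) * x ^ 3 * t ^ 2 - (83368771 / 5000000) * x ^ 3 * t
    + (66575743 / 10000000) * x ^ 2 * t ^ 4 + (142591087 / 5000000) * x ^ 2 * t ^ 3
    + (97405857 / 10000000) * x ^ 2 * t ^ 2 - (3151587 / 1250000) * x * t ^ 5
    - (64132541 / 10000000) * x * t ^ 4 + (13866337 / 2000000) * x * t ^ 3
    + (1704101 / 5000000) * t ^ 6 + (4703191 / 5000000) * t ^ 5

theorem expUA (N p z y w : ℝ) (hN : N = p + z + y + w) :
    whUA N (p + z + y) (p + z) - whUA N (p + z) p -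
      (2 * y * (p + z) * (N ^ 4 + (phUA N (p + z + y) (p + z + 1) - phUA N (p + z + y) (p + z) +
        (phUA N (p + z + 1) p - phUA N (p + z) p))) +
      y * (y - 1) * (2 * N ^ 4 + (phUA N (p + z + y) (p + z + 2) - phUA N (p + z + y) (p + z) +
        (phUA N (p + z + 2) p - phUA N (p + z) p)))) =
    aUA p z y w + bUA p z y w + rUA p z y w := by
  subst hN
  unfold phUA whUA aUA bUA rUA
  ring

theorem keyUA (N p z y w : ℝ) (hp : 0 ≤ p) (hz : 0 ≤ z) (hy : 0 ≤ y) (hw : 0 ≤ w)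
    (hz1 : 0 ≤ z * (z - 1)) (hy1 : 0 ≤ y * (y - 1)) (hp1 : 0 ≤ p * (p - 1)) (hw1 : 0 ≤ w * (w - 1))
    (hq2 : 0 ≤ (p + z) * (p + z - 2)) (hp2 : 0 ≤ p * (p - 2))
    (hN : N = p + z + y + w) (h20 : 20 ≤ N) :
    0 ≤ whUA N (p + z + y) (p + z) - whUA N (p + z) p -
      (2 * y * (p + z) * (N ^ 4 + (phUA N (p + z + y) (p + z + 1) - phUA N (p + z + y) (p + z) +
        (phUA N (p + z + 1) p - phUA N (p + z) p))) +
      y * (y - 1) * (2 * N ^ 4 + (phUA N (p + z + y) (p + z + 2) - phUA N (p + z + y) (p + z) +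
        (phUA N (p + z + 2) p - phUA N (p + z) p)))) := by
  rw [expUA N p z y w hN]
  have h1 := oneUA p z y w hp hz hy hw
  have h2 := twoUA p z y w hp hz hy hw
  have h3 := thrUA p z y w hp hz hy hw hz1 hy1 hp1 hw1 hq2 hp2
  have h4 := resUA p z y w hp hz hy hw
  have hN0 : (0 : ℝ) < N := by linarith
  rw [← hN] at h2
  generalize aUA p z y w = a at *
  generalize bUA p z y w = b at *
  generalize iUA p z y w = i at *
  generalize jUA p z y w = j at *
  generalize rUA p z y w = r at *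
  have h5 : 0 ≤ N * (a + b + r) := by
    have h6 := mul_nonneg (by linarith : (0 : ℝ) ≤ N - 20) h1
    have h7 := mul_nonneg hN0.le h3
    have h8 := mul_nonneg hN0.le h4
    linear_combination h6 + h2 + h7 + h8
  exact nonneg_of_mul_nonneg_right h5 hN0

/-- The upper bound. -/
theorem upper_joint {N : ℕ} (hN : 20 ≤ N) {V : ℝ} (hV : IsSpeed N V) :
    V ≤ ((2483 / 2000) * (N : ℝ) ^ 4 - (1424859 / 2000000) * (N : ℝ) ^ 3 + (25287283 / 10000000) * (N : ℝ) ^ 2 + (237 / 10) * N + (209 / 25)) /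
      ((N : ℝ) ^ 3 * (N - 1)) := by
  have h20 : (20 : ℝ) ≤ N := by exact_mod_cast hN
  have hN0 : (0 : ℝ) < N := by linarith
  have hN1 : (0 : ℝ) < (N : ℝ) - 1 := by linarith
  obtain ⟨κ, hκ⟩ : ∃ κ : ℝ, κ = 1 / (N : ℝ) ^ 4 := ⟨_, rfl⟩
  have hκ0 : 0 < κ := by rw [hκ]; positivity
  have hκe : κ * (N : ℝ) ^ 4 = 1 := by
    rw [hκ]
    field_simp
  refine cert_upper (by omega) (Φ := fun x t => κ * phUA N x t) (W := fun r q => κ * whUA N r q)
    ?_ ?_ ?_ ?_ ?_ hV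
  · simp [phUA]
  · have : phUA (N : ℝ) N N = 0 := by
      unfold phUA
      ring
    simp [this]
  · simp [whUA]
  · have h1 : whUA (N : ℝ) N N = (N : ℝ) ^ 2 * ((2483 / 2000) * (N : ℝ) ^ 4 - (1424859 / 2000000) * (N : ℝ) ^ 3 + (25287283 / 10000000) * (N : ℝ) ^ 2 + (237 / 10) * N + (209 / 25)) := by
      unfold whUA
      ring
    have h2 : ((2483 / 2000) * (N : ℝ) ^ 4 - (1424859 / 2000000) * (N : ℝ) ^ 3 + (25287283 / 10000000) * (N : ℝ) ^ 2 + (237 / 10) * N + (209 / 25)) / ((N : ℝ) ^ 3 * (N - 1)) * ((N : ℝ) * (N - 1)) = κ * whUA (N : ℝ) N N := by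
      rw [h1, hκ]
      field_simp
    exact h2.ge
  · intro p q r hpq hqr hrN hp1 hq1 hr1
    obtain ⟨w, rfl⟩ := Nat.exists_eq_add_of_le hrN
    obtain ⟨y, rfl⟩ := Nat.exists_eq_add_of_le hqr
    obtain ⟨z, rfl⟩ := Nat.exists_eq_add_of_le hpq
    have ip : ∀ n : ℕ, (0 : ℝ) ≤ (n : ℝ) * (n - 1) := by
      intro n
      rcases Nat.eq_zero_or_pos n with h | h
      · subst h
        simp
      · have : (1 : ℝ) ≤ n := by exact_mod_cast h
        exact mul_nonneg (by linarith) (by linarith)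
    have i2 : ∀ n : ℕ, n ≠ 1 → (0 : ℝ) ≤ (n : ℝ) * (n - 2) := by
      intro n hn
      rcases Nat.eq_zero_or_pos n with h | h
      · subst h
        simp
      · have : (2 : ℝ) ≤ n := by exact_mod_cast (by omega : 2 ≤ n)
        exact mul_nonneg (by linarith) (by linarith)
    have hq2 := i2 (p + z) hq1
    push_cast at hq2
    have key := mul_nonneg hκ0.le (keyUA ((p + z + y + w : ℕ) : ℝ) p z y w (Nat.cast_nonneg p)
      (Nat.cast_nonneg z) (Nat.cast_nonneg y) (Nat.cast_nonneg w) (ip z) (ip y) (ip p) (ip w)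
      hq2 (i2 p hp1) (by push_cast; ring) h20)
    generalize ((p + z + y + w : ℕ) : ℝ) = M at *
    unfold cost
    push_cast
    linear_combination key - (2 * (y : ℝ) * (p + z) + 2 * y * (y - 1)) * hκe

end Pool.Agent.Lib.MP7ec162
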