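import Pool.Agent.Lib.MP_7ec162_pr.LW.KLM
import Pool.Agent.Lib.MP_7ec162_pr.LW.JUA
import Pool.Agent.Lib.MP_7ec162_pr.LW.TabA
import Pool.Agent.Lib.MP_7ec162_pr.LW.TabB
import Pool.Agent.Lib.MP_7ec162_pr.Final

/-!
# Two-sided bounds and comparisons (MP_7ec162_pr)
-/

set_option autoImplicit false

namespace Pool.Agent.Lib.MP7ec162

/-- The upper bound of the joint certificate. -/
noncomputable def ub (x : ℝ) : ℝ :=
  1.2415 + 0.5290705 / (x - 1) + 2.5287283 / (x * (x - 1)) + 23.7 / (x ^ 2 * (x - 1)) +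
    8.36 / (x ^ 3 * (x - 1))

theorem ub_anti {k x : ℝ} (hk : 2 ≤ k) (hkx : k ≤ x) : ub x ≤ ub k := by
  have h0 : 0 < k := by linarith
  have h1 : 0 < k - 1 := by linarith
  have h2 : k - 1 ≤ x - 1 := by linarith
  have h3 : 0 < x := by linarith
  unfold ub
  gcongr

theorem le_ub {N : ℕ} (hN : 20 ≤ N) {V : ℝ} (hV : IsSpeed N V) : V ≤ ub N := by
  refine (upper_joint hN hV).trans (le_of_eq ?_)
  have h1 : (20 : ℝ) ≤ N := by exact_mod_cast hN
  have h2 : (N : ℝ) ≠ 0 := by linarith
  have h3 : (N : ℝ) - 1 ≠ 0 := by linarith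
  unfold ub
  field_simp
  ring

/-- `ub (k x)` for `k ≥ 1`, bounded with the denominators `x - 1`. -/
theorem ub_scale {k x : ℝ} (hk : 1 ≤ k) (hx : 2 ≤ x) :
    ub (k * x) ≤ (1.2415 * (x ^ 3 * (x - 1)) + 0.5290705 / k * x ^ 3 + 2.5287283 / k ^ 2 * x ^ 2 +
      23.7 / k ^ 3 * x + 8.36 / k ^ 4) / (x ^ 3 * (x - 1)) := by
  have h0 : 0 < x := by linarith
  have h1 : 0 < x - 1 := by linarith
  have hk0 : 0 < k := by linarith
  have h2 : k * (x - 1) ≤ k * x - 1 := by linarith
  have h3 : 0 < k * (x - 1) := mul_pos hk0 h1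
  have e : (1.2415 * (x ^ 3 * (x - 1)) + 0.5290705 / k * x ^ 3 + 2.5287283 / k ^ 2 * x ^ 2 +
      23.7 / k ^ 3 * x + 8.36 / k ^ 4) / (x ^ 3 * (x - 1)) =
      1.2415 + 0.5290705 / (k * (x - 1)) + 2.5287283 / (k * x * (k * (x - 1))) +
      23.7 / ((k * x) ^ 2 * (k * (x - 1))) + 8.36 / ((k * x) ^ 3 * (k * (x - 1))) := by
    field_simp
  rw [e]
  unfold ub
  gcongr

theorem fin_lower {N : ℕ} (hN : 2 ≤ N) {V : ℝ} (hV : IsSpeed N V) : 1.2413 + 0.18 / N < V := by
  have hNr : (2 : ℝ) ≤ N := by exact_mod_cast hN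
  have hN0 : (0 : ℝ) < N := by linarith
  rcases Nat.lt_or_ge N 20 with h | h
  · rcases Nat.lt_or_ge N 9 with h9 | h9
    · obtain ⟨W, hW⟩ := exists_speed (N := 9) (by norm_num)
      have h1 := chain hN (by omega) h9 hV hW
      have h2 := speedT9 hW
      rcases Nat.lt_or_ge N 5 with h5 | h5
      · interval_cases N
        · have := speedL2 hV
          norm_num
          linarith
        · have := speedL3 hV
          norm_num
          linarith
        · have := speedL4 hV
          norm_num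
          linarith
      · have h3 : (5 : ℝ) ≤ N := by exact_mod_cast h5
        have h4 : 0.18 / (N : ℝ) ≤ 0.18 / 5 := by
          gcongr
        norm_num at h4 h2 ⊢
        linarith
    · interval_cases N
      · have := speedT9 hV
        norm_num at this ⊢
        linarith
      · have := speedT10 hV
        norm_num at this ⊢
        linarith
      · have := speedT11 hV
        norm_num at this ⊢
        linarith
      · have := speedT12 hV
        norm_num at this ⊢
        linarith
      · have := speedT13 hV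
        norm_num at this ⊢
        linarith
      · have := speedT14 hV
        norm_num at this ⊢
        linarith
      · have := speedT15 hV
        norm_num at this ⊢
        linarith
      · have := speedT16 hV
        norm_num at this ⊢
        linarith
      · have := speedT17 hV
        norm_num at this ⊢
        linarith
      · have := speedT18 hV
        norm_num at this ⊢
        linarith
      · have := speedT19 hV
        norm_num at this ⊢
        linarith
  · have h1 := lower_five h hV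
    have h2 : (20 : ℝ) ≤ N := by exact_mod_cast h
    refine lt_of_lt_of_le ?_ h1
    have hD : (0 : ℝ) < (N : ℝ) ^ 3 * (N - 1) := mul_pos (by positivity) (by linarith)
    rw [lt_div_iff₀ hD]
    have e : (0.18 : ℝ) / N * N = 0.18 := div_mul_cancel₀ _ hN0.ne'
    have e2 : (1.2413 + 0.18 / (N : ℝ)) * ((N : ℝ) ^ 3 * (N - 1)) =
        1.2413 * ((N : ℝ) ^ 3 * (N - 1)) + 0.18 / (N : ℝ) * N * ((N : ℝ) ^ 2 * (N - 1)) := by ring
    rw [e2, e]
    have h3 : (0 : ℝ) ≤ (N : ℝ) ^ 2 * (N - 20) := mul_nonneg (by positivity) (by linarith)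
    have h4 : (0 : ℝ) ≤ (N : ℝ) * (N - 20) := mul_nonneg (by positivity) (by linarith)
    have h5 : (0 : ℝ) ≤ (N : ℝ) ^ 4 := by positivity
    nlinarith

theorem fin_upper {N : ℕ} (hN : 2 ≤ N) {V : ℝ} (hV : IsSpeed N V) :
    V < 1.2415 + 0.8 / ((N : ℝ) - 1) := by
  rcases Nat.lt_or_ge N 20 with h | h
  · have h1 := upper_general hN hV 1 (by norm_num)
    have h2 := upper_general hN hV 2 (by norm_num)
    have h3 := upper_general hN hV 3 (by norm_num)
    have h4 := upper_general hN hV 4 (by norm_num)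
    have h5 := upper_general hN hV 5 (by norm_num)
    interval_cases N <;> norm_num at h1 h2 h3 h4 h5 ⊢ <;> linarith
  · have h1 := upper_joint h hV
    have h2 : (20 : ℝ) ≤ N := by exact_mod_cast h
    have hN1 : (0 : ℝ) < (N : ℝ) - 1 := by linarith
    refine lt_of_le_of_lt h1 ?_
    have e : 1.2415 + 0.8 / ((N : ℝ) - 1) =
        ((1.2415 * (N - 1) + 0.8) * (N : ℝ) ^ 3) / ((N : ℝ) ^ 3 * (N - 1)) := by
      field_simp
    rw [e]
    apply div_lt_div_of_pos_right _ (mul_pos (by positivity) hN1)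
    have h3 : (0 : ℝ) ≤ (N : ℝ) ^ 2 * (N - 20) := mul_nonneg (by positivity) (by linarith)
    have h4 : (0 : ℝ) ≤ (N : ℝ) * (N - 20) := mul_nonneg (by positivity) (by linarith)
    nlinarith

/-- The comparison for `20 ≤ N ≤ 650`, `M ≥ 4 N`. -/
theorem cmp_four {N M : ℕ} (hN : 20 ≤ N) (h6 : N ≤ 650) (hM : 4 * N ≤ M) {V W : ℝ}
    (hV : IsSpeed N V) (hW : IsSpeed M W) : W < V := by
  have h1 := le_ub (by omega) hW
  have hNr : (20 : ℝ) ≤ N := by exact_mod_cast hN
  have hNu : (N : ℝ) ≤ 650 := by exact_mod_cast h6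
  have hMr : 4 * (N : ℝ) ≤ M := by exact_mod_cast hM
  have h2 : ub M ≤ ub (4 * N) := ub_anti (by linarith) hMr
  have h3 := ub_scale (k := 4) (x := N) (by norm_num) (by linarith)
  have h4 := lower_five hN hV
  refine lt_of_lt_of_le (lt_of_le_of_lt (h1.trans (h2.trans h3)) ?_) h4
  have hD : (0 : ℝ) < (N : ℝ) ^ 3 * (N - 1) := mul_pos (by positivity) (by linarith)
  apply div_lt_div_of_pos_right _ hD
  have h5 : (0 : ℝ) ≤ (N : ℝ) ^ 2 * ((N - 20) * (650 - N)) :=
    mul_nonneg (by positivity) (mul_nonneg (by linarith) (by linarith))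
  have h6 : (0 : ℝ) ≤ (N : ℝ) ^ 2 * (N - 20) := mul_nonneg (by positivity) (by linarith)
  have h7 : (0 : ℝ) ≤ (N : ℝ) * (N - 20) := mul_nonneg (by positivity) (by linarith)
  norm_num
  nlinarith

/-- The comparison for `20 ≤ N ≤ 1000`, `M ≥ 8 N`. -/
theorem cmp_eight {N M : ℕ} (hN : 20 ≤ N) (h6 : N ≤ 1000) (hM : 8 * N ≤ M) {V W : ℝ}
    (hV : IsSpeed N V) (hW : IsSpeed M W) : W < V := by
  have h1 := le_ub (by omega) hW
  have hNr : (20 : ℝ) ≤ N := by exact_mod_cast hN
  have hNu : (N : ℝ) ≤ 1000 := by exact_mod_cast h6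
  have hMr : 8 * (N : ℝ) ≤ M := by exact_mod_cast hM
  have h2 : ub M ≤ ub (8 * N) := ub_anti (by linarith) hMr
  have h3 := ub_scale (k := 8) (x := N) (by norm_num) (by linarith)
  have h4 := lower_five hN hV
  refine lt_of_lt_of_le (lt_of_le_of_lt (h1.trans (h2.trans h3)) ?_) h4
  have hD : (0 : ℝ) < (N : ℝ) ^ 3 * (N - 1) := mul_pos (by positivity) (by linarith)
  apply div_lt_div_of_pos_right _ hD
  have h5 : (0 : ℝ) ≤ (N : ℝ) ^ 2 * ((N - 20) * (1000 - N)) :=
    mul_nonneg (by positivity) (mul_nonneg (by linarith) (by linarith))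
  have h6 : (0 : ℝ) ≤ (N : ℝ) ^ 2 * (N - 20) := mul_nonneg (by positivity) (by linarith)
  have h7 : (0 : ℝ) ≤ (N : ℝ) * (N - 20) := mul_nonneg (by positivity) (by linarith)
  norm_num
  nlinarith

theorem cmp_small {N M : ℕ} (hN : 2 ≤ N) (h19 : N ≤ 19) (hM : 4 * N ≤ M) {V W : ℝ}
    (hV : IsSpeed N V) (hW : IsSpeed M W) : W < V := by
  rcases Nat.lt_or_ge N 9 with h | h
  · exact chain hN (by omega) (by omega) hV hW
  · have h1 := le_ub (by omega) hW
    have h2 : ub M ≤ ub ((4 * N : ℕ) : ℝ) := by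
      apply ub_anti
      · exact_mod_cast (by omega : 2 ≤ 4 * N)
      · exact_mod_cast hM
    have h3 := h1.trans h2
    unfold ub at h3
    interval_cases N
    · have := speedT9 hV
      norm_num at h3 this
      linarith
    · have := speedT10 hV
      norm_num at h3 this
      linarith
    · have := speedT11 hV
      norm_num at h3 this
      linarith
    · have := speedT12 hV
      norm_num at h3 this
      linarith
    · have := speedT13 hV
      norm_num at h3 this
      linarith
    · have := speedT14 hV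
      norm_num at h3 this
      linarith
    · have := speedT15 hV
      norm_num at h3 this
      linarith
    · have := speedT16 hV
      norm_num at h3 this
      linarith
    · have := speedT17 hV
      norm_num at h3 this
      linarith
    · have := speedT18 hV
      norm_num at h3 this
      linarith
    · have := speedT19 hV
      norm_num at h3 this
      linarith

/-- The comparisons. -/
theorem cmp_all {N M : ℕ} (hN : 2 ≤ N) (h : N ≤ 650 ∧ 4 * N ≤ M ∨ N ≤ 1000 ∧ 8 * N ≤ M) {V W : ℝ}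
    (hV : IsSpeed N V) (hW : IsSpeed M W) : W < V := by
  rcases Nat.lt_or_ge N 20 with h20 | h20
  · exact cmp_small hN (by omega) (by omega) hV hW
  · rcases h with ⟨h1, h2⟩ | ⟨h1, h2⟩
    · exact cmp_four h20 h1 h2 hV hW
    · exact cmp_eight h20 h1 h2 hV hW

end Pool.Agent.Lib.MP7ec162
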