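import Pool.Agent.Lib.MP_7ec162_pr.LW.KLMPh

/-!
# Expansion of the cost (MP_7ec162_pr)
-/

set_option autoImplicit false
set_option maxRecDepth 100000

namespace Pool.Agent.Lib.MP7ec162

/-- coefficient of `N ^ 0` -/
noncomputable def vkLM0 (x t u : ℝ) : ℝ :=
    -(70231 / 1250000) * x ^ 4 + (752089 / 5000000) * x ^ 3 * t + (59871 / 400000) * x ^ 3 * u
    + (3574599 / 10000000) * x ^ 3 - (790767 / 5000000) * x ^ 2 * t ^ 2
    - (3526463 / 10000000) * x ^ 2 * t * u + (48541 / 312500) * x ^ 2 * t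
    - (1393809 / 5000000) * x ^ 2 * u ^ 2 - (3034111 / 10000000) * x ^ 2 * u
    + (1023739 / 10000000) * x * t ^ 3 - (2343383 / 10000000) * x * t ^ 2 * u
    - (8241 / 5000000) * x * t ^ 2 + (3983849 / 10000000) * x * t * u ^ 2
    + (932089 / 2500000) * x * t * u - (372487 / 5000000) * x * u ^ 3
    + (146603 / 625000) * x * u ^ 2

/-- its cost -/
noncomputable def ckLM0 (o a b y x : ℝ) : ℝ :=
    -(3537279 / 1250000) * o ^ 4 * y - (2892049 / 312500) * o ^ 3 * a * y
    - (1581161 / 200000) * o ^ 3 * b * y - (6243311 / 1000000) * o ^ 3 * y ^ 2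
    - (64523 / 31250) * o ^ 3 * y * x + (34446847 / 5000000) * o ^ 3 * y
    - (11549993 / 1000000) * o ^ 2 * a ^ 2 * y - (99040647 / 5000000) * o ^ 2 * a * b * y
    - (16665197 / 1000000) * o ^ 2 * a * y ^ 2 - (193569 / 31250) * o ^ 2 * a * y * x
    + (19055361 / 1000000) * o ^ 2 * a * y - (39742067 / 5000000) * o ^ 2 * b ^ 2 * y
    - (9101279 / 625000) * o ^ 2 * b * y ^ 2 - (193569 / 31250) * o ^ 2 * b * y * x
    + (41261527 / 2500000) * o ^ 2 * b * y - (29971187 / 5000000) * o ^ 2 * y ^ 3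
    - (11659211 / 2500000) * o ^ 2 * y ^ 2 * x + (43813043 / 5000000) * o ^ 2 * y ^ 2
    - (2305687 / 2500000) * o ^ 2 * y * x ^ 2 + (8848801 / 5000000) * o ^ 2 * y * x
    - (1768503 / 2500000) * o ^ 2 * y - (8133267 / 1250000) * o * a ^ 3 * y
    - (22223941 / 1250000) * o * a ^ 2 * b * y - (38414307 / 2500000) * o * a ^ 2 * y ^ 2
    - (193569 / 31250) * o * a ^ 2 * y * x + (2831169 / 156250) * o * a ^ 2 * y
    - (74751711 / 5000000) * o * a * b ^ 2 * y - (34099429 / 1250000) * o * a * b * y ^ 2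
    - (193569 / 15625) * o * a * b * y * x + (159661201 / 5000000) * o * a * b * y
    - (29971187 / 2500000) * o * a * y ^ 3 - (11659211 / 1250000) * o * a * y ^ 2 * x
    + (23624351 / 1250000) * o * a * y ^ 2 - (2305687 / 1250000) * o * a * y * x ^ 2
    + (8848801 / 2500000) * o * a * y * x - (6203997 / 2500000) * o * a * y
    - (9706377 / 2500000) * o * b ^ 3 * y - (27018319 / 2500000) * o * b ^ 2 * y ^ 2
    - (193569 / 31250) * o * b ^ 2 * y * x + (32958581 / 2500000) * o * b ^ 2 * y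
    - (52643917 / 5000000) * o * b * y ^ 3 - (11659211 / 1250000) * o * b * y ^ 2 * x
    + (3514033 / 200000) * o * b * y ^ 2 - (2305687 / 1250000) * o * b * y * x ^ 2
    + (8848801 / 2500000) * o * b * y * x - (218373 / 78125) * o * b * y
    - (15772641 / 5000000) * o * y ^ 4 - (8950363 / 2500000) * o * y ^ 3 * x
    + (360819 / 78125) * o * y ^ 3 - (455939 / 625000) * o * y ^ 2 * x ^ 2
    + (3762301 / 5000000) * o * y ^ 2 * x + (21555149 / 5000000) * o * y ^ 2
    + (59871 / 200000) * o * y * x ^ 3 - (242071 / 1000000) * o * y * x ^ 2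
    + (3450931 / 2500000) * o * y * x - (24260881 / 5000000) * o * y
    - (6906771 / 5000000) * a ^ 4 * y - (447487 / 78125) * a ^ 3 * b * y
    - (2397421 / 500000) * a ^ 3 * y ^ 2 - (64523 / 31250) * a ^ 3 * y * x
    + (7255619 / 1250000) * a ^ 3 * y - (507311 / 62500) * a ^ 2 * b ^ 2 * y
    - (432267 / 31250) * a ^ 2 * b * y ^ 2 - (193569 / 31250) * a ^ 2 * b * y * x
    + (82271413 / 5000000) * a ^ 2 * b * y - (29971187 / 5000000) * a ^ 2 * y ^ 3
    - (11659211 / 2500000) * a ^ 2 * y ^ 2 * x + (47454773 / 5000000) * a ^ 2 * y ^ 2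
    - (2305687 / 2500000) * a ^ 2 * y * x ^ 2 + (8848801 / 5000000) * a ^ 2 * y * x
    - (28207 / 25000) * a ^ 2 * y - (23903079 / 5000000) * a * b ^ 3 * y
    - (58526963 / 5000000) * a * b ^ 2 * y ^ 2 - (193569 / 31250) * a * b ^ 2 * y * x
    + (8998173 / 625000) * a * b ^ 2 * y - (52643917 / 5000000) * a * b * y ^ 3
    - (11659211 / 1250000) * a * b * y ^ 2 * x + (84938397 / 5000000) * a * b * y ^ 2
    - (2305687 / 1250000) * a * b * y * x ^ 2 + (8848801 / 2500000) * a * b * y * x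
    - (2381527 / 1250000) * a * b * y - (15772641 / 5000000) * a * y ^ 4
    - (8950363 / 2500000) * a * y ^ 3 * x + (360819 / 78125) * a * y ^ 3
    - (455939 / 625000) * a * y ^ 2 * x ^ 2 + (3762301 / 5000000) * a * y ^ 2 * x
    + (21636271 / 5000000) * a * y ^ 2 + (59871 / 200000) * a * y * x ^ 3
    - (242071 / 1000000) * a * y * x ^ 2 + (3450931 / 2500000) * a * y * x
    - (24342003 / 5000000) * a * y - (1262649 / 1250000) * b ^ 4 * y
    - (897637 / 312500) * b ^ 3 * y ^ 2 - (64523 / 31250) * b ^ 3 * y * x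
    + (9880093 / 2500000) * b ^ 3 * y - (18688881 / 5000000) * b ^ 2 * y ^ 3
    - (11659211 / 2500000) * b ^ 2 * y ^ 2 * x + (1212809 / 200000) * b ^ 2 * y ^ 2
    - (2305687 / 2500000) * b ^ 2 * y * x ^ 2 + (8848801 / 5000000) * b ^ 2 * y * x
    - (352579 / 2500000) * b ^ 2 * y - (6123089 / 2500000) * b * y ^ 4
    - (8950363 / 2500000) * b * y ^ 3 * x + (20524363 / 5000000) * b * y ^ 3
    - (455939 / 625000) * b * y ^ 2 * x ^ 2 + (3762301 / 5000000) * b * y ^ 2 * x
    + (462181 / 200000) * b * y ^ 2 + (59871 / 200000) * b * y * x ^ 3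
    - (242071 / 1000000) * b * y * x ^ 2 + (3450931 / 2500000) * b * y * x
    - (15218667 / 5000000) * b * y - (2868893 / 5000000) * y ^ 5 - (76656 / 78125) * y ^ 4 * x
    + (1086461 / 1250000) * y ^ 4 + (481931 / 2500000) * y ^ 3 * x ^ 2
    - (38541 / 312500) * y ^ 3 * x + (4296441 / 5000000) * y ^ 3 + (59871 / 200000) * y ^ 2 * x ^ 3
    - (9573209 / 5000000) * y ^ 2 * x ^ 2 + (180851 / 125000) * y ^ 2 * x
    + (201511 / 250000) * y ^ 2 - (59871 / 200000) * y * x ^ 3 + (8609347 / 5000000) * y * x ^ 2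
    - (8557 / 25000) * y * x - (2450903 / 1250000) * y

theorem ckeLM0 (o a b y x : ℝ) :
    2 * y * (o + a + b) * ((vkLM0 (o + a + b + y + x) (o + a + b + y) ((o + a + b) + 1) - vkLM0 (o + a + b + y + x) (o + a + b + y) (o + a + b)) +
        (vkLM0 (o + a + b + y) ((o + a + b) + 1) (o + a) - vkLM0 (o + a + b + y) (o + a + b) (o + a)) +
        (vkLM0 ((o + a + b) + 1) (o + a) o - vkLM0 (o + a + b) (o + a) o)) +
      y * (y - 1) * ((vkLM0 (o + a + b + y + x) (o + a + b + y) ((o + a + b) + 2) - vkLM0 (o + a + b + y + x) (o + a + b + y) (o + a + b)) +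
        (vkLM0 (o + a + b + y) ((o + a + b) + 2) (o + a) - vkLM0 (o + a + b + y) (o + a + b) (o + a)) +
        (vkLM0 ((o + a + b) + 2) (o + a) o - vkLM0 (o + a + b) (o + a) o)) = ckLM0 o a b y x := by
  unfold vkLM0 ckLM0
  ring

/-- coefficient of `N ^ 1` -/
noncomputable def vkLM1 (x t u : ℝ) : ℝ :=
    (1520063 / 10000000) * x ^ 3 + (703791 / 5000000) * x ^ 2 * t - (2891163 / 10000000) * x ^ 2 * u
    - (162933 / 312500) * x ^ 2 - (449381 / 1000000) * x * t ^ 2 + (7085201 / 10000000) * x * t * u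
    + (1111241 / 5000000) * x * t + (816733 / 2000000) * x * u ^ 2 + (1111631 / 1000000) * x * u

/-- its cost -/
noncomputable def ckLM1 (o a b y x : ℝ) : ℝ :=
    (10067307 / 2500000) * o ^ 3 * y + (50933637 / 5000000) * o ^ 2 * a * y
    + (42935691 / 5000000) * o ^ 2 * b * y + (7520553 / 1000000) * o ^ 2 * y ^ 2
    + (1894041 / 1000000) * o ^ 2 * y * x - (1218279 / 5000000) * o ^ 2 * y
    + (45547097 / 5000000) * o * a ^ 2 * y + (82183503 / 5000000) * o * a * b * y
    + (2629413 / 200000) * o * a * y ^ 2 + (1894041 / 500000) * o * a * y * x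
    - (2383 / 10000) * o * a * y + (8035649 / 1250000) * o * b ^ 2 * y
    + (25326089 / 2500000) * o * b * y ^ 2 + (1894041 / 500000) * o * b * y * x
    + (1588191 / 2500000) * o * b * y + (23069771 / 5000000) * o * y ^ 3
    + (269327 / 125000) * o * y ^ 2 * x + (8521647 / 2500000) * o * y ^ 2
    - (2891163 / 5000000) * o * y * x ^ 2 + (572977 / 500000) * o * y * x
    - (25276591 / 5000000) * o * y + (7374037 / 2500000) * a ^ 3 * y
    + (43331477 / 5000000) * a ^ 2 * b * y + (1288649 / 200000) * a ^ 2 * y ^ 2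
    + (1894041 / 1000000) * a ^ 2 * y * x - (2028443 / 2500000) * a ^ 2 * y
    + (18962461 / 2500000) * a * b ^ 2 * y + (7054313 / 625000) * a * b * y ^ 2
    + (1894041 / 500000) * a * b * y * x - (10831091 / 5000000) * a * b * y
    + (23069771 / 5000000) * a * y ^ 3 + (269327 / 125000) * a * y ^ 2 * x
    + (1170931 / 500000) * a * y ^ 2 - (2891163 / 5000000) * a * y * x ^ 2
    + (572977 / 500000) * a * y * x - (19942607 / 5000000) * a * y + (9341519 / 5000000) * b ^ 3 * y
    + (19724469 / 5000000) * b ^ 2 * y ^ 2 + (1894041 / 1000000) * b ^ 2 * y * x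
    - (456079 / 1000000) * b ^ 2 * y + (1598457 / 500000) * b * y ^ 3
    + (269327 / 125000) * b * y ^ 2 * x + (2751373 / 1000000) * b * y ^ 2
    - (2891163 / 5000000) * b * y * x ^ 2 + (572977 / 500000) * b * y * x
    - (14904961 / 5000000) * b * y + (280081 / 250000) * y ^ 4 + (10423 / 40000) * y ^ 3 * x
    + (3458441 / 2500000) * y ^ 3 - (2891163 / 5000000) * y ^ 2 * x ^ 2
    + (3596153 / 1000000) * y ^ 2 * x - (8432981 / 2500000) * y ^ 2
    + (2891163 / 5000000) * y * x ^ 2 - (482091 / 125000) * y * x + (217373 / 250000) * y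

theorem ckeLM1 (o a b y x : ℝ) :
    2 * y * (o + a + b) * ((vkLM1 (o + a + b + y + x) (o + a + b + y) ((o + a + b) + 1) - vkLM1 (o + a + b + y + x) (o + a + b + y) (o + a + b)) +
        (vkLM1 (o + a + b + y) ((o + a + b) + 1) (o + a) - vkLM1 (o + a + b + y) (o + a + b) (o + a)) +
        (vkLM1 ((o + a + b) + 1) (o + a) o - vkLM1 (o + a + b) (o + a) o)) +
      y * (y - 1) * ((vkLM1 (o + a + b + y + x) (o + a + b + y) ((o + a + b) + 2) - vkLM1 (o + a + b + y + x) (o + a + b + y) (o + a + b)) +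
        (vkLM1 (o + a + b + y) ((o + a + b) + 2) (o + a) - vkLM1 (o + a + b + y) (o + a + b) (o + a)) +
        (vkLM1 ((o + a + b) + 2) (o + a) o - vkLM1 (o + a + b) (o + a) o)) = ckLM1 o a b y x := by
  unfold vkLM1 ckLM1
  ring

/-- coefficient of `N ^ 2` -/
noncomputable def vkLM2 (x t u : ℝ) : ℝ :=
    (360043 / 1250000) * x ^ 2 - (2039791 / 10000000) * x * t + (675933 / 2500000) * x * u
    - (8138129 / 5000000) * x

/-- its cost -/
noncomputable def ckLM2 (o a b y x : ℝ) : ℝ :=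
    (708857 / 500000) * o ^ 2 * y + (179272 / 78125) * o * a * y + (13513199 / 5000000) * o * b * y
    + (7752511 / 5000000) * o * y ^ 2 + (675933 / 1250000) * o * y * x - (5121121 / 1250000) * o * y
    + (2192419 / 2500000) * a ^ 2 * y + (10809467 / 5000000) * a * b * y
    + (5048779 / 5000000) * a * y ^ 2 + (675933 / 1250000) * a * y * x - (1111297 / 312500) * a * y
    + (6424629 / 5000000) * b ^ 2 * y + (708857 / 500000) * b * y ^ 2
    + (675933 / 1250000) * b * y * x - (19820543 / 5000000) * b * y + (663941 / 5000000) * y ^ 3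
    + (675933 / 1250000) * y ^ 2 * x - (11179511 / 5000000) * y ^ 2 - (675933 / 1250000) * y * x
    + (1051557 / 500000) * y

theorem ckeLM2 (o a b y x : ℝ) :
    2 * y * (o + a + b) * ((vkLM2 (o + a + b + y + x) (o + a + b + y) ((o + a + b) + 1) - vkLM2 (o + a + b + y + x) (o + a + b + y) (o + a + b)) +
        (vkLM2 (o + a + b + y) ((o + a + b) + 1) (o + a) - vkLM2 (o + a + b + y) (o + a + b) (o + a)) +
        (vkLM2 ((o + a + b) + 1) (o + a) o - vkLM2 (o + a + b) (o + a) o)) +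
      y * (y - 1) * ((vkLM2 (o + a + b + y + x) (o + a + b + y) ((o + a + b) + 2) - vkLM2 (o + a + b + y + x) (o + a + b + y) (o + a + b)) +
        (vkLM2 (o + a + b + y) ((o + a + b) + 2) (o + a) - vkLM2 (o + a + b + y) (o + a + b) (o + a)) +
        (vkLM2 ((o + a + b) + 2) (o + a) o - vkLM2 (o + a + b) (o + a) o)) = ckLM2 o a b y x := by
  unfold vkLM2 ckLM2
  ring

/-- coefficient of `N ^ 3` -/
noncomputable def vkLM3 (x t u : ℝ) : ℝ :=
    -(419909 / 625000) * x

/-- its cost -/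
noncomputable def ckLM3 (o a b y x : ℝ) : ℝ :=
    -(419909 / 312500) * o * y - (419909 / 312500) * a * y - (419909 / 312500) * b * y
    - (419909 / 312500) * y ^ 2 + (419909 / 312500) * y

theorem ckeLM3 (o a b y x : ℝ) :
    2 * y * (o + a + b) * ((vkLM3 (o + a + b + y + x) (o + a + b + y) ((o + a + b) + 1) - vkLM3 (o + a + b + y + x) (o + a + b + y) (o + a + b)) +
        (vkLM3 (o + a + b + y) ((o + a + b) + 1) (o + a) - vkLM3 (o + a + b + y) (o + a + b) (o + a)) +
        (vkLM3 ((o + a + b) + 1) (o + a) o - vkLM3 (o + a + b) (o + a) o)) +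
      y * (y - 1) * ((vkLM3 (o + a + b + y + x) (o + a + b + y) ((o + a + b) + 2) - vkLM3 (o + a + b + y + x) (o + a + b + y) (o + a + b)) +
        (vkLM3 (o + a + b + y) ((o + a + b) + 2) (o + a) - vkLM3 (o + a + b + y) (o + a + b) (o + a)) +
        (vkLM3 ((o + a + b) + 2) (o + a) o - vkLM3 (o + a + b) (o + a) o)) = ckLM3 o a b y x := by
  unfold vkLM3 ckLM3
  ring

/-- the cost, expanded -/
noncomputable def cpLM (o a b y x w : ℝ) : ℝ :=
    (4088881 / 1250000) * o ^ 4 * y + (63571839 / 5000000) * o ^ 3 * a * y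
    + (64357443 / 5000000) * o ^ 3 * b * y + (61576299 / 5000000) * o ^ 3 * y ^ 2
    + (46006379 / 5000000) * o ^ 3 * y * x + (22078061 / 2500000) * o ^ 3 * y * w
    + (2365657 / 1250000) * o ^ 3 * y + (92839729 / 5000000) * o ^ 2 * a ^ 2 * y
    + (191349477 / 5000000) * o ^ 2 * a * b * y + (168000971 / 5000000) * o ^ 2 * a * y ^ 2
    + (30785367 / 1250000) * o ^ 2 * a * y * x + (117590697 / 5000000) * o ^ 2 * a * y * w
    + (12136469 / 2500000) * o ^ 2 * a * y + (95564553 / 5000000) * o ^ 2 * b ^ 2 * y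
    + (40388751 / 1250000) * o ^ 2 * b * y ^ 2 + (1862861 / 78125) * o ^ 2 * b * y * x
    + (113672333 / 5000000) * o ^ 2 * b * y * w + (6923639 / 2500000) * o ^ 2 * b * y
    + (36823809 / 2500000) * o ^ 2 * y ^ 3 + (10185409 / 500000) * o ^ 2 * y ^ 2 * x
    + (96818031 / 5000000) * o ^ 2 * y ^ 2 * w - (2354789 / 5000000) * o ^ 2 * y ^ 2
    + (2430807 / 500000) * o ^ 2 * y * x ^ 2 + (9748709 / 1000000) * o ^ 2 * y * x * w
    - (5019597 / 625000) * o ^ 2 * y * x + (8466469 / 2500000) * o ^ 2 * y * w ^ 2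
    - (10406323 / 1000000) * o ^ 2 * y * w - (18298027 / 5000000) * o ^ 2 * y
    + (61131011 / 5000000) * o * a ^ 3 * y + (18839241 / 500000) * o * a ^ 2 * b * y
    + (77807033 / 2500000) * o * a ^ 2 * y ^ 2 + (14043433 / 625000) * o * a ^ 2 * y * x
    + (106796693 / 5000000) * o * a ^ 2 * y * w + (9729333 / 2500000) * o * a ^ 2 * y
    + (9492239 / 250000) * o * a * b ^ 2 * y + (154367303 / 2500000) * o * a * b * y ^ 2
    + (223943401 / 5000000) * o * a * b * y * x + (212841859 / 5000000) * o * a * b * y * w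
    + (7477349 / 2500000) * o * a * b * y + (25942767 / 1000000) * o * a * y ^ 3
    + (183423047 / 5000000) * o * a * y ^ 2 * x + (173350929 / 5000000) * o * a * y ^ 2 * w
    + (1740139 / 2500000) * o * a * y ^ 2 + (5739051 / 625000) * o * a * y * x ^ 2
    + (46039813 / 2500000) * o * a * y * x * w - (7366103 / 500000) * o * a * y * x
    + (973817 / 156250) * o * a * y * w ^ 2 - (24352677 / 1250000) * o * a * y * w
    - (9149013 / 1250000) * o * a * y + (30779821 / 2500000) * o * b ^ 3 * y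
    + (18708173 / 625000) * o * b ^ 2 * y ^ 2 + (107102127 / 5000000) * o * b ^ 2 * y * x
    + (25387839 / 1250000) * o * b ^ 2 * y * w - (3156789 / 5000000) * o * b ^ 2 * y
    + (120963317 / 5000000) * o * b * y ^ 3 + (22062383 / 625000) * o * b * y ^ 2 * x
    + (83213473 / 2500000) * o * b * y ^ 2 * w - (415223 / 2500000) * o * b * y ^ 2
    + (47952199 / 5000000) * o * b * y * x ^ 2 + (12019901 / 625000) * o * b * y * x * w
    - (7337273 / 500000) * o * b * y * x + (6640387 / 1000000) * o * b * y * w ^ 2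
    - (12140301 / 625000) * o * b * y * w - (8281571 / 1250000) * o * b * y
    + (35104967 / 5000000) * o * y ^ 4 + (17930551 / 1250000) * o * y ^ 3 * x
    + (69435779 / 5000000) * o * y ^ 3 * w - (2817641 / 2500000) * o * y ^ 3
    + (39599417 / 5000000) * o * y ^ 2 * x ^ 2 + (38235251 / 2500000) * o * y ^ 2 * x * w
    - (2195403 / 250000) * o * y ^ 2 * x + (27441247 / 5000000) * o * y ^ 2 * w ^ 2
    - (8246679 / 625000) * o * y ^ 2 * w + (55467 / 625000) * o * y ^ 2
    + (11477 / 12500) * o * y * x ^ 3 + (12360669 / 5000000) * o * y * x ^ 2 * w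
    - (14162869 / 2500000) * o * y * x ^ 2 + (125481 / 50000) * o * y * x * w ^ 2
    - (30167699 / 2500000) * o * y * x * w - (16627229 / 5000000) * o * y * x
    + (205091 / 312500) * o * y * w ^ 3 - (7582213 / 1250000) * o * y * w ^ 2
    - (4245451 / 5000000) * o * y * w - (19913421 / 5000000) * o * y
    + (15507597 / 5000000) * a ^ 4 * y + (1242907 / 100000) * a ^ 3 * b * y
    + (1560449 / 156250) * a ^ 3 * y ^ 2 + (281699 / 40000) * a ^ 3 * y * x
    + (16681059 / 2500000) * a ^ 3 * y * w + (1951691 / 2500000) * a ^ 3 * y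
    + (5799291 / 312500) * a ^ 2 * b ^ 2 * y + (9360731 / 312500) * a ^ 2 * b * y ^ 2
    + (54401981 / 2500000) * a ^ 2 * b * y * x + (103253191 / 5000000) * a ^ 2 * b * y * w
    + (2157021 / 5000000) * a ^ 2 * b * y + (30074941 / 2500000) * a ^ 2 * y ^ 3
    + (42826311 / 2500000) * a ^ 2 * y ^ 2 * x + (80616563 / 5000000) * a ^ 2 * y ^ 2 * w
    - (739093 / 2500000) * a ^ 2 * y ^ 2 + (10802169 / 2500000) * a ^ 2 * y * x ^ 2
    + (43336081 / 5000000) * a ^ 2 * y * x * w - (37587919 / 5000000) * a ^ 2 * y * x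
    + (7114603 / 2500000) * a ^ 2 * y * w ^ 2 - (24731379 / 2500000) * a ^ 2 * y * w
    - (15068437 / 5000000) * a ^ 2 * y + (60147911 / 5000000) * a * b ^ 3 * y
    + (29725703 / 1000000) * a * b ^ 2 * y ^ 2 + (107476989 / 5000000) * a * b ^ 2 * y * x
    + (50963109 / 2500000) * a * b ^ 2 * y * w - (2098077 / 1250000) * a * b ^ 2 * y
    + (118634447 / 5000000) * a * b * y ^ 3 + (85733231 / 2500000) * a * b * y ^ 2 * x
    + (20174293 / 625000) * a * b * y ^ 2 * w - (17676867 / 5000000) * a * b * y ^ 2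
    + (45248467 / 5000000) * a * b * y * x ^ 2 + (1417996 / 78125) * a * b * y * x * w
    - (81972739 / 5000000) * a * b * y * x + (30498203 / 5000000) * a * b * y * w ^ 2
    - (105722417 / 5000000) * a * b * y * w - (2917817 / 625000) * a * b * y
    + (6480247 / 1000000) * a * y ^ 4 + (3315737 / 250000) * a * y ^ 3 * x
    + (12805663 / 1000000) * a * y ^ 3 * w - (4132767 / 2500000) * a * y ^ 3
    + (7379137 / 1000000) * a * y ^ 2 * x ^ 2 + (35531519 / 2500000) * a * y ^ 2 * x * w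
    - (2191729 / 250000) * a * y ^ 2 * x + (4947503 / 1000000) * a * y ^ 2 * w ^ 2
    - (4118747 / 312500) * a * y ^ 2 * w + (2929421 / 2500000) * a * y ^ 2
    + (11477 / 12500) * a * y * x ^ 3 + (12360669 / 5000000) * a * y * x ^ 2 * w
    - (12811003 / 2500000) * a * y * x ^ 2 + (125481 / 50000) * a * y * x * w ^ 2
    - (27463967 / 2500000) * a * y * x * w - (2258649 / 1000000) * a * y * x
    + (205091 / 312500) * a * y * w ^ 3 - (172657 / 31250) * a * y * w ^ 2
    + (1088533 / 5000000) * a * y * w - (19994543 / 5000000) * a * y + (874813 / 312500) * b ^ 4 * y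
    + (5970931 / 625000) * b ^ 3 * y ^ 2 + (16942701 / 2500000) * b ^ 3 * y * x
    + (6407029 / 1000000) * b ^ 3 * y * w - (87847 / 78125) * b ^ 3 * y
    + (14493651 / 1250000) * b ^ 2 * y ^ 3 + (8132003 / 500000) * b ^ 2 * y ^ 2 * x
    + (76283971 / 5000000) * b ^ 2 * y ^ 2 * w - (1886827 / 500000) * b ^ 2 * y ^ 2
    + (23644129 / 5000000) * b ^ 2 * y * x ^ 2 + (47415663 / 5000000) * b ^ 2 * y * x * w
    - (3989101 / 500000) * b ^ 2 * y * x + (16268997 / 5000000) * b ^ 2 * y * w ^ 2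
    - (51765849 / 5000000) * b ^ 2 * y * w - (5094549 / 5000000) * b ^ 2 * y
    + (1930143 / 312500) * b * y ^ 4 + (63309121 / 5000000) * b * y ^ 3 * x
    + (7627837 / 625000) * b * y ^ 3 * w - (10825823 / 5000000) * b * y ^ 3
    + (9733869 / 1250000) * b * y ^ 2 * x ^ 2 + (3757131 / 250000) * b * y ^ 2 * x * w
    - (45866607 / 5000000) * b * y ^ 2 * x + (13388653 / 2500000) * b * y ^ 2 * w ^ 2
    - (67931979 / 5000000) * b * y ^ 2 * w + (407371 / 2500000) * b * y ^ 2
    + (11477 / 12500) * b * y * x ^ 3 + (12360669 / 5000000) * b * y * x ^ 2 * w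
    - (27661797 / 5000000) * b * y * x ^ 2 + (125481 / 50000) * b * y * x * w ^ 2
    - (14751879 / 1250000) * b * y * x * w - (6255599 / 5000000) * b * y * x
    + (205091 / 312500) * b * y * w ^ 3 - (29664911 / 5000000) * b * y * w ^ 2
    + (6126179 / 5000000) * b * y * w - (10871207 / 5000000) * b * y + (1669531 / 1250000) * y ^ 5
    + (15874493 / 5000000) * y ^ 4 * x + (1677387 / 500000) * y ^ 4 * w
    - (3198241 / 5000000) * y ^ 4 + (15291347 / 5000000) * y ^ 3 * x ^ 2
    + (27726957 / 5000000) * y ^ 3 * x * w - (10626131 / 5000000) * y ^ 3 * x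
    + (10508309 / 5000000) * y ^ 3 * w ^ 2 - (6321627 / 1250000) * y ^ 3 * w
    - (2053951 / 5000000) * y ^ 3 + (11477 / 12500) * y ^ 2 * x ^ 3
    + (12360669 / 5000000) * y ^ 2 * x ^ 2 * w - (945789 / 312500) * y ^ 2 * x ^ 2
    + (125481 / 50000) * y ^ 2 * x * w ^ 2 - (29474457 / 5000000) * y ^ 2 * x * w
    - (3942211 / 2500000) * y ^ 2 * x + (205091 / 312500) * y ^ 2 * w ^ 3
    - (21023879 / 5000000) * y ^ 2 * w ^ 2 + (2082589 / 2500000) * y ^ 2 * w
    + (104721 / 62500) * y ^ 2 - (11477 / 12500) * y * x ^ 3 - (12360669 / 5000000) * y * x ^ 2 * w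
    - (158723 / 5000000) * y * x ^ 2 - (125481 / 50000) * y * x * w ^ 2 + (699 / 2000) * y * x * w
    + (131803 / 250000) * y * x - (205091 / 312500) * y * w ^ 3 + (1051557 / 500000) * y * w ^ 2
    + (217373 / 250000) * y * w - (2450903 / 1250000) * y

theorem phsLM (N x t u : ℝ) :
    phLM N x t u = vkLM0 x t u + N * vkLM1 x t u + N ^ 2 * vkLM2 x t u + N ^ 3 * vkLM3 x t u := by
  unfold phLM vkLM0 vkLM1 vkLM2 vkLM3
  ring

theorem csumLM (o a b y x w : ℝ) :
    (2 * y * (o + a + b) + 2 * y * (y - 1)) * (o + a + b + y + x + w) ^ 3 + (ckLM0 o a b y x + (o + a + b + y + x + w) * ckLM1 o a b y x + (o + a + b + y + x + w) ^ 2 * ckLM2 o a b y x + (o + a + b + y + x + w) ^ 3 * ckLM3 o a b y x) = cpLM o a b y x w := by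
  unfold cpLM ckLM0 ckLM1 ckLM2 ckLM3
  ring

theorem cpeLM (N o a b y x w : ℝ) (hN : N = o + a + b + y + x + w) :
    2 * y * (o + a + b) * (N ^ 3 + (phLM N (o + a + b + y + x) (o + a + b + y) ((o + a + b) + 1) - phLM N (o + a + b + y + x) (o + a + b + y) (o + a + b)) +
        (phLM N (o + a + b + y) ((o + a + b) + 1) (o + a) - phLM N (o + a + b + y) (o + a + b) (o + a)) +
        (phLM N ((o + a + b) + 1) (o + a) o - phLM N (o + a + b) (o + a) o)) +
      y * (y - 1) * (2 * N ^ 3 + (phLM N (o + a + b + y + x) (o + a + b + y) ((o + a + b) + 2) - phLM N (o + a + b + y + x) (o + a + b + y) (o + a + b)) +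
        (phLM N (o + a + b + y) ((o + a + b) + 2) (o + a) - phLM N (o + a + b + y) (o + a + b) (o + a)) +
        (phLM N ((o + a + b) + 2) (o + a) o - phLM N (o + a + b) (o + a) o)) = cpLM o a b y x w := by
  rw [← csumLM, ← hN]
  simp only [phsLM]
  have h0 := ckeLM0 o a b y x
  have h1 := ckeLM1 o a b y x
  have h2 := ckeLM2 o a b y x
  have h3 := ckeLM3 o a b y x
  linear_combination h0 + N * h1 + N ^ 2 * h2 + N ^ 3 * h3

end Pool.Agent.Lib.MP7ec162
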