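import Pool.Agent.Lib.MP_7ec162_pr.LW.KLMPh

/-!
# Expansion of the telescoping part (MP_7ec162_pr)
-/

set_option autoImplicit false
set_option maxRecDepth 100000
set_option linter.unusedVariables false

namespace Pool.Agent.Lib.MP7ec162

/-- a part of coefficient of `N ^ 0` -/
noncomputable def wkLM0_0 (x t u v : ℝ) : ℝ :=
    -(31271 / 10000000) * x ^ 5 - (9607 / 200000) * x ^ 4 * t - (831293 / 10000000) * x ^ 4 * u
      + (5738973 / 10000000) * x ^ 4 * v - (9407 / 1000000) * x ^ 4 + (263453 / 400000) * x ^ 3 * t ^ 2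
      - (14277 / 125000) * x ^ 3 * t * u - (18365551 / 10000000) * x ^ 3 * t * v
      - (13409313 / 10000000) * x ^ 3 * t + (381407 / 1250000) * x ^ 3 * u ^ 2
      - (1266687 / 5000000) * x ^ 3 * u * v + (24891201 / 10000000) * x ^ 3 * u
      + (6749 / 78125) * x ^ 3 * v ^ 2 + (30931223 / 10000000) * x ^ 3 * v
      - (1569629 / 1000000) * x ^ 2 * t ^ 3 + (141179 / 2000000) * x ^ 2 * t ^ 2 * u
      + (3735389 / 5000000) * x ^ 2 * t ^ 2 * v + (6785179 / 2000000) * x ^ 2 * t ^ 2
      + (66391 / 100000) * x ^ 2 * t * u ^ 2 + (1662641 / 1250000) * x ^ 2 * t * u * v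
      - (7424243 / 1000000) * x ^ 2 * t * u + (1098517 / 2000000) * x ^ 2 * t * v ^ 2
      - (33273827 / 10000000) * x ^ 2 * t * v + (276579 / 1250000) * x ^ 2 * t
      - (4767581 / 5000000) * x ^ 2 * u ^ 3 + (7082373 / 10000000) * x ^ 2 * u ^ 2 * v
      + (3353361 / 2500000) * x ^ 2 * u ^ 2 - (4545477 / 10000000) * x ^ 2 * u * v ^ 2
      - (54803279 / 10000000) * x ^ 2 * u * v - (1786521 / 10000000) * x ^ 2 * v ^ 3

/-- a part of coefficient of `N ^ 0` -/
noncomputable def wkLM0_1 (x t u v : ℝ) : ℝ :=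
    (2771769 / 2000000) * x ^ 2 * v ^ 2 - (877979 / 5000000) * x ^ 2 * v
      + (4721791 / 10000000) * x * t ^ 4 + (4531327 / 5000000) * x * t ^ 3 * u
      + (1978391 / 2500000) * x * t ^ 3 * v - (42087423 / 10000000) * x * t ^ 3
      - (273799 / 125000) * x * t ^ 2 * u ^ 2 - (966653 / 2000000) * x * t ^ 2 * u * v
      + (129564823 / 10000000) * x * t ^ 2 * u - (23468853 / 10000000) * x * t ^ 2 * v ^ 2
      - (455969 / 2000000) * x * t ^ 2 * v + (7810583 / 10000000) * x * t ^ 2
      + (23431431 / 10000000) * x * t * u ^ 3 - (12468637 / 5000000) * x * t * u ^ 2 * v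
      - (20028713 / 5000000) * x * t * u ^ 2 + (26220489 / 10000000) * x * t * u * v ^ 2
      + (674212 / 78125) * x * t * u * v + (585487 / 1000000) * x * t * v ^ 3
      - (23395377 / 5000000) * x * t * v ^ 2 - (2555819 / 2500000) * x * u ^ 4
      + (4905243 / 2000000) * x * u ^ 3 * v - (5272799 / 10000000) * x * u ^ 3
      - (21810993 / 10000000) * x * u ^ 2 * v ^ 2 - (3947071 / 1000000) * x * u ^ 2 * v
      - (783939 / 5000000) * x * u ^ 2 + (5549563 / 10000000) * x * u * v ^ 3
      + (14556153 / 2500000) * x * u * v ^ 2 - (7156053 / 10000000) * x * u * v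
      - (52007 / 400000) * x * v ^ 4 - (65901 / 25000) * x * v ^ 3

/-- a part of coefficient of `N ^ 0` -/
noncomputable def wkLM0_2 (x t u v : ℝ) : ℝ :=
    -(1374021 / 10000000) * t ^ 5 + (262571 / 5000000) * t ^ 4 * u - (2608859 / 2500000) * t ^ 4 * v
      + (15724987 / 5000000) * t ^ 4 + (6560851 / 10000000) * t ^ 3 * u ^ 2
      + (7947 / 40000) * t ^ 3 * u * v - (12217049 / 1250000) * t ^ 3 * u
      + (13838551 / 10000000) * t ^ 3 * v ^ 2 - (917923 / 2000000) * t ^ 3 * v
      - (23669 / 40000) * t ^ 3 - (458219 / 250000) * t ^ 2 * u ^ 3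
      + (8843393 / 5000000) * t ^ 2 * u ^ 2 * v + (42971787 / 5000000) * t ^ 2 * u ^ 2
      - (770313 / 625000) * t ^ 2 * u * v ^ 2 + (14353453 / 10000000) * t ^ 2 * u * v
      - (6535823 / 10000000) * t ^ 2 * v ^ 3 + (20282531 / 10000000) * t ^ 2 * v ^ 2
      + (10380497 / 10000000) * t * u ^ 4 - (1513843 / 1250000) * t * u ^ 3 * v
      - (9941101 / 2500000) * t * u ^ 3 - (4032553 / 10000000) * t * u ^ 2 * v ^ 2
      - (4983311 / 5000000) * t * u ^ 2 * v + (9281933 / 10000000) * t * u * v ^ 3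
      - (8959489 / 2500000) * t * u * v ^ 2 - (662769 / 5000000) * t * v ^ 4
      + (5291687 / 2500000) * t * v ^ 3 - (197 / 100) * t - (1198953 / 10000000) * u ^ 5
      + (856257 / 10000000) * u ^ 4 * v + (8394047 / 10000000) * u ^ 4

/-- a part of coefficient of `N ^ 0` -/
noncomputable def wkLM0_3 (x t u v : ℝ) : ℝ :=
    (108029 / 1250000) * u ^ 3 * v ^ 2 + (2171983 / 2500000) * u ^ 3 * v + (261313 / 2500000) * u ^ 3
      - (511377 / 5000000) * u ^ 2 * v ^ 3 + (4237809 / 10000000) * u ^ 2 * v ^ 2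
      + (8912011 / 10000000) * u ^ 2 * v + (20249 / 625000) * u * v ^ 4
      - (2593619 / 10000000) * u * v ^ 3 - (75411 / 10000000) * v ^ 5 - (3723 / 156250) * v ^ 4

/-- coefficient of `N ^ 0` -/
noncomputable def wkLM0 (x t u v : ℝ) : ℝ :=
    wkLM0_0 x t u v + wkLM0_1 x t u v + wkLM0_2 x t u v + wkLM0_3 x t u v

/-- a part of its difference -/
noncomputable def dkLM0_0 (o a b y x : ℝ) : ℝ :=
    -(19297 / 10000000) * o ^ 4 * a - (1657 / 625000) * o ^ 4 * b - (3538713 / 1250000) * o ^ 4 * y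
      - (1573 / 2500000) * o ^ 4 * x - (633353 / 10000000) * o ^ 3 * a ^ 2
      - (2429283 / 2500000) * o ^ 3 * a * b - (52727739 / 5000000) * o ^ 3 * a * y
      - (1573 / 625000) * o ^ 3 * a * x - (476881 / 10000000) * o ^ 3 * a
      + (176327 / 500000) * o ^ 3 * b ^ 2 - (73615719 / 10000000) * o ^ 3 * b * y
      - (3904253 / 5000000) * o ^ 3 * b * x + (424031 / 5000000) * o ^ 3 * b
      - (3018879 / 500000) * o ^ 3 * y ^ 2 - (30037181 / 10000000) * o ^ 3 * y * x
      + (3513181 / 500000) * o ^ 3 * y + (760783 / 10000000) * o ^ 3 * x ^ 2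
      - (3610437 / 10000000) * o ^ 3 * x - (80807 / 2000000) * o ^ 2 * a ^ 3
      - (25962617 / 10000000) * o ^ 2 * a ^ 2 * b - (4613369 / 312500) * o ^ 2 * a ^ 2 * y
      - (4719 / 1250000) * o ^ 2 * a ^ 2 * x + (1877143 / 2000000) * o ^ 2 * a ^ 2
      - (10118147 / 5000000) * o ^ 2 * a * b ^ 2 - (28700323 / 1250000) * o ^ 2 * a * b * y
      - (11712759 / 5000000) * o ^ 2 * a * b * x - (2117937 / 5000000) * o ^ 2 * a * b
      - (179823513 / 10000000) * o ^ 2 * a * y ^ 2 - (90111543 / 10000000) * o ^ 2 * a * y * x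
      + (85600397 / 5000000) * o ^ 2 * a * y

/-- a part of its difference -/
noncomputable def dkLM0_1 (o a b y x : ℝ) : ℝ :=
    (2282349 / 10000000) * o ^ 2 * a * x ^ 2 - (10831311 / 10000000) * o ^ 2 * a * x
      + (121341 / 250000) * o ^ 2 * b ^ 3 - (1956783 / 250000) * o ^ 2 * b ^ 2 * y
      - (2783521 / 1250000) * o ^ 2 * b ^ 2 * x + (4029103 / 2000000) * o ^ 2 * b ^ 2
      - (138415417 / 10000000) * o ^ 2 * b * y ^ 2 - (20339029 / 2500000) * o ^ 2 * b * y * x
      + (147430717 / 10000000) * o ^ 2 * b * y + (486561 / 5000000) * o ^ 2 * b * x ^ 2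
      + (5751751 / 2000000) * o ^ 2 * b * x + (10667969 / 10000000) * o ^ 2 * b
      - (67030193 / 10000000) * o ^ 2 * y ^ 3 - (65821111 / 10000000) * o ^ 2 * y ^ 2 * x
      + (9090351 / 2000000) * o ^ 2 * y ^ 2 - (480953 / 500000) * o ^ 2 * y * x ^ 2
      + (14827223 / 2500000) * o ^ 2 * y * x + (641 / 78125) * o ^ 2 * y
      + (2928489 / 5000000) * o ^ 2 * x ^ 3 + (25553561 / 10000000) * o ^ 2 * x ^ 2
      + (738717 / 2000000) * o * a ^ 4 - (2348619 / 1000000) * o * a ^ 3 * b
      - (89497307 / 10000000) * o * a ^ 3 * y - (1573 / 625000) * o * a ^ 3 * x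
      + (5730857 / 5000000) * o * a ^ 3 - (8635651 / 2000000) * o * a ^ 2 * b ^ 2
      - (7579653 / 312500) * o * a ^ 2 * b * y - (11712759 / 5000000) * o * a ^ 2 * b * x
      + (3738561 / 5000000) * o * a ^ 2 * b - (176693447 / 10000000) * o * a ^ 2 * y ^ 2

/-- a part of its difference -/
noncomputable def dkLM0_2 (o a b y x : ℝ) : ℝ :=
    -(90111543 / 10000000) * o * a ^ 2 * y * x + (8577019 / 500000) * o * a ^ 2 * y
      + (2282349 / 10000000) * o * a ^ 2 * x ^ 2 - (10831311 / 10000000) * o * a ^ 2 * x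
      - (19629859 / 10000000) * o * a * b ^ 3 - (47503707 / 2500000) * o * a * b ^ 2 * y
      - (2783521 / 625000) * o * a * b ^ 2 * x + (2075337 / 625000) * o * a * b ^ 2
      - (562691 / 20000) * o * a * b * y ^ 2 - (20339029 / 1250000) * o * a * b * y * x
      + (4395941 / 156250) * o * a * b * y + (486561 / 2500000) * o * a * b * x ^ 2
      + (5751751 / 1000000) * o * a * b * x + (10667969 / 10000000) * o * a * b
      - (5211027 / 400000) * o * a * y ^ 3 - (65821111 / 5000000) * o * a * y ^ 2 * x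
      + (123337763 / 10000000) * o * a * y ^ 2 - (480953 / 250000) * o * a * y * x ^ 2
      + (14827223 / 1250000) * o * a * y * x - (10503873 / 10000000) * o * a * y
      + (2928489 / 2500000) * o * a * x ^ 3 + (25553561 / 5000000) * o * a * x ^ 2
      - (332219 / 2500000) * o * b ^ 4 - (48362717 / 10000000) * o * b ^ 3 * y
      - (23766677 / 10000000) * o * b ^ 3 * x + (2157863 / 500000) * o * b ^ 3
      - (106795761 / 10000000) * o * b ^ 2 * y ^ 2 - (17102451 / 2500000) * o * b ^ 2 * y * x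
      + (159826433 / 10000000) * o * b ^ 2 * y - (134809 / 625000) * o * b ^ 2 * x ^ 2

/-- a part of its difference -/
noncomputable def dkLM0_3 (o a b y x : ℝ) : ℝ :=
    (28419169 / 10000000) * o * b ^ 2 * x + (2351 / 125000) * o * b ^ 2
      - (10183673 / 1000000) * o * b * y ^ 3 - (49085017 / 5000000) * o * b * y ^ 2 * x
      + (102878183 / 10000000) * o * b * y ^ 2 - (7361727 / 5000000) * o * b * y * x ^ 2
      + (66069497 / 5000000) * o * b * y * x - (10127713 / 10000000) * o * b * y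
      + (1585849 / 2000000) * o * b * x ^ 3 + (18672869 / 10000000) * o * b * x ^ 2
      + (10667969 / 10000000) * o * b * x - (34997489 / 10000000) * o * y ^ 4
      - (332169 / 80000) * o * y ^ 3 * x - (29631441 / 10000000) * o * y ^ 3
      - (3659351 / 2000000) * o * y ^ 2 * x ^ 2 + (1760009 / 500000) * o * y ^ 2 * x
      + (10105263 / 10000000) * o * y ^ 2 + (8827439 / 10000000) * o * y * x ^ 3
      + (46218087 / 10000000) * o * y * x ^ 2 + (10479889 / 5000000) * o * y * x
      + (170839 / 400000) * o * x ^ 4 + (42036831 / 10000000) * o * x ^ 3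
      + (228337 / 5000000) * o * x ^ 2 + (3408153 / 10000000) * a ^ 5 - (14339 / 31250) * a ^ 4 * b
      - (8857549 / 5000000) * a ^ 4 * y - (1573 / 2500000) * a ^ 4 * x + (183739 / 1000000) * a ^ 4
      - (4376579 / 2000000) * a ^ 3 * b ^ 2 - (84280203 / 10000000) * a ^ 3 * b * y

/-- a part of its difference -/
noncomputable def dkLM0_4 (o a b y x : ℝ) : ℝ :=
    -(3904253 / 5000000) * a ^ 3 * b * x + (3683703 / 5000000) * a ^ 3 * b
      - (11806807 / 2000000) * a ^ 3 * y ^ 2 - (30037181 / 10000000) * a ^ 3 * y * x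
      + (22121403 / 5000000) * a ^ 3 * y + (760783 / 10000000) * a ^ 3 * x ^ 2
      - (3610437 / 10000000) * a ^ 3 * x - (10604827 / 5000000) * a ^ 2 * b ^ 3
      - (101851441 / 10000000) * a ^ 2 * b ^ 2 * y - (2783521 / 1250000) * a ^ 2 * b ^ 2 * x
      + (5141851 / 2000000) * a ^ 2 * b ^ 2 - (37753571 / 2500000) * a ^ 2 * b * y ^ 2
      - (20339029 / 2500000) * a ^ 2 * b * y * x + (152982571 / 10000000) * a ^ 2 * b * y
      + (486561 / 5000000) * a ^ 2 * b * x ^ 2 + (5751751 / 2000000) * a ^ 2 * b * x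
      - (32054677 / 5000000) * a ^ 2 * y ^ 3 - (65821111 / 10000000) * a ^ 2 * y ^ 2 * x
      + (64027163 / 10000000) * a ^ 2 * y ^ 2 - (480953 / 500000) * a ^ 2 * y * x ^ 2
      + (14827223 / 2500000) * a ^ 2 * y * x - (10585921 / 10000000) * a ^ 2 * y
      + (2928489 / 5000000) * a ^ 2 * x ^ 3 + (25553561 / 10000000) * a ^ 2 * x ^ 2
      - (2251637 / 2500000) * a * b ^ 4 - (28824179 / 5000000) * a * b ^ 3 * y
      - (23766677 / 10000000) * a * b ^ 3 * x + (8486299 / 2500000) * a * b ^ 3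
      - (59993899 / 5000000) * a * b ^ 2 * y ^ 2 - (17102451 / 2500000) * a * b ^ 2 * y * x

/-- a part of its difference -/
noncomputable def dkLM0_5 (o a b y x : ℝ) : ℝ :=
    (183792603 / 10000000) * a * b ^ 2 * y - (134809 / 625000) * a * b ^ 2 * x ^ 2
      + (28419169 / 10000000) * a * b ^ 2 * x - (783939 / 5000000) * a * b ^ 2
      - (97246389 / 10000000) * a * b * y ^ 3 - (49085017 / 5000000) * a * b * y ^ 2 * x
      + (6495921 / 400000) * a * b * y ^ 2 - (7361727 / 5000000) * a * b * y * x ^ 2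
      + (66069497 / 5000000) * a * b * y * x - (13639629 / 10000000) * a * b * y
      + (1585849 / 2000000) * a * b * x ^ 3 + (18672869 / 10000000) * a * b * x ^ 2
      + (10667969 / 10000000) * a * b * x - (7314629 / 2500000) * a * y ^ 4
      - (332169 / 80000) * a * y ^ 3 * x + (649891 / 5000000) * a * y ^ 3
      - (3659351 / 2000000) * a * y ^ 2 * x ^ 2 + (1760009 / 500000) * a * y ^ 2 * x
      + (1669861 / 2000000) * a * y ^ 2 + (8827439 / 10000000) * a * y * x ^ 3
      + (46218087 / 10000000) * a * y * x ^ 2 + (10479889 / 5000000) * a * y * x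
      + (170839 / 400000) * a * x ^ 4 + (42036831 / 10000000) * a * x ^ 3
      + (228337 / 5000000) * a * x ^ 2 - (1403349 / 5000000) * b ^ 5
      - (14764459 / 10000000) * b ^ 4 * y - (5300449 / 5000000) * b ^ 4 * x
      + (2566819 / 5000000) * b ^ 4 - (35075237 / 10000000) * b ^ 3 * y ^ 2

/-- a part of its difference -/
noncomputable def dkLM0_6 (o a b y x : ℝ) : ℝ :=
    -(19372697 / 10000000) * b ^ 3 * y * x + (74973691 / 10000000) * b ^ 3 * y
      - (291381 / 5000000) * b ^ 3 * x ^ 2 + (22410377 / 10000000) * b ^ 3 * x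
      - (261313 / 5000000) * b ^ 3 - (4932767 / 1250000) * b ^ 2 * y ^ 3
      - (4224099 / 1000000) * b ^ 2 * y ^ 2 * x + (1807701 / 250000) * b ^ 2 * y ^ 2
      + (2979807 / 10000000) * b ^ 2 * y * x ^ 2 + (26878519 / 5000000) * b ^ 2 * y * x
      - (148583 / 1000000) * b ^ 2 * y + (2936139 / 10000000) * b ^ 2 * x ^ 3
      + (6978153 / 10000000) * b ^ 2 * x ^ 2 + (10667969 / 10000000) * b ^ 2 * x
      - (22412137 / 10000000) * b * y ^ 4 - (8058871 / 2500000) * b * y ^ 3 * x
      + (35403047 / 10000000) * b * y ^ 3 - (2552359 / 5000000) * b * y ^ 2 * x ^ 2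
      + (1123401 / 1000000) * b * y ^ 2 * x + (10105263 / 10000000) * b * y ^ 2
      + (2118549 / 5000000) * b * y * x ^ 3 - (2660351 / 2000000) * b * y * x ^ 2
      + (12235847 / 5000000) * b * y * x - (733999 / 5000000) * b * x ^ 4
      + (1388201 / 1250000) * b * x ^ 3 + (276579 / 1250000) * b * x ^ 2 - (1248509 / 2000000) * y ^ 5
      - (8989569 / 10000000) * y ^ 4 * x + (9879133 / 10000000) * y ^ 4
      + (6943 / 80000) * y ^ 3 * x ^ 2

/-- a part of its difference -/
noncomputable def dkLM0_7 (o a b y x : ℝ) : ℝ :=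
    -(3709963 / 2500000) * y ^ 3 * x + (821193 / 2000000) * y ^ 3 + (870443 / 2000000) * y ^ 2 * x ^ 3
      - (214577 / 312500) * y ^ 2 * x ^ 2 + (12235847 / 10000000) * y ^ 2 * x
      - (127341 / 2000000) * y * x ^ 4 - (13785593 / 10000000) * y * x ^ 3
      + (276579 / 1250000) * y * x ^ 2 - (197 / 100) * y - (31271 / 10000000) * x ^ 5
      - (9407 / 1000000) * x ^ 4

/-- its difference -/
noncomputable def dkLM0 (o a b y x : ℝ) : ℝ :=
    dkLM0_0 o a b y x + dkLM0_1 o a b y x + dkLM0_2 o a b y x + dkLM0_3 o a b y x + dkLM0_4 o a b y x + dkLM0_5 o a b y x + dkLM0_6 o a b y x + dkLM0_7 o a b y x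

theorem dkeLM0 (o a b y x : ℝ) :
    wkLM0 (o + a + b + y + x) (o + a + b + y) (o + a + b) (o + a) - wkLM0 (o + a + b + y) (o + a + b) (o + a) o = dkLM0 o a b y x := by
  unfold wkLM0 dkLM0
  unfold wkLM0_0 wkLM0_1 wkLM0_2 wkLM0_3 dkLM0_0 dkLM0_1 dkLM0_2 dkLM0_3 dkLM0_4 dkLM0_5 dkLM0_6 dkLM0_7
  ring

/-- a part of coefficient of `N ^ 1` -/
noncomputable def wkLM1_0 (x t u v : ℝ) : ℝ :=
    -(12741 / 2500000) * x ^ 4 + (50773 / 625000) * x ^ 3 * t - (101487 / 10000000) * x ^ 3 * u
      - (8706989 / 10000000) * x ^ 3 * v + (19669 / 2000000) * x ^ 3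
      - (8825251 / 10000000) * x ^ 2 * t ^ 2 + (1664947 / 5000000) * x ^ 2 * t * u
      + (33984167 / 10000000) * x ^ 2 * t * v + (2301059 / 2500000) * x ^ 2 * t
      - (3489747 / 10000000) * x ^ 2 * u ^ 2 + (449647 / 5000000) * x ^ 2 * u * v
      - (1125241 / 500000) * x ^ 2 * u - (6614521 / 10000000) * x ^ 2 * v ^ 2
      - (1840219 / 5000000) * x ^ 2 * v - (228337 / 5000000) * x ^ 2 + (9051729 / 5000000) * x * t ^ 3
      + (178307 / 2500000) * x * t ^ 2 * u - (32368993 / 10000000) * x * t ^ 2 * v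
      + (19676517 / 10000000) * x * t ^ 2 - (13526433 / 10000000) * x * t * u ^ 2
      + (1603287 / 10000000) * x * t * u * v - (4459259 / 2500000) * x * t * u
      + (951753 / 625000) * x * t * v ^ 2 - (21500599 / 5000000) * x * t * v
      - (9413483 / 2500000) * x * t + (14357609 / 10000000) * x * u ^ 3
      - (7377589 / 5000000) * x * u ^ 2 * v + (5118593 / 10000000) * x * u ^ 2
      - (2723161 / 10000000) * x * u * v ^ 2 + (58845849 / 10000000) * x * u * v

/-- a part of coefficient of `N ^ 1` -/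
noncomputable def wkLM1_1 (x t u v : ℝ) : ℝ :=
    (1743707 / 625000) * x * u - (996587 / 10000000) * x * v ^ 3 + (13101121 / 10000000) * x * v ^ 2
      + (166687 / 156250) * x * v + (229247 / 2000000) * t ^ 4 - (9546279 / 5000000) * t ^ 3 * u
      + (10072491 / 5000000) * t ^ 3 * v - (3348577 / 2500000) * t ^ 3
      + (14723469 / 5000000) * t ^ 2 * u ^ 2 - (16155751 / 10000000) * t ^ 2 * u * v
      + (35425477 / 10000000) * t ^ 2 * u - (4397911 / 10000000) * t ^ 2 * v ^ 2
      + (5526161 / 1250000) * t ^ 2 * v + (784401 / 2000000) * t ^ 2 - (6661359 / 5000000) * t * u ^ 3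
      + (2054979 / 1250000) * t * u ^ 2 * v - (8590859 / 2000000) * t * u ^ 2
      - (2119231 / 5000000) * t * u * v ^ 2 - (6485271 / 1000000) * t * u * v
      - (1743707 / 625000) * t * u + (1108083 / 10000000) * t * v ^ 3 - (862313 / 2000000) * t * v ^ 2
      - 4 * t + (6820411 / 10000000) * u ^ 4 - (4903159 / 2000000) * u ^ 3 * v
      + (3050187 / 1250000) * u ^ 3 + (2118241 / 625000) * u ^ 2 * v ^ 2
      + (17357619 / 10000000) * u ^ 2 * v - (17022891 / 10000000) * u * v ^ 3
      - (5740853 / 2500000) * u * v ^ 2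

/-- a part of coefficient of `N ^ 1` -/
noncomputable def wkLM1_2 (x t u v : ℝ) : ℝ :=
    -(166687 / 156250) * u * v + (297939 / 1000000) * v ^ 4 + (3618807 / 5000000) * v ^ 3

/-- coefficient of `N ^ 1` -/
noncomputable def wkLM1 (x t u v : ℝ) : ℝ :=
    wkLM1_0 x t u v + wkLM1_1 x t u v + wkLM1_2 x t u v

/-- a part of its difference -/
noncomputable def dkLM1_0 (o a b y x : ℝ) : ℝ :=
    (43929 / 10000000) * o ^ 3 * a + (64861 / 10000000) * o ^ 3 * b + (10073793 / 2500000) * o ^ 3 * y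
      + (1077 / 1000000) * o ^ 3 * x + (1843783 / 10000000) * o ^ 2 * a ^ 2
      + (2125763 / 1250000) * o ^ 2 * a * b + (28643129 / 2500000) * o ^ 2 * a * y
      + (3231 / 1000000) * o ^ 2 * a * x + (112177 / 500000) * o ^ 2 * a
      - (5036697 / 10000000) * o ^ 2 * b ^ 2 + (78058881 / 10000000) * o ^ 2 * b * y
      + (634531 / 1000000) * o ^ 2 * b * x - (163833 / 1000000) * o ^ 2 * b
      + (17206321 / 2500000) * o ^ 2 * y ^ 2 + (406991 / 156250) * o ^ 2 * y * x
      - (166029 / 312500) * o ^ 2 * y - (156571 / 312500) * o ^ 2 * x ^ 2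
      + (2236837 / 10000000) * o ^ 2 * x - (179757 / 1250000) * o * a ^ 3
      + (4001691 / 1250000) * o * a ^ 2 * b + (13996679 / 1250000) * o * a ^ 2 * y
      + (3231 / 1000000) * o * a ^ 2 * x - (1525953 / 5000000) * o * a ^ 2
      + (23864169 / 10000000) * o * a * b ^ 2 + (182474397 / 10000000) * o * a * b * y
      + (634531 / 500000) * o * a * b * x + (670179 / 2000000) * o * a * b
      + (6659201 / 500000) * o * a * y ^ 2 + (406991 / 78125) * o * a * y * x
      + (24060161 / 10000000) * o * a * y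

/-- a part of its difference -/
noncomputable def dkLM1_1 (o a b y x : ℝ) : ℝ :=
    -(156571 / 156250) * o * a * x ^ 2 + (2236837 / 5000000) * o * a * x - (19821 / 250000) * o * b ^ 3
      + (3224667 / 500000) * o * b ^ 2 * y + (4472197 / 5000000) * o * b ^ 2 * x
      - (19392309 / 5000000) * o * b ^ 2 + (9619169 / 1000000) * o * b * y ^ 2
      + (25738213 / 10000000) * o * b * y * x + (4733793 / 2000000) * o * b * y
      - (1388499 / 2500000) * o * b * x ^ 2 - (30212343 / 10000000) * o * b * x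
      - (166687 / 156250) * o * b + (6355699 / 1250000) * o * y ^ 3
      + (24605541 / 10000000) * o * y ^ 2 * x + (5605163 / 1000000) * o * y ^ 2
      - (2499229 / 10000000) * o * y * x ^ 2 - (18224351 / 5000000) * o * y * x
      - (28854617 / 5000000) * o * y - (2049991 / 2500000) * o * x ^ 3
      - (16685987 / 10000000) * o * x ^ 2 - (62173 / 100000) * a ^ 4
      + (15183781 / 10000000) * a ^ 3 * b + (36699501 / 10000000) * a ^ 3 * y
      + (1077 / 1000000) * a ^ 3 * x + (242771 / 1250000) * a ^ 3 + (98741 / 40000) * a ^ 2 * b ^ 2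
      + (10241651 / 1000000) * a ^ 2 * b * y + (634531 / 1000000) * a ^ 2 * b * x
      - (3800331 / 10000000) * a ^ 2 * b + (70973257 / 10000000) * a ^ 2 * y ^ 2

/-- a part of its difference -/
noncomputable def dkLM1_2 (o a b y x : ℝ) : ℝ :=
    (406991 / 156250) * a ^ 2 * y * x + (508499 / 312500) * a ^ 2 * y
      - (156571 / 312500) * a ^ 2 * x ^ 2 + (2236837 / 10000000) * a ^ 2 * x
      + (12260327 / 10000000) * a * b ^ 3 + (36985857 / 5000000) * a * b ^ 2 * y
      + (4472197 / 5000000) * a * b ^ 2 * x - (20628483 / 5000000) * a * b ^ 2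
      + (10405489 / 1000000) * a * b * y ^ 2 + (25738213 / 10000000) * a * b * y * x
      - (26693109 / 10000000) * a * b * y - (1388499 / 2500000) * a * b * x ^ 2
      - (30212343 / 10000000) * a * b * x + (42138603 / 10000000) * a * y ^ 3
      + (24605541 / 10000000) * a * y ^ 2 * x + (6546399 / 1250000) * a * y ^ 2
      - (2499229 / 10000000) * a * y * x ^ 2 - (18224351 / 5000000) * a * y * x
      - (23520633 / 5000000) * a * y - (2049991 / 2500000) * a * x ^ 3
      - (16685987 / 10000000) * a * x ^ 2 + (5135137 / 10000000) * b ^ 4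
      + (11250409 / 5000000) * b ^ 3 * y + (3606441 / 10000000) * b ^ 3 * x
      - (3670117 / 2000000) * b ^ 3 + (10196749 / 2500000) * b ^ 2 * y ^ 2
      + (337959 / 2000000) * b ^ 2 * y * x - (19647057 / 5000000) * b ^ 2 * y
      - (1431649 / 2000000) * b ^ 2 * x ^ 2 - (19348059 / 10000000) * b ^ 2 * x

/-- a part of its difference -/
noncomputable def dkLM1_3 (o a b y x : ℝ) : ℝ :=
    (28983949 / 10000000) * b * y ^ 3 + (15127167 / 10000000) * b * y ^ 2 * x
      + (202117 / 62500) * b * y ^ 2 - (10362429 / 10000000) * b * y * x ^ 2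
      + (3478343 / 2500000) * b * y * x - (14904961 / 5000000) * b * y + (20281 / 400000) * b * x ^ 3
      - (13005549 / 10000000) * b * x ^ 2 - (166687 / 156250) * b * x + (1123681 / 1000000) * y ^ 4
      + (671551 / 2500000) * y ^ 3 * x + (3097289 / 2000000) * y ^ 3
      - (6693931 / 10000000) * y ^ 2 * x ^ 2 + (4797503 / 1250000) * y ^ 2 * x
      - (33731927 / 10000000) * y ^ 2 + (4754 / 78125) * y * x ^ 3 + (9499271 / 10000000) * y * x ^ 2
      - (482091 / 125000) * y * x - 4 * y - (12741 / 2500000) * x ^ 4 + (19669 / 2000000) * x ^ 3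
      - (228337 / 5000000) * x ^ 2

/-- its difference -/
noncomputable def dkLM1 (o a b y x : ℝ) : ℝ :=
    dkLM1_0 o a b y x + dkLM1_1 o a b y x + dkLM1_2 o a b y x + dkLM1_3 o a b y x

theorem dkeLM1 (o a b y x : ℝ) :
    wkLM1 (o + a + b + y + x) (o + a + b + y) (o + a + b) (o + a) - wkLM1 (o + a + b + y) (o + a + b) (o + a) o = dkLM1 o a b y x := by
  unfold wkLM1 dkLM1
  unfold wkLM1_0 wkLM1_1 wkLM1_2 dkLM1_0 dkLM1_1 dkLM1_2 dkLM1_3
  ring

/-- coefficient of `N ^ 2` -/
noncomputable def wkLM2 (x t u v : ℝ) : ℝ :=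
    (4937 / 5000000) * x ^ 3 - (90399 / 10000000) * x ^ 2 * t - (4223 / 156250) * x ^ 2 * u
    - (875859 / 5000000) * x ^ 2 * v + (8613 / 5000000) * x ^ 2 + (35541 / 62500) * x * t ^ 2
    - (736643 / 10000000) * x * t * u + (27687 / 625000) * x * t * v - (719213 / 1250000) * x * t
    + (1824137 / 10000000) * x * u ^ 2 - (367923 / 625000) * x * u * v
    + (8085703 / 10000000) * x * u + (2859461 / 10000000) * x * v ^ 2 - (560839 / 5000000) * x * v
    - (1 / 500000) * x - (517307 / 1250000) * t ^ 3 + (2523699 / 2000000) * t ^ 2 * u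
    - (236907 / 625000) * t ^ 2 * v - (8877259 / 5000000) * t ^ 2 - (7787893 / 10000000) * t * u ^ 2
    + (8750597 / 10000000) * t * u * v - (5317527 / 10000000) * t * u - (6069 / 20000) * t * v ^ 2
    + (283499 / 400000) * t * v + (10515561 / 5000000) * t - (6664061 / 10000000) * u ^ 3
    + (1458773 / 1000000) * u ^ 2 * v + (1889767 / 2500000) * u ^ 2
    - (11783281 / 10000000) * u * v ^ 2 - (3369523 / 2000000) * u * v - (1 / 500000) * u
    + (3844551 / 10000000) * v ^ 3 + (506067 / 1250000) * v ^ 2 - (1 / 500000) * v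

/-- its difference -/
noncomputable def dkLM2 (o a b y x : ℝ) : ℝ :=
    -(15333 / 5000000) * o ^ 2 * a - (52107 / 10000000) * o ^ 2 * b + (884867 / 625000) * o ^ 2 * y
    - (5417 / 10000000) * o ^ 2 * x + (72667 / 2000000) * o * a ^ 2
    - (7788939 / 10000000) * o * a * b + (12543727 / 5000000) * o * a * y
    - (5417 / 5000000) * o * a * x - (1392373 / 5000000) * o * a + (697817 / 2500000) * o * b ^ 2
    + (14628249 / 5000000) * o * b * y + (201091 / 625000) * o * b * x
    + (1038697 / 10000000) * o * b + (6498923 / 5000000) * o * y ^ 2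
    + (6733137 / 10000000) * o * y * x - (4936599 / 1250000) * o * y
    - (2082767 / 10000000) * o * x ^ 2 + (1244773 / 10000000) * o * x + (529819 / 1250000) * a ^ 3
    - (7561793 / 10000000) * a ^ 2 * b + (8070121 / 10000000) * a ^ 2 * y
    - (5417 / 10000000) * a ^ 2 * x - (3416641 / 5000000) * a ^ 2 - (230797 / 1000000) * a * b ^ 2
    + (13098027 / 5000000) * a * b * y + (201091 / 625000) * a * b * x + (3502247 / 5000000) * a * b
    + (702883 / 625000) * a * y ^ 2 + (6733137 / 10000000) * a * y * x - (4061447 / 1000000) * a * y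
    - (2082767 / 10000000) * a * x ^ 2 + (1244773 / 10000000) * a * x - (1 / 500000) * a
    - (1016237 / 10000000) * b ^ 3 + (16126757 / 10000000) * b ^ 2 * y
    + (3041167 / 5000000) * b ^ 2 * x + (2581811 / 2500000) * b ^ 2
    + (8037547 / 5000000) * b * y ^ 2 + (9793581 / 10000000) * b * y * x
    - (9623641 / 2500000) * b * y - (331049 / 10000000) * b * x ^ 2 + (2366451 / 10000000) * b * x
    - (1 / 500000) * b + (291541 / 2000000) * y ^ 3 + (691923 / 1250000) * y ^ 2 * x
    - (11754111 / 5000000) * y ^ 2 - (60777 / 10000000) * y * x ^ 2 - (1429813 / 2500000) * y * x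
    + (10515561 / 5000000) * y + (4937 / 5000000) * x ^ 3 + (8613 / 5000000) * x ^ 2
    - (1 / 500000) * x

theorem dkeLM2 (o a b y x : ℝ) :
    wkLM2 (o + a + b + y + x) (o + a + b + y) (o + a + b) (o + a) - wkLM2 (o + a + b + y) (o + a + b) (o + a) o = dkLM2 o a b y x := by
  unfold wkLM2 dkLM2
  ring

/-- coefficient of `N ^ 3` -/
noncomputable def wkLM3 (x t u v : ℝ) : ℝ :=
    -(367 / 5000000) * x ^ 2 + (12297 / 10000000) * x * t - (301 / 312500) * x * u
    - (131 / 1250000) * x * v - (2953 / 5000000) * x + (3245611 / 5000000) * t ^ 2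
    - (1418273 / 2000000) * t * u + (664817 / 10000000) * t * v - (6577671 / 10000000) * t
    + (1122403 / 2000000) * u ^ 2 - (1026929 / 2500000) * u * v - (253507 / 10000000) * u
    + (1725263 / 10000000) * v ^ 2 + (40509 / 400000) * v

/-- its difference -/
noncomputable def dkLM3 (o a b y x : ℝ) : ℝ :=
    (6579 / 10000000) * o * a + (15317 / 10000000) * o * b + (6568193 / 10000000) * o * y
    + (149 / 10000000) * o * x - (429671 / 2500000) * a ^ 2 + (339543 / 5000000) * a * b
    + (1313429 / 2000000) * a * y + (149 / 10000000) * a * x + (40509 / 400000) * a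
    - (744491 / 5000000) * b ^ 2 + (368359 / 625000) * b * y + (1197 / 10000000) * b * x
    - (253507 / 10000000) * b + (6503519 / 10000000) * y ^ 2 + (10829 / 10000000) * y * x
    - (6577671 / 10000000) * y - (367 / 5000000) * x ^ 2 - (2953 / 5000000) * x

theorem dkeLM3 (o a b y x : ℝ) :
    wkLM3 (o + a + b + y + x) (o + a + b + y) (o + a + b) (o + a) - wkLM3 (o + a + b + y) (o + a + b) (o + a) o = dkLM3 o a b y x := by
  unfold wkLM3 dkLM3
  ring

/-- coefficient of `N ^ 4` -/
noncomputable def wkLM4 (x t u v : ℝ) : ℝ :=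
    -(57 / 10000000) * x - (351 / 5000000) * t - (439 / 2500000) * u - (601 / 10000000) * v

/-- its difference -/
noncomputable def dkLM4 (o a b y x : ℝ) : ℝ :=
    -(601 / 10000000) * a - (439 / 2500000) * b - (351 / 5000000) * y - (57 / 10000000) * x

theorem dkeLM4 (o a b y x : ℝ) :
    wkLM4 (o + a + b + y + x) (o + a + b + y) (o + a + b) (o + a) - wkLM4 (o + a + b + y) (o + a + b) (o + a) o = dkLM4 o a b y x := by
  unfold wkLM4 dkLM4
  ring

/-- a part of the telescoping part, expanded -/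
noncomputable def wqLM_0 (o a b y x w : ℝ) : ℝ :=
    -(7 / 1250000) * o ^ 4 * a - (197 / 10000000) * o ^ 4 * b + (32710831 / 10000000) * o ^ 4 * y
      - (847 / 10000000) * o ^ 4 * x - (144989 / 10000000) * o ^ 3 * a ^ 2
      + (178623 / 10000000) * o ^ 3 * a * b + (64542127 / 5000000) * o ^ 3 * a * y
      - (1729 / 5000000) * o ^ 3 * a * x - (7 / 1000000) * o ^ 3 * a * w - (2681 / 5000000) * o ^ 3 * a
      - (208297 / 10000000) * o ^ 3 * b ^ 2 + (25581133 / 2000000) * o ^ 3 * b * y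
      + (877593 / 5000000) * o ^ 3 * b * x - (213 / 5000000) * o ^ 3 * b * w
      - (2539 / 5000000) * o ^ 3 * b + (29065439 / 2500000) * o ^ 3 * y ^ 2
      + (91067051 / 10000000) * o ^ 3 * y * x + (88312687 / 10000000) * o ^ 3 * y * w
      + (18880229 / 10000000) * o ^ 3 * y - (1266567 / 2000000) * o ^ 3 * x ^ 2
      + (31 / 2000000) * o ^ 3 * x * w - (134733 / 10000000) * o ^ 3 * x
      - (203673 / 10000000) * o ^ 2 * a ^ 3 - (676759 / 10000000) * o ^ 2 * a ^ 2 * b
      + (94054087 / 5000000) * o ^ 2 * a ^ 2 * y - (2619751 / 10000000) * o ^ 2 * a ^ 2 * x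
      - (2614669 / 10000000) * o ^ 2 * a ^ 2 * w - (3149 / 40000) * o ^ 2 * a ^ 2
      + (816363 / 10000000) * o ^ 2 * a * b ^ 2 + (388889343 / 10000000) * o ^ 2 * a * b * y

/-- a part of the telescoping part, expanded -/
noncomputable def wqLM_1 (o a b y x w : ℝ) : ℝ :=
    (4334933 / 5000000) * o ^ 2 * a * b * x + (340303 / 1000000) * o ^ 2 * a * b * w
      + (5510281 / 10000000) * o ^ 2 * a * b + (33108897 / 1000000) * o ^ 2 * a * y ^ 2
      + (260399359 / 10000000) * o ^ 2 * a * y * x + (252136267 / 10000000) * o ^ 2 * a * y * w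
      + (50327183 / 10000000) * o ^ 2 * a * y - (237663 / 125000) * o ^ 2 * a * x ^ 2
      - (5721 / 2000000) * o ^ 2 * a * x * w - (86497 / 1250000) * o ^ 2 * a * x
      - (2907 / 2000000) * o ^ 2 * a * w ^ 2 - (287777 / 10000000) * o ^ 2 * a * w
      - (1 / 500000) * o ^ 2 * a - (223309 / 2500000) * o ^ 2 * b ^ 3
      + (93252817 / 5000000) * o ^ 2 * b ^ 2 * y + (158257 / 1000000) * o ^ 2 * b ^ 2 * x
      - (3954491 / 10000000) * o ^ 2 * b ^ 2 * w - (2158329 / 2500000) * o ^ 2 * b ^ 2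
      + (62027159 / 2000000) * o ^ 2 * b * y ^ 2 + (45686251 / 2000000) * o ^ 2 * b * y * x
      + (221936203 / 10000000) * o ^ 2 * b * y * w + (3531517 / 1250000) * o ^ 2 * b * y
      - (666717 / 5000000) * o ^ 2 * b * x ^ 2 + (2547961 / 2000000) * o ^ 2 * b * x * w
      + (5300071 / 10000000) * o ^ 2 * b * x - (4173 / 2500000) * o ^ 2 * b * w ^ 2
      - (321457 / 10000000) * o ^ 2 * b * w - (19 / 10000000) * o ^ 2 * b
      + (33365719 / 2500000) * o ^ 2 * y ^ 3 + (92954349 / 5000000) * o ^ 2 * y ^ 2 * x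

/-- a part of the telescoping part, expanded -/
noncomputable def wqLM_2 (o a b y x w : ℝ) : ℝ :=
    (182048011 / 10000000) * o ^ 2 * y ^ 2 * w - (13018181 / 5000000) * o ^ 2 * y ^ 2
      + (26018363 / 5000000) * o ^ 2 * y * x ^ 2 + (107252039 / 10000000) * o ^ 2 * y * x * w
      - (41090961 / 5000000) * o ^ 2 * y * x + (33858239 / 10000000) * o ^ 2 * y * w ^ 2
      - (4161261 / 400000) * o ^ 2 * y * w - (1143627 / 312500) * o ^ 2 * y
      - (719777 / 625000) * o ^ 2 * x ^ 3 - (1148579 / 1250000) * o ^ 2 * x ^ 2 * w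
      + (2718693 / 2000000) * o ^ 2 * x ^ 2 - (83 / 156250) * o ^ 2 * x * w ^ 2
      + (941733 / 2000000) * o ^ 2 * x * w - (1 / 500000) * o ^ 2 * x - (273209 / 10000000) * o * a ^ 4
      + (77571 / 2500000) * o * a ^ 3 * b + (124136281 / 10000000) * o * a ^ 3 * y
      - (2537249 / 10000000) * o * a ^ 3 * x - (2533861 / 10000000) * o * a ^ 3 * w
      - (3061159 / 10000000) * o * a ^ 3 - (289187 / 10000000) * o * a ^ 2 * b ^ 2
      + (374910531 / 10000000) * o * a ^ 2 * b * y + (1117911 / 10000000) * o * a ^ 2 * b * x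
      - (165957 / 400000) * o * a ^ 2 * b * w + (2551619 / 5000000) * o * a ^ 2 * b
      + (9845997 / 312500) * o * a ^ 2 * y ^ 2 + (47218063 / 2000000) * o * a ^ 2 * y * x
      + (227827223 / 10000000) * o * a ^ 2 * y * w + (6900769 / 1250000) * o * a ^ 2 * y
      - (23778697 / 10000000) * o * a ^ 2 * x ^ 2

/-- a part of the telescoping part, expanded -/
noncomputable def wqLM_3 (o a b y x w : ℝ) : ℝ :=
    -(9559919 / 10000000) * o * a ^ 2 * x * w - (16615811 / 10000000) * o * a ^ 2 * x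
      - (149381 / 312500) * o * a ^ 2 * w ^ 2 - (4052903 / 2500000) * o * a ^ 2 * w
      - (1 / 250000) * o * a ^ 2 - (103 / 50000) * o * a * b ^ 3
      + (378386543 / 10000000) * o * a * b ^ 2 * y + (3882479 / 2500000) * o * a * b ^ 2 * x
      + (2227897 / 5000000) * o * a * b ^ 2 * w - (200301 / 250000) * o * a * b ^ 2
      + (311871063 / 5000000) * o * a * b * y ^ 2 + (459273603 / 10000000) * o * a * b * y * x
      + (446283499 / 10000000) * o * a * b * y * w + (5516207 / 1250000) * o * a * b * y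
      - (8347761 / 10000000) * o * a * b * x ^ 2 + (220591 / 156250) * o * a * b * x * w
      + (29666149 / 10000000) * o * a * b * x - (5714277 / 10000000) * o * a * b * w ^ 2
      + (18423093 / 10000000) * o * a * b * w - (79 / 10000000) * o * a * b
      + (250806231 / 10000000) * o * a * y ^ 3 + (357397069 / 10000000) * o * a * y ^ 2 * x
      + (69935139 / 2000000) * o * a * y ^ 2 * w + (9377181 / 10000000) * o * a * y ^ 2
      + (100854543 / 10000000) * o * a * y * x ^ 2 + (10403313 / 500000) * o * a * y * x * w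
      - (5256573 / 400000) * o * a * y * x + (64497569 / 10000000) * o * a * y * w ^ 2
      - (175113531 / 10000000) * o * a * y * w - (73192169 / 10000000) * o * a * y

/-- a part of the telescoping part, expanded -/
noncomputable def wqLM_4 (o a b y x w : ℝ) : ℝ :=
    -(23028689 / 10000000) * o * a * x ^ 3 - (18364739 / 10000000) * o * a * x ^ 2 * w
      + (27440359 / 10000000) * o * a * x ^ 2 + (1901 / 10000000) * o * a * x * w ^ 2
      + (2481047 / 2500000) * o * a * x * w - (1 / 125000) * o * a * x + (167 / 400000) * o * a * w ^ 3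
      + (253429 / 10000000) * o * a * w ^ 2 - (1 / 250000) * o * a * w - (343219 / 5000000) * o * b ^ 4
      + (118236279 / 10000000) * o * b ^ 3 * y - (1981997 / 10000000) * o * b ^ 3 * x
      - (6151791 / 10000000) * o * b ^ 3 * w + (6954721 / 10000000) * o * b ^ 3
      + (151754593 / 5000000) * o * b ^ 2 * y ^ 2 + (10996939 / 500000) * o * b ^ 2 * y * x
      + (207016871 / 10000000) * o * b ^ 2 * y * w - (9587427 / 10000000) * o * b ^ 2 * y
      + (2070967 / 2500000) * o * b ^ 2 * x ^ 2 + (24249321 / 10000000) * o * b ^ 2 * x * w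
      - (16377527 / 5000000) * o * b ^ 2 * x - (1650799 / 10000000) * o * b ^ 2 * w ^ 2
      - (8786889 / 5000000) * o * b ^ 2 * w - (1309991 / 1250000) * o * b ^ 2
      + (240909083 / 10000000) * o * b * y ^ 3 + (10667569 / 312500) * o * b * y ^ 2 * x
      + (326651333 / 10000000) * o * b * y ^ 2 * w - (6810377 / 2500000) * o * b * y ^ 2
      + (93864309 / 10000000) * o * b * y * x ^ 2 + (198615771 / 10000000) * o * b * y * x * w

/-- a part of the telescoping part, expanded -/
noncomputable def wqLM_5 (o a b y x w : ℝ) : ℝ :=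
    -(12009449 / 1250000) * o * b * y * x + (16664691 / 2500000) * o * b * y * w ^ 2
      - (171215421 / 10000000) * o * b * y * w - (66252633 / 10000000) * o * b * y
      - (55207 / 80000) * o * b * x ^ 3 - (3919533 / 10000000) * o * b * x ^ 2 * w
      - (3373137 / 1000000) * o * b * x ^ 2 + (3245689 / 10000000) * o * b * x * w ^ 2
      - (22468979 / 10000000) * o * b * x * w - (10668047 / 10000000) * o * b * x
      + (8293 / 10000000) * o * b * w ^ 3 + (8693 / 312500) * o * b * w ^ 2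
      - (1333501 / 1250000) * o * b * w + (69074111 / 10000000) * o * y ^ 4
      + (1110007 / 78125) * o * y ^ 3 * x + (138473963 / 10000000) * o * y ^ 3 * w
      - (12867123 / 2000000) * o * y ^ 3 + (896443 / 125000) * o * y ^ 2 * x ^ 2
      + (38404109 / 2500000) * o * y ^ 2 * x * w - (82496371 / 10000000) * o * y ^ 2 * x
      + (26102279 / 5000000) * o * y ^ 2 * w ^ 2 - (13677053 / 1250000) * o * y ^ 2 * w
      - (19636827 / 5000000) * o * y ^ 2 + (3897893 / 5000000) * o * y * x ^ 3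
      + (1652263 / 625000) * o * y * x ^ 2 * w - (32796539 / 5000000) * o * y * x ^ 2
      + (13230771 / 5000000) * o * y * x * w ^ 2 - (81942353 / 5000000) * o * y * x * w
      - (8313633 / 2500000) * o * y * x + (1313077 / 2000000) * o * y * w ^ 3

/-- a part of the telescoping part, expanded -/
noncomputable def wqLM_6 (o a b y x w : ℝ) : ℝ :=
    -(11845161 / 2000000) * o * y * w ^ 2 - (1564699 / 1000000) * o * y * w - 4 * o * y
      - (6045253 / 10000000) * o * x ^ 4 - (12350391 / 10000000) * o * x ^ 3 * w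
      + (3338837 / 1250000) * o * x ^ 3 - (1042603 / 5000000) * o * x ^ 2 * w ^ 2
      - (567897 / 400000) * o * x ^ 2 * w - (1 / 250000) * o * x ^ 2 - (79 / 10000000) * o * x * w ^ 3
      + (245411 / 2000000) * o * x * w ^ 2 - (1 / 250000) * o * x * w - (7247 / 250000) * a ^ 5
      + (406093 / 5000000) * a ^ 4 * b + (6144463 / 2000000) * a ^ 4 * y
      - (2899499 / 10000000) * a ^ 4 * x - (724663 / 2500000) * a ^ 4 * w
      - (2040999 / 10000000) * a ^ 4 + (87363 / 5000000) * a ^ 3 * b ^ 2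
      + (30753173 / 2500000) * a ^ 3 * b * y + (2003829 / 10000000) * a ^ 3 * b * x
      + (248217 / 10000000) * a ^ 3 * b * w + (1631841 / 10000000) * a ^ 3 * b
      + (101306133 / 10000000) * a ^ 3 * y ^ 2 + (36725261 / 5000000) * a ^ 3 * y * x
      + (35348079 / 5000000) * a ^ 3 * y * w + (1159103 / 2500000) * a ^ 3 * y
      - (7253941 / 10000000) * a ^ 3 * x ^ 2 - (1842057 / 10000000) * a ^ 3 * x * w
      - (4410477 / 5000000) * a ^ 3 * x

/-- a part of the telescoping part, expanded -/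
noncomputable def wqLM_7 (o a b y x w : ℝ) : ℝ :=
    -(460553 / 5000000) * a ^ 3 * w ^ 2 - (8686221 / 10000000) * a ^ 3 * w - (1 / 500000) * a ^ 3
      - (1619359 / 10000000) * a ^ 2 * b ^ 3 + (93936591 / 5000000) * a ^ 2 * b ^ 2 * y
      + (4906019 / 10000000) * a ^ 2 * b ^ 2 * x - (315521 / 5000000) * a ^ 2 * b ^ 2 * w
      + (216281 / 5000000) * a ^ 2 * b ^ 2 + (299417973 / 10000000) * a ^ 2 * b * y ^ 2
      + (5328073 / 250000) * a ^ 2 * b * y * x + (51656967 / 2500000) * a ^ 2 * b * y * w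
      + (992567 / 2000000) * a ^ 2 * b * y - (12015077 / 10000000) * a ^ 2 * b * x ^ 2
      - (8623481 / 10000000) * a ^ 2 * b * x * w + (149589 / 200000) * a ^ 2 * b * x
      - (2139667 / 2000000) * a ^ 2 * b * w ^ 2 + (928961 / 5000000) * a ^ 2 * b * w
      - (3 / 500000) * a ^ 2 * b + (740683 / 62500) * a ^ 2 * y ^ 3
      + (167208181 / 10000000) * a ^ 2 * y ^ 2 * x + (81673747 / 5000000) * a ^ 2 * y ^ 2 * w
      + (4405041 / 10000000) * a ^ 2 * y ^ 2 + (40782567 / 10000000) * a ^ 2 * y * x ^ 2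
      + (84743721 / 10000000) * a ^ 2 * y * x * w - (17607649 / 2500000) * a ^ 2 * y * x
      + (282551 / 125000) * a ^ 2 * y * w ^ 2 - (92280199 / 10000000) * a ^ 2 * y * w
      - (7319221 / 2000000) * a ^ 2 * y - (165469 / 125000) * a ^ 2 * x ^ 3
      - (1793987 / 1250000) * a ^ 2 * x ^ 2 * w

/-- a part of the telescoping part, expanded -/
noncomputable def wqLM_8 (o a b y x w : ℝ) : ℝ :=
    (4899179 / 5000000) * a ^ 2 * x ^ 2 - (80759 / 156250) * a ^ 2 * x * w ^ 2
      - (2881549 / 10000000) * a ^ 2 * x * w - (3 / 500000) * a ^ 2 * x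
      - (13446 / 78125) * a ^ 2 * w ^ 3 - (3795107 / 10000000) * a ^ 2 * w ^ 2
      - (1 / 250000) * a ^ 2 * w + (252987 / 10000000) * a * b ^ 4
      + (60105557 / 5000000) * a * b ^ 3 * y + (2861597 / 10000000) * a * b ^ 3 * x
      - (1308197 / 10000000) * a * b ^ 3 * w + (2248831 / 10000000) * a * b ^ 3
      + (74167859 / 2500000) * a * b ^ 2 * y ^ 2 + (6783439 / 312500) * a * b ^ 2 * y * x
      + (204148139 / 10000000) * a * b ^ 2 * y * w - (6151897 / 2500000) * a * b ^ 2 * y
      + (5172331 / 10000000) * a * b ^ 2 * x ^ 2 + (18026247 / 10000000) * a * b ^ 2 * x * w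
      - (20257633 / 10000000) * a * b ^ 2 * x - (148823 / 312500) * a * b ^ 2 * w ^ 2
      - (5076357 / 10000000) * a * b ^ 2 * w - (783969 / 5000000) * a * b ^ 2
      + (29843747 / 1250000) * a * b * y ^ 3 + (341578891 / 10000000) * a * b * y ^ 2 * x
      + (20429251 / 625000) * a * b * y ^ 2 * w - (7501781 / 5000000) * a * b * y ^ 2
      + (5799051 / 625000) * a * b * y * x ^ 2 + (39291357 / 2000000) * a * b * y * x * w
      - (65336539 / 5000000) * a * b * y * x + (65579271 / 10000000) * a * b * y * w ^ 2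

/-- a part of the telescoping part, expanded -/
noncomputable def wqLM_9 (o a b y x w : ℝ) : ℝ :=
    -(205812907 / 10000000) * a * b * y * w - (48428653 / 10000000) * a * b * y
      - (623951 / 1000000) * a * b * x ^ 3 - (967719 / 5000000) * a * b * x ^ 2 * w
      - (12363699 / 5000000) * a * b * x ^ 2 + (653723 / 1250000) * a * b * x * w ^ 2
      - (892207 / 2000000) * a * b * x * w - (119 / 10000000) * a * b * x
      + (334829 / 5000000) * a * b * w ^ 3 + (2320537 / 2500000) * a * b * w ^ 2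
      - (1 / 125000) * a * b * w + (8044091 / 1250000) * a * y ^ 4
      + (129864923 / 10000000) * a * y ^ 3 * x + (12625799 / 1000000) * a * y ^ 3 * w
      - (37193783 / 10000000) * a * y ^ 3 + (17489243 / 2500000) * a * y ^ 2 * x ^ 2
      + (300199 / 20000) * a * y ^ 2 * x * w - (8538199 / 1000000) * a * y ^ 2 * x
      + (5044609 / 1000000) * a * y ^ 2 * w ^ 2 - (112302043 / 10000000) * a * y ^ 2 * w
      - (474401 / 156250) * a * y ^ 2 + (3896167 / 5000000) * a * y * x ^ 3
      + (6606463 / 2500000) * a * y * x ^ 2 * w - (63676581 / 10000000) * a * y * x ^ 2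
      + (13225593 / 5000000) * a * y * x * w ^ 2 - (1250404 / 78125) * a * y * x * w
      - (5646651 / 2500000) * a * y * x + (6561933 / 10000000) * a * y * w ^ 3
      - (14327327 / 2500000) * a * y * w ^ 2 - (2489531 / 5000000) * a * y * w

/-- a part of the telescoping part, expanded -/
noncomputable def wqLM_10 (o a b y x w : ℝ) : ℝ :=
    -4 * a * y - (3022927 / 5000000) * a * x ^ 4 - (2470559 / 2000000) * a * x ^ 3 * w
      + (27723421 / 10000000) * a * x ^ 3 - (522203 / 2500000) * a * x ^ 2 * w ^ 2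
      - (44637 / 40000) * a * x ^ 2 * w - (3 / 500000) * a * x ^ 2 - (2483 / 10000000) * a * x * w ^ 3
      + (426523 / 1000000) * a * x * w ^ 2 - (1 / 125000) * a * x * w - (601 / 10000000) * a * w ^ 4
      + (40509 / 400000) * a * w ^ 3 - (1 / 500000) * a * w ^ 2 - (22317 / 1250000) * b ^ 5
      + (28384851 / 10000000) * b ^ 4 * y - (228229 / 1000000) * b ^ 4 * x
      - (1371307 / 10000000) * b ^ 4 * w - (314321 / 1000000) * b ^ 4
      + (95229409 / 10000000) * b ^ 3 * y ^ 2 + (34670649 / 5000000) * b ^ 3 * y * x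
      + (30722659 / 5000000) * b ^ 3 * y * w - (1962319 / 2500000) * b ^ 3 * y
      + (2207963 / 10000000) * b ^ 3 * x ^ 2 + (2393517 / 5000000) * b ^ 3 * x * w
      + (1393249 / 2000000) * b ^ 3 * x - (5493719 / 10000000) * b ^ 3 * w ^ 2
      + (771691 / 5000000) * b ^ 3 * w - (261323 / 5000000) * b ^ 3
      + (11573503 / 1000000) * b ^ 2 * y ^ 3 + (32276773 / 2000000) * b ^ 2 * y ^ 2 * x

/-- a part of the telescoping part, expanded -/
noncomputable def wqLM_11 (o a b y x w : ℝ) : ℝ :=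
    (155567277 / 10000000) * b ^ 2 * y ^ 2 * w - (22655497 / 5000000) * b ^ 2 * y ^ 2
      + (1901217 / 400000) * b ^ 2 * y * x ^ 2 + (719626 / 78125) * b ^ 2 * y * x * w
      - (34782263 / 5000000) * b ^ 2 * y * x + (29315759 / 10000000) * b ^ 2 * y * w ^ 2
      - (116882809 / 10000000) * b ^ 2 * y * w - (1026467 / 1000000) * b ^ 2 * y
      + (22007 / 1000000) * b ^ 2 * x ^ 3 - (139397 / 10000000) * b ^ 2 * x ^ 2 * w
      - (5538161 / 5000000) * b ^ 2 * x ^ 2 + (319513 / 2000000) * b ^ 2 * x * w ^ 2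
      + (4500571 / 10000000) * b ^ 2 * x * w - (59 / 10000000) * b ^ 2 * x
      - (748003 / 5000000) * b ^ 2 * w ^ 3 + (9566723 / 10000000) * b ^ 2 * w ^ 2
      - (1 / 250000) * b ^ 2 * w + (62198863 / 10000000) * b * y ^ 4
      + (127212137 / 10000000) * b * y ^ 3 * x + (24147289 / 2000000) * b * y ^ 3 * w
      - (5567329 / 2500000) * b * y ^ 3 + (38242509 / 5000000) * b * y ^ 2 * x ^ 2
      + (19043603 / 1250000) * b * y ^ 2 * x * w - (19363941 / 2500000) * b * y ^ 2 * x
      + (53247923 / 10000000) * b * y ^ 2 * w ^ 2 - (131893399 / 10000000) * b * y ^ 2 * w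
      - (5687181 / 5000000) * b * y ^ 2 + (1986957 / 2000000) * b * y * x ^ 3
      + (26159201 / 10000000) * b * y * x ^ 2 * w - (13717869 / 2000000) * b * y * x ^ 2

/-- a part of the telescoping part, expanded -/
noncomputable def wqLM_12 (o a b y x w : ℝ) : ℝ :=
    (27480711 / 10000000) * b * y * x * w ^ 2 - (55401931 / 5000000) * b * y * x * w
      - (781957 / 625000) * b * y * x + (735489 / 1250000) * b * y * w ^ 3
      - (29494049 / 5000000) * b * y * w ^ 2 + (6126141 / 5000000) * b * y * w - 4 * b * y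
      - (1326227 / 10000000) * b * x ^ 4 - (71923 / 5000000) * b * x ^ 3 * w
      + (164041 / 5000000) * b * x ^ 3 - (4261 / 125000) * b * x ^ 2 * w ^ 2
      - (1129269 / 1250000) * b * x ^ 2 * w - (891207 / 1000000) * b * x ^ 2
      - (1211 / 2000000) * b * x * w ^ 3 + (397053 / 2500000) * b * x * w ^ 2
      - (666753 / 625000) * b * x * w - (439 / 2500000) * b * w ^ 4 - (253507 / 10000000) * b * w ^ 3
      - (1 / 500000) * b * w ^ 2 + (12954787 / 10000000) * y ^ 5 + (822569 / 250000) * y ^ 4 * x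
      + (33659969 / 10000000) * y ^ 4 * w - (944063 / 2000000) * y ^ 4
      + (14432857 / 5000000) * y ^ 3 * x ^ 2 + (55717331 / 10000000) * y ^ 3 * x * w
      - (16723999 / 5000000) * y ^ 3 * x + (419281 / 200000) * y ^ 3 * w ^ 2
      - (12815753 / 2500000) * y ^ 3 * w - (214871 / 250000) * y ^ 3
      + (5110577 / 5000000) * y ^ 2 * x ^ 3

/-- a part of the telescoping part, expanded -/
noncomputable def wqLM_13 (o a b y x w : ℝ) : ℝ :=
    (1488719 / 625000) * y ^ 2 * x ^ 2 * w - (68337 / 50000) * y ^ 2 * x ^ 2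
      + (12534831 / 5000000) * y ^ 2 * x * w ^ 2 - (14889667 / 2500000) * y ^ 2 * x * w
      - (1125071 / 625000) * y ^ 2 * x + (6500711 / 10000000) * y ^ 2 * w ^ 3
      - (8648247 / 2000000) * y ^ 2 * w ^ 2 + (8330317 / 10000000) * y ^ 2 * w - 4 * y ^ 2
      - (112489 / 10000000) * y * x ^ 4 + (531297 / 10000000) * y * x ^ 3 * w
      - (8234083 / 5000000) * y * x ^ 3 - (8847 / 2500000) * y * x ^ 2 * w ^ 2
      - (2167323 / 1000000) * y * x ^ 2 * w - (197253 / 125000) * y * x ^ 2
      + (7793 / 10000000) * y * x * w ^ 3 - (25469983 / 10000000) * y * x * w ^ 2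
      + (873731 / 2500000) * y * x * w - 4 * y * x - (351 / 5000000) * y * w ^ 4
      - (6577671 / 10000000) * y * w ^ 3 + (10515561 / 5000000) * y * w ^ 2 - 4 * y * w
      - (197 / 100) * y - (1143 / 156250) * x ^ 5 - (16823 / 5000000) * x ^ 4 * w
      + (3119 / 2000000) * x ^ 4 + (733 / 1000000) * x ^ 3 * w ^ 2 + (115079 / 10000000) * x ^ 3 * w
      - (228347 / 5000000) * x ^ 3

/-- a part of the telescoping part, expanded -/
noncomputable def wqLM_14 (o a b y x w : ℝ) : ℝ :=
    -(481 / 5000000) * x ^ 2 * w ^ 3 - (123 / 2500000) * x ^ 2 * w ^ 2 - (228357 / 5000000) * x ^ 2 * w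
      - (57 / 10000000) * x * w ^ 4 - (2953 / 5000000) * x * w ^ 3 - (1 / 500000) * x * w ^ 2

/-- the telescoping part, expanded -/
noncomputable def wqLM (o a b y x w : ℝ) : ℝ :=
    wqLM_0 o a b y x w + wqLM_1 o a b y x w + wqLM_2 o a b y x w + wqLM_3 o a b y x w + wqLM_4 o a b y x w + wqLM_5 o a b y x w + wqLM_6 o a b y x w + wqLM_7 o a b y x w + wqLM_8 o a b y x w + wqLM_9 o a b y x w + wqLM_10 o a b y x w + wqLM_11 o a b y x w + wqLM_12 o a b y x w + wqLM_13 o a b y x w + wqLM_14 o a b y x w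

theorem whsLM (N x t u v : ℝ) :
    whLM N x t u v = wkLM0 x t u v + N * wkLM1 x t u v + N ^ 2 * wkLM2 x t u v + N ^ 3 * wkLM3 x t u v + N ^ 4 * wkLM4 x t u v := by
  unfold whLM wkLM0 wkLM1 wkLM2 wkLM3 wkLM4
  unfold wkLM0_0 wkLM0_1 wkLM0_2 wkLM0_3 wkLM1_0 wkLM1_1 wkLM1_2
  ring

theorem dsumLM (o a b y x w : ℝ) :
    dkLM0 o a b y x + (o + a + b + y + x + w) * dkLM1 o a b y x + (o + a + b + y + x + w) ^ 2 * dkLM2 o a b y x + (o + a + b + y + x + w) ^ 3 * dkLM3 o a b y x + (o + a + b + y + x + w) ^ 4 * dkLM4 o a b y x = wqLM o a b y x w := by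
  unfold wqLM dkLM0 dkLM1 dkLM2 dkLM3 dkLM4
  unfold wqLM_0 wqLM_1 wqLM_2 wqLM_3 wqLM_4 wqLM_5 wqLM_6 wqLM_7 wqLM_8 wqLM_9 wqLM_10 wqLM_11 wqLM_12 wqLM_13 wqLM_14 dkLM0_0 dkLM0_1 dkLM0_2 dkLM0_3 dkLM0_4 dkLM0_5 dkLM0_6 dkLM0_7 dkLM1_0 dkLM1_1 dkLM1_2 dkLM1_3
  ring

theorem wqeLM (N o a b y x w : ℝ) (hN : N = o + a + b + y + x + w) :
    whLM N (o + a + b + y + x) (o + a + b + y) (o + a + b) (o + a) - whLM N (o + a + b + y) (o + a + b) (o + a) o = wqLM o a b y x w := by
  rw [← dsumLM, ← hN, whsLM, whsLM]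
  have h0 := dkeLM0 o a b y x
  have h1 := dkeLM1 o a b y x
  have h2 := dkeLM2 o a b y x
  have h3 := dkeLM3 o a b y x
  have h4 := dkeLM4 o a b y x
  linear_combination h0 + N * h1 + N ^ 2 * h2 + N ^ 3 * h3 + N ^ 4 * h4

end Pool.Agent.Lib.MP7ec162
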