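import Pool.Agent.Lib.MP_7ec162_pr.LW.KLMDef
import Pool.Agent.Lib.MP_7ec162_pr.LW.MLM1a
import Pool.Agent.Lib.MP_7ec162_pr.LW.MLM1b
import Pool.Agent.Lib.MP_7ec162_pr.LW.MLM1c
import Pool.Agent.Lib.MP_7ec162_pr.LW.MLM1d
import Pool.Agent.Lib.MP_7ec162_pr.LW.MLM1e
import Pool.Agent.Lib.MP_7ec162_pr.LW.MLM1r

/-!
# Block 1 (MP_7ec162_pr)
-/

set_option autoImplicit false
set_option maxRecDepth 100000
set_option linter.unusedVariables false

namespace Pool.Agent.Lib.MP7ec162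

theorem oneLM (o a b y x w : ℝ) (ho : 0 ≤ o) (ha : 0 ≤ a) (hb : 0 ≤ b) (hy : 0 ≤ y)
    (hx : 0 ≤ x) (hw : 0 ≤ w) :
    0 ≤ aLM o a b y x w - iLM o a b y x w := by
  have hqLM1a := qLM1a_nonneg o a b y x w ho ha hb hy hx hw
  have hqLM1b := qLM1b_nonneg o a b y x w ho ha hb hy hx hw
  have hqLM1c := qLM1c_nonneg o a b y x w ho ha hb hy hx hw
  have hqLM1d := qLM1d_nonneg o a b y x w ho ha hb hy hx hw
  have hqLM1e := qLM1e_nonneg o a b y x w ho ha hb hy hx hw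
  have hqLM1r := qLM1r_nonneg o a b y x w ho ha hb hy hx hw
  unfold qLM1a at hqLM1a
  unfold qLM1b at hqLM1b
  unfold qLM1c at hqLM1c
  unfold qLM1d at hqLM1d
  unfold qLM1e at hqLM1e
  unfold qLM1r at hqLM1r
  unfold aLM iLM
  linear_combination hqLM1a + hqLM1b + hqLM1c + hqLM1d + hqLM1e + hqLM1r

end Pool.Agent.Lib.MP7ec162
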