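import Pool.Agent.Lib.MP_7ec162_pr.LW.KLMDef

/-!
# The integrality part (MP_7ec162_pr)
-/

set_option autoImplicit false
set_option maxRecDepth 100000

namespace Pool.Agent.Lib.MP7ec162

set_option linter.unusedVariables false

theorem thrLM (o a b y x w : ℝ) (ho : 0 ≤ o) (ha : 0 ≤ a) (hb : 0 ≤ b) (hy : 0 ≤ y)
    (hx : 0 ≤ x) (hw : 0 ≤ w)
    (ka : 0 ≤ a * (a - 1))
    (kb : 0 ≤ b * (b - 1))
    (ky : 0 ≤ y * (y - 1))
    (kx : 0 ≤ x * (x - 1))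
    (kw : 0 ≤ w * (w - 1))
    (ko2 : 0 ≤ o * (o - 2))
    (kp2 : 0 ≤ (o + a) * (o + a - 2))
    (kq2 : 0 ≤ (o + a + b) * (o + a + b - 2))
    (kr2 : 0 ≤ (o + a + b + y) * (o + a + b + y - 2)) :
    0 ≤ iLM o a b y x w - jLM o a b y x w := by
  have g0 : 0 ≤ y * (y - 1) * ((391603 / 2000000 : ℝ) * o * ((1 / 50) * o - (3 / 100) * a - (1 / 4) * b + (19 / 50) * y + 1 * x - (81 / 100) * w) ^ 2) := mul_nonneg ky (by positivity)
  have g1 : 0 ≤ x * (x - 1) * ((318101 / 10000000 : ℝ) * o * ((2 / 25) * o + (2 / 25) * a - (39 / 50) * b + 1 * y + (27 / 100) * x + (33 / 50) * w) ^ 2) := mul_nonneg kx (by positivity)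
  have g2 : 0 ≤ a * (a - 1) * ((258879 / 2000000 : ℝ) * x * ((3 / 100) * o - (9 / 50) * a + (9 / 25) * b - (19 / 100) * y - (23 / 25) * x + 1 * w) ^ 2) := mul_nonneg ka (by positivity)
  have g3 : 0 ≤ x * (x - 1) * ((2217577 / 5000000 : ℝ) * w * (1 * o - (39 / 100) * a + (7 / 50) * b - (1 / 20) * y + (1 / 50) * x) ^ 2) := mul_nonneg kx (by positivity)
  have g4 : 0 ≤ o * (o - 2) * ((32663 / 312500 : ℝ) * x * ((13 / 100) * a - (41 / 100) * b + (11 / 100) * y + 1 * x) ^ 2) := mul_nonneg ko2 (by positivity)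
  have g5 : 0 ≤ o * (o - 2) * ((1093131 / 10000000 : ℝ) * a * ((3 / 50) * a - (23 / 100) * b - (7 / 100) * y + 1 * x - (1 / 50) * w) ^ 2) := mul_nonneg ko2 (by positivity)
  have g6 : 0 ≤ x * (x - 1) * ((314479 / 2500000 : ℝ) * o * (-(1 / 100) * o + (7 / 25) * a - (19 / 50) * b - (39 / 100) * y + (39 / 50) * x + 1 * w) ^ 2) := mul_nonneg kx (by positivity)
  have g7 : 0 ≤ y * (y - 1) * ((16701 / 1000000 : ℝ) * o * ((1 / 100) * o - (1 / 50) * a - (1 / 50) * b - (1 / 20) * y - (7 / 20) * x + 1 * w) ^ 2) := mul_nonneg ky (by positivity)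
  have g8 : 0 ≤ a * (a - 1) * ((1259799 / 10000000 : ℝ) * w * (-(1 / 25) * o - (3 / 25) * a + (11 / 50) * b - (3 / 50) * y - (87 / 100) * x + 1 * w) ^ 2) := mul_nonneg ka (by positivity)
  have g9 : 0 ≤ a * (a - 1) * ((37 / 10000000 : ℝ) * a * b * y) := mul_nonneg ka (by positivity)
  have g10 : 0 ≤ a * (a - 1) * ((41 / 2000000 : ℝ) * a * w ^ 2) := mul_nonneg ka (by positivity)
  have g11 : 0 ≤ a * (a - 1) * ((253 / 10000000 : ℝ) * b * y ^ 2) := mul_nonneg ka (by positivity)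
  have g12 : 0 ≤ a * (a - 1) * ((77 / 1000000 : ℝ) * x ^ 2 * w) := mul_nonneg ka (by positivity)
  have g13 : 0 ≤ a * (a - 1) * ((149 / 10000000 : ℝ) * x * w ^ 2) := mul_nonneg ka (by positivity)
  have g14 : 0 ≤ b * (b - 1) * ((139 / 10000000 : ℝ) * o * b * w) := mul_nonneg kb (by positivity)
  have g15 : 0 ≤ b * (b - 1) * ((47 / 2500000 : ℝ) * a ^ 2 * x) := mul_nonneg kb (by positivity)
  have g16 : 0 ≤ b * (b - 1) * ((41 / 5000000 : ℝ) * b ^ 2 * w) := mul_nonneg kb (by positivity)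
  have g17 : 0 ≤ b * (b - 1) * ((29 / 2500000 : ℝ) * y ^ 2 * x) := mul_nonneg kb (by positivity)
  have g18 : 0 ≤ b * (b - 1) * ((89 / 10000000 : ℝ) * w ^ 3) := mul_nonneg kb (by positivity)
  have g19 : 0 ≤ y * (y - 1) * ((11 / 2500000 : ℝ) * o ^ 3) := mul_nonneg ky (by positivity)
  have g20 : 0 ≤ y * (y - 1) * ((177 / 10000000 : ℝ) * o * y * w) := mul_nonneg ky (by positivity)
  have g21 : 0 ≤ y * (y - 1) * ((9 / 1250000 : ℝ) * y * x * w) := mul_nonneg ky (by positivity)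
  have g22 : 0 ≤ x * (x - 1) * ((1529 / 5000000 : ℝ) * o ^ 2 * y) := mul_nonneg kx (by positivity)
  have g23 : 0 ≤ x * (x - 1) * ((1189 / 10000000 : ℝ) * o ^ 2 * x) := mul_nonneg kx (by positivity)
  have g24 : 0 ≤ x * (x - 1) * ((309 / 10000000 : ℝ) * o ^ 2 * w) := mul_nonneg kx (by positivity)
  have g25 : 0 ≤ x * (x - 1) * ((143 / 500000 : ℝ) * o * a * x) := mul_nonneg kx (by positivity)
  have g26 : 0 ≤ x * (x - 1) * ((741 / 2500000 : ℝ) * o * w ^ 2) := mul_nonneg kx (by positivity)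
  have g27 : 0 ≤ x * (x - 1) * ((11 / 10000000 : ℝ) * b * x ^ 2) := mul_nonneg kx (by positivity)
  have g28 : 0 ≤ x * (x - 1) * ((3 / 2000000 : ℝ) * y ^ 3) := mul_nonneg kx (by positivity)
  have g29 : 0 ≤ x * (x - 1) * ((1 / 625000 : ℝ) * w ^ 3) := mul_nonneg kx (by positivity)
  have g30 : 0 ≤ w * (w - 1) * ((19 / 10000000 : ℝ) * o * a * w) := mul_nonneg kw (by positivity)
  have g31 : 0 ≤ w * (w - 1) * ((1 / 1000000 : ℝ) * o * x * w) := mul_nonneg kw (by positivity)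
  have g32 : 0 ≤ w * (w - 1) * ((1 / 312500 : ℝ) * y * x * w) := mul_nonneg kw (by positivity)
  have g33 : 0 ≤ w * (w - 1) * ((3 / 1250000 : ℝ) * x ^ 3) := mul_nonneg kw (by positivity)
  have g34 : 0 ≤ o * (o - 2) * ((1 / 2000000 : ℝ) * o ^ 2 * x) := mul_nonneg ko2 (by positivity)
  have g35 : 0 ≤ o * (o - 2) * ((1 / 2000000 : ℝ) * o * a ^ 2) := mul_nonneg ko2 (by positivity)
  have g36 : 0 ≤ o * (o - 2) * ((7 / 5000000 : ℝ) * o * a * x) := mul_nonneg ko2 (by positivity)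
  have g37 : 0 ≤ o * (o - 2) * ((3 / 2000000 : ℝ) * o * a * w) := mul_nonneg ko2 (by positivity)
  have g38 : 0 ≤ o * (o - 2) * ((1 / 1250000 : ℝ) * o * b * w) := mul_nonneg ko2 (by positivity)
  have g39 : 0 ≤ o * (o - 2) * ((3 / 2500000 : ℝ) * o * x * w) := mul_nonneg ko2 (by positivity)
  have g40 : 0 ≤ o * (o - 2) * ((17 / 5000000 : ℝ) * a ^ 2 * b) := mul_nonneg ko2 (by positivity)
  have g41 : 0 ≤ o * (o - 2) * ((21 / 2000000 : ℝ) * a * b * y) := mul_nonneg ko2 (by positivity)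
  have g42 : 0 ≤ o * (o - 2) * ((3 / 500000 : ℝ) * a * b * w) := mul_nonneg ko2 (by positivity)
  have g43 : 0 ≤ o * (o - 2) * ((7 / 2500000 : ℝ) * b ^ 3) := mul_nonneg ko2 (by positivity)
  have g44 : 0 ≤ o * (o - 2) * ((19 / 10000000 : ℝ) * b * w ^ 2) := mul_nonneg ko2 (by positivity)
  have g45 : 0 ≤ o * (o - 2) * ((1 / 1000000 : ℝ) * y * w ^ 2) := mul_nonneg ko2 (by positivity)
  have g46 : 0 ≤ (o + a) * (o + a - 2) * ((9 / 10000000 : ℝ) * a ^ 2 * w) := mul_nonneg kp2 (by positivity)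
  unfold iLM jLM
  linear_combination g0 + g1 + g2 + g3 + g4 + g5 + g6 + g7 + g8 + g9 + g10 + g11 + g12 + g13 + g14 + g15 + g16 + g17 + g18 + g19 + g20 + g21 + g22 + g23 + g24 + g25 + g26 + g27 + g28 + g29 + g30 + g31 + g32 + g33 + g34 + g35 + g36 + g37 + g38 + g39 + g40 + g41 + g42 + g43 + g44 + g45 + g46

theorem resLM (o a b y x w : ℝ) (ho : 0 ≤ o) (ha : 0 ≤ a) (hb : 0 ≤ b) (hy : 0 ≤ y)
    (hx : 0 ≤ x) (hw : 0 ≤ w) : 0 ≤ rLM o a b y x w := by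
  unfold rLM
  positivity

end Pool.Agent.Lib.MP7ec162
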