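import Mathlib

/-!
# A part of block 2 (MP_7ec162_pr)
-/

set_option autoImplicit false
set_option maxRecDepth 100000
set_option linter.unusedVariables false

namespace Pool.Agent.Lib.MP7ec162

/-- part -/
noncomputable def qLM2a (o a b y x w : ℝ) : ℝ :=
    (2759 / 1000000000) * o ^ 4 * y + (20820539 / 2500000000) * o ^ 4 * x
    + (238288147 / 2500000000) * o ^ 3 * a ^ 2 + (19502557 / 1250000000) * o ^ 3 * a * b
    - (4234291489 / 2500000000) * o ^ 3 * a * y - (963940109 / 1000000000) * o ^ 3 * a * x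
    + (117219 / 1250000000) * o ^ 3 * a * w + (733639213 / 5000000000) * o ^ 3 * b ^ 2
    - (30735123 / 25000000) * o ^ 3 * b * y + (3569860973 / 5000000000) * o ^ 3 * b * x
    + (13299757 / 312500000) * o ^ 3 * b * w + (5043548089 / 500000000) * o ^ 3 * y ^ 2
    + (25693051071 / 5000000000) * o ^ 3 * y * x + (7195847657 / 2500000000) * o ^ 3 * x ^ 2
    - (11749973 / 2500000000) * o ^ 3 * x * w + (86591777 / 312500000) * o ^ 2 * a ^ 3
    + (1730415547 / 5000000000) * o ^ 2 * a ^ 2 * b - (8355886191 / 2500000000) * o ^ 2 * a ^ 2 * y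
    + (2067988631 / 1250000000) * o ^ 2 * a ^ 2 * x + (1397427041 / 312500000) * o ^ 2 * a ^ 2 * w
    + (894650097 / 2500000000) * o ^ 2 * a * b ^ 2 - (234601573 / 39062500) * o ^ 2 * a * b * y
    - (8154213291 / 1250000000) * o ^ 2 * a * b * x - (27406967309 / 5000000000) * o ^ 2 * a * b * w
    + (10811810161 / 2500000000) * o ^ 2 * a * y ^ 2
    - (66106332973 / 5000000000) * o ^ 2 * a * y * x
    - (20561789109 / 1000000000) * o ^ 2 * a * y * w + (228229201 / 25000000) * o ^ 2 * a * x ^ 2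
    + (12111567227 / 2500000000) * o ^ 2 * a * x * w + (97899 / 2500000000) * o ^ 2 * a * w ^ 2
    + (714716477 / 2500000000) * o ^ 2 * b ^ 3 - (2400374003 / 2500000000) * o ^ 2 * b ^ 2 * y
    + (3289142597 / 2500000000) * o ^ 2 * b ^ 2 * x + (695182203 / 200000000) * o ^ 2 * b ^ 2 * w
    + (19205093449 / 1000000000) * o ^ 2 * b * y ^ 2
    + (31935680147 / 2500000000) * o ^ 2 * b * y * x + (8401070033 / 2500000000) * o ^ 2 * b * y * w
    - (19309431263 / 2500000000) * o ^ 2 * b * x ^ 2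
    - (14014698893 / 1250000000) * o ^ 2 * b * x * w - (289984471 / 5000000000) * o ^ 2 * b * w ^ 2
    + (21480696117 / 5000000000) * o ^ 2 * y ^ 3 + (6426179911 / 625000000) * o ^ 2 * y ^ 2 * x
    + (4441105517 / 500000000) * o ^ 2 * y ^ 2 * w - (41836836809 / 5000000000) * o ^ 2 * y * x ^ 2
    - (23137823221 / 1250000000) * o ^ 2 * y * x * w + (2759 / 250000000) * o ^ 2 * y * w ^ 2
    + (52642766759 / 5000000000) * o ^ 2 * x ^ 3 + (4018204871 / 500000000) * o ^ 2 * x ^ 2 * w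
    - (54704773 / 5000000000) * o ^ 2 * x * w ^ 2 + (3164231041 / 5000000000) * o * a ^ 4
    - (342140201 / 500000000) * o * a ^ 3 * b - (2286009871 / 2500000000) * o * a ^ 3 * y
    + (15305275109 / 5000000000) * o * a ^ 3 * x + (2812873801 / 2500000000) * o * a ^ 3 * w
    + (76291891 / 100000000) * o * a ^ 2 * b ^ 2 - (11716280077 / 2500000000) * o * a ^ 2 * b * y
    - (3783368773 / 2500000000) * o * a ^ 2 * b * x + (10871795129 / 1250000000) * o * a ^ 2 * b * w
    + (2464871333 / 2500000000) * o * a ^ 2 * y ^ 2 + (734346327 / 250000000) * o * a ^ 2 * y * x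
    - (241172233 / 62500000) * o * a ^ 2 * y * w + (58005441543 / 5000000000) * o * a ^ 2 * x ^ 2
    + (4440197869 / 5000000000) * o * a ^ 2 * x * w + (3119715037 / 625000000) * o * a ^ 2 * w ^ 2
    - (398364973 / 2500000000) * o * a * b ^ 3 + (4289909667 / 625000000) * o * a * b ^ 2 * y
    - (1102873411 / 125000000) * o * a * b ^ 2 * x - (15808172397 / 5000000000) * o * a * b ^ 2 * w
    - (2717473757 / 312500000) * o * a * b * y ^ 2 - (12926159049 / 500000000) * o * a * b * y * x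
    - (20731248723 / 625000000) * o * a * b * y * w + (1909408121 / 500000000) * o * a * b * x ^ 2
    - (783672589 / 500000000) * o * a * b * x * w + (7292995603 / 2500000000) * o * a * b * w ^ 2
    + (4143831983 / 2500000000) * o * a * y ^ 3 + (1109989653 / 125000000) * o * a * y ^ 2 * x
    - (14926637091 / 2500000000) * o * a * y ^ 2 * w - (5553710491 / 1250000000) * o * a * y * x ^ 2
    - (3952197963 / 500000000) * o * a * y * x * w + (622756933 / 625000000) * o * a * y * w ^ 2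
    + (5632785633 / 312500000) * o * a * x ^ 3 + (57231464083 / 5000000000) * o * a * x ^ 2 * w
    - (2406498269 / 5000000000) * o * a * x * w ^ 2 - (2364537 / 5000000000) * o * a * w ^ 3
    + (705564289 / 1000000000) * o * b ^ 4 + (11733707269 / 2500000000) * o * b ^ 3 * y
    + (15936369749 / 5000000000) * o * b ^ 3 * x + (31897813361 / 2500000000) * o * b ^ 3 * w
    - (14710224921 / 2500000000) * o * b ^ 2 * y ^ 2
    - (14974555309 / 1250000000) * o * b ^ 2 * y * x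
    - (11956194581 / 2500000000) * o * b ^ 2 * y * w
    - (31968096397 / 5000000000) * o * b ^ 2 * x ^ 2
    - (166804753987 / 5000000000) * o * b ^ 2 * x * w
    + (18027871499 / 5000000000) * o * b ^ 2 * w ^ 2 + (17997762021 / 2500000000) * o * b * y ^ 3
    + (12914783261 / 1250000000) * o * b * y ^ 2 * x + (1691359773 / 100000000) * o * b * y ^ 2 * w
    + (2693335363 / 250000000) * o * b * y * x ^ 2 - (43384594273 / 2500000000) * o * b * y * x * w
    + (747416299 / 156250000) * o * b * y * w ^ 2 + (1469496069 / 200000000) * o * b * x ^ 3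
    + (25768046939 / 1250000000) * o * b * x ^ 2 * w
    - (11026376169 / 2500000000) * o * b * x * w ^ 2 + (59447417 / 2500000000) * o * b * w ^ 3
    + (1399511687 / 1000000000) * o * y ^ 4 + (21957183453 / 2500000000) * o * y ^ 3 * x
    - (1094972713 / 2500000000) * o * y ^ 3 * w + (37826465119 / 5000000000) * o * y ^ 2 * x ^ 2
    - (341276551 / 1250000000) * o * y ^ 2 * x * w + (3053473159 / 5000000000) * o * y ^ 2 * w ^ 2
    + (20855124653 / 2500000000) * o * y * x ^ 3 + (5416361441 / 1250000000) * o * y * x ^ 2 * w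
    + (759718017 / 2500000000) * o * y * x * w ^ 2 + (715877531 / 200000000) * o * x ^ 4
    + (23740544451 / 5000000000) * o * x ^ 3 * w + (4287526519 / 2500000000) * o * x ^ 2 * w ^ 2
    + (107954883 / 5000000000) * o * x * w ^ 3 + (5851487 / 500000000) * a ^ 5
    + (1629659447 / 5000000000) * a ^ 4 * b + (4636817 / 125000000) * a ^ 4 * y
    + (127577807 / 1250000000) * a ^ 4 * x + (127797839 / 2500000000) * a ^ 4 * w
    - (3459083087 / 2500000000) * a ^ 3 * b ^ 2 + (1410920037 / 1250000000) * a ^ 3 * b * y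
    + (2151947417 / 625000000) * a ^ 3 * b * x + (19599506349 / 5000000000) * a ^ 3 * b * w
    + (1105381 / 100000000) * a ^ 3 * y ^ 2 + (3416412339 / 5000000000) * a ^ 3 * y * x
    - (341067043 / 1250000000) * a ^ 3 * y * w + (509625673 / 500000000) * a ^ 3 * x ^ 2
    + (2706354147 / 2500000000) * a ^ 3 * x * w + (606471077 / 500000000) * a ^ 3 * w ^ 2
    + (6339803433 / 5000000000) * a ^ 2 * b ^ 3 - (13618043829 / 5000000000) * a ^ 2 * b ^ 2 * y
    - (44031347339 / 5000000000) * a ^ 2 * b ^ 2 * x - (4559084713 / 625000000) * a ^ 2 * b ^ 2 * w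
    + (2426525029 / 2500000000) * a ^ 2 * b * y ^ 2 + (18645103569 / 2500000000) * a ^ 2 * b * y * x
    + (2599298189 / 1250000000) * a ^ 2 * b * y * w + (3996605161 / 625000000) * a ^ 2 * b * x ^ 2
    + (28394853891 / 2500000000) * a ^ 2 * b * x * w
    + (30385731893 / 5000000000) * a ^ 2 * b * w ^ 2 + (2551589 / 250000000) * a ^ 2 * y ^ 3
    - (860136921 / 312500000) * a ^ 2 * y ^ 2 * x - (175379083 / 250000000) * a ^ 2 * y ^ 2 * w
    + (1664947879 / 1000000000) * a ^ 2 * y * x ^ 2 + (9596743167 / 2500000000) * a ^ 2 * y * x * w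
    + (1256110123 / 5000000000) * a ^ 2 * y * w ^ 2 + (984045851 / 250000000) * a ^ 2 * x ^ 3
    + (4265629957 / 2500000000) * a ^ 2 * x ^ 2 * w + (2196662343 / 625000000) * a ^ 2 * x * w ^ 2
    - (31691047 / 625000000) * a ^ 2 * w ^ 3 + (480628753 / 1250000000) * a * b ^ 4
    - (17390577 / 312500000) * a * b ^ 3 * y + (3848141239 / 1250000000) * a * b ^ 3 * x
    + (3661381 / 25000000) * a * b ^ 3 * w + (1045381 / 78125000) * a * b ^ 2 * y ^ 2
    - (4205350517 / 625000000) * a * b ^ 2 * y * x + (2565982111 / 1000000000) * a * b ^ 2 * y * w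
    - (4475448823 / 625000000) * a * b ^ 2 * x ^ 2 - (920738069 / 500000000) * a * b ^ 2 * x * w
    + (337152449 / 2500000000) * a * b ^ 2 * w ^ 2 - (499237167 / 2500000000) * a * b * y ^ 3
    + (2910921929 / 2500000000) * a * b * y ^ 2 * x - (4272363129 / 5000000000) * a * b * y ^ 2 * w
    + (2018365443 / 250000000) * a * b * y * x ^ 2 - (24320781127 / 2500000000) * a * b * y * x * w
    - (23068960709 / 2500000000) * a * b * y * w ^ 2 + (2833819059 / 1250000000) * a * b * x ^ 3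
    - (717578589 / 1000000000) * a * b * x ^ 2 * w + (10559110897 / 2500000000) * a * b * x * w ^ 2
    - (1502717641 / 2500000000) * a * b * w ^ 3 + (9189997 / 125000000) * a * y ^ 4
    + (7397278907 / 2500000000) * a * y ^ 3 * x + (4137589487 / 5000000000) * a * y ^ 3 * w
    - (9627160519 / 2500000000) * a * y ^ 2 * x ^ 2 - (5734928373 / 625000000) * a * y ^ 2 * x * w
    + (67148913 / 2500000000) * a * y ^ 2 * w ^ 2 + (101224481 / 250000000) * a * y * x ^ 3
    + (3331040117 / 625000000) * a * y * x ^ 2 * w + (205384977 / 62500000) * a * y * x * w ^ 2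
    - (7713203 / 1250000000) * a * y * w ^ 3 + (614011741 / 250000000) * a * x ^ 4
    + (1122050561 / 78125000) * a * x ^ 3 * w + (192025399 / 500000000) * a * x ^ 2 * w ^ 2
    + (55885297 / 2500000000) * a * x * w ^ 3 + (1711983 / 2500000000) * a * w ^ 4
    + (33717611 / 1250000000) * b ^ 5 + (14277733 / 1250000000) * b ^ 4 * y
    + (131328539 / 625000000) * b ^ 4 * x + (47880013 / 625000000) * b ^ 4 * w
    + (119201 / 390625) * b ^ 3 * y ^ 2 - (99692189 / 625000000) * b ^ 3 * y * x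
    + (77098353 / 1250000000) * b ^ 3 * y * w + (85126521 / 625000000) * b ^ 3 * x ^ 2
    + (402901219 / 5000000000) * b ^ 3 * x * w + (765784973 / 2500000000) * b ^ 3 * w ^ 2
    - (162829159 / 1250000000) * b ^ 2 * y ^ 3 - (313792179 / 1250000000) * b ^ 2 * y ^ 2 * x
    + (2352943209 / 2500000000) * b ^ 2 * y ^ 2 * w - (159929987 / 156250000) * b ^ 2 * y * x ^ 2
    + (3730720961 / 2500000000) * b ^ 2 * y * x * w - (11048371 / 625000000) * b ^ 2 * y * w ^ 2
    - (690020153 / 625000000) * b ^ 2 * x ^ 3 - (483810157 / 500000000) * b ^ 2 * x ^ 2 * w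
    + (351271841 / 1250000000) * b ^ 2 * x * w ^ 2 + (37597817 / 2500000000) * b ^ 2 * w ^ 3
    + (11653757 / 250000000) * b * y ^ 4 - (1614901 / 15625000) * b * y ^ 3 * x
    + (28921613 / 156250000) * b * y ^ 3 * w + (1029709 / 2500000) * b * y ^ 2 * x ^ 2
    - (12009225617 / 5000000000) * b * y ^ 2 * x * w
    + (11568717027 / 5000000000) * b * y ^ 2 * w ^ 2 + (145946219 / 125000000) * b * y * x ^ 3
    - (1885865097 / 1250000000) * b * y * x ^ 2 * w - (4961541657 / 2500000000) * b * y * x * w ^ 2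
    + (1136611223 / 2500000000) * b * y * w ^ 3 + (188852221 / 250000000) * b * x ^ 4
    + (224747699 / 250000000) * b * x ^ 3 * w + (311996757 / 5000000000) * b * x ^ 2 * w ^ 2
    - (387581821 / 2500000000) * b * x * w ^ 3 + (113936899 / 5000000000) * b * w ^ 4
    + (2759 / 1000000000) * y ^ 5 - (30349 / 500000000) * y ^ 4 * x
    + (434721 / 625000000) * y ^ 4 * w + (477307 / 1000000000) * y ^ 3 * x ^ 2
    - (9399087 / 2500000000) * y ^ 3 * x * w + (19493151 / 5000000000) * y ^ 3 * w ^ 2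
    - (394537 / 250000000) * y ^ 2 * x ^ 3 + (16454543 / 2500000000) * y ^ 2 * x ^ 2 * w
    - (311759 / 625000000) * y ^ 2 * x * w ^ 2 - (392143 / 1250000000) * y ^ 2 * w ^ 3
    + (466271 / 250000000) * y * x ^ 4 - (3845869 / 625000000) * y * x ^ 3 * w
    + (86653 / 50000000) * y * x ^ 2 * w ^ 2 - (100521 / 625000000) * y * x * w ^ 3
    + (2759 / 250000000) * y * w ^ 4 + (408069 / 625000000) * x ^ 4 * w
    - (136023 / 625000000) * x ^ 3 * w ^ 2 + (45341 / 2500000000) * x ^ 2 * w ^ 3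

theorem qLM2a_nonneg (o a b y x w : ℝ) (ho : 0 ≤ o) (ha : 0 ≤ a) (hb : 0 ≤ b) (hy : 0 ≤ y)
    (hx : 0 ≤ x) (hw : 0 ≤ w) :
    0 ≤ qLM2a o a b y x w := by
  have g0 : 0 ≤ (543341 / 500000 : ℝ) * o * y * w * (-1 * a + 1 * b) ^ 2 := by positivity
  have g1 : 0 ≤ (7831 / 500000 : ℝ) * b * x * w * (-(9 / 25) * o + (3 / 50) * a + (19 / 100) * b + (11 / 100) * y - 1 * x + (23 / 25) * w) ^ 2 := by positivity
  have g2 : 0 ≤ (154269 / 125000 : ℝ) * o * x * w * (-(1 / 50) * o + 1 * a - (1 / 2) * b - (59 / 100) * y - (1 / 20) * x) ^ 2 := by positivity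
  have g3 : 0 ≤ (2005089 / 500000 : ℝ) * o ^ 2 * w * (-(1 / 10) * a - (39 / 100) * b + 1 * y - (19 / 100) * x) ^ 2 := by positivity
  have g4 : 0 ≤ (172583 / 500000 : ℝ) * a * y * x * ((7 / 100) * o + (1 / 4) * a - (9 / 25) * b - (7 / 50) * y + 1 * x - (3 / 50) * w) ^ 2 := by positivity
  have g5 : 0 ≤ (7751 / 500000 : ℝ) * o * w ^ 2 * (-(13 / 25) * a + (89 / 100) * b + (6 / 25) * y - 1 * x) ^ 2 := by positivity
  have g6 : 0 ≤ (1227483 / 125000 : ℝ) * a * x * w * ((9 / 100) * o + (9 / 100) * a - (3 / 20) * b - (17 / 50) * y + 1 * x + (1 / 25) * w) ^ 2 := by positivity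
  have g7 : 0 ≤ (8167 / 500000 : ℝ) * o ^ 2 * x * (-(1 / 100) * o - (1 / 10) * a + (19 / 50) * b - (11 / 25) * y + 1 * x - (7 / 100) * w) ^ 2 := by positivity
  have g8 : 0 ≤ (414883 / 500000 : ℝ) * o * x * w * ((1 / 50) * o - (13 / 100) * a - (31 / 100) * b + 1 * y - (11 / 100) * x - (1 / 100) * w) ^ 2 := by positivity
  have g9 : 0 ≤ (280437 / 125000 : ℝ) * a * b * x * ((7 / 50) * o - (13 / 20) * a + 1 * b - (16 / 25) * y - (71 / 100) * x + (37 / 100) * w) ^ 2 := by positivity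
  have g10 : 0 ≤ (58032 / 15625 : ℝ) * a * y * x * (-(39 / 100) * o + (19 / 50) * a + (11 / 100) * b - (23 / 25) * y + (3 / 5) * x + 1 * w) ^ 2 := by positivity
  have g11 : 0 ≤ (2332221 / 500000 : ℝ) * a * y * w * ((17 / 100) * o + (3 / 50) * a - (13 / 100) * b - (43 / 100) * y + 1 * x) ^ 2 := by positivity
  have g12 : 0 ≤ (2096817 / 125000 : ℝ) * o * b * w * ((1 / 50) * o - (27 / 100) * a - (7 / 50) * b + 1 * y - (6 / 25) * x + (1 / 100) * w) ^ 2 := by positivity
  have g13 : 0 ≤ (560147 / 25000 : ℝ) * o * b * w * ((1 / 25) * o + (27 / 100) * a - (7 / 10) * b + (11 / 50) * y + 1 * x - (3 / 50) * w) ^ 2 := by positivity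
  have g14 : 0 ≤ (117219 / 500000 : ℝ) * o * a * w * ((1 / 50) * o - (27 / 50) * a - (13 / 100) * b + 1 * y + (11 / 100) * x - (1 / 100) * w) ^ 2 := by positivity
  have g15 : 0 ≤ (3709943 / 500000 : ℝ) * o * b * y * (-(2 / 25) * o - (2 / 25) * a + (16 / 25) * b - (41 / 50) * y - 1 * x + (21 / 25) * w) ^ 2 := by positivity
  have g16 : 0 ≤ (5377 / 250000 : ℝ) * o * x * w * (-(22 / 25) * o + (83 / 100) * a - (4 / 25) * b - (17 / 100) * y - (9 / 100) * x + 1 * w) ^ 2 := by positivity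
  have g17 : 0 ≤ (2591 / 100000 : ℝ) * o * w ^ 2 * (-(7 / 20) * a + (27 / 100) * b + 1 * y - (13 / 20) * x) ^ 2 := by positivity
  have g18 : 0 ≤ (277651 / 62500 : ℝ) * o * b * x * ((7 / 100) * o - (1 / 50) * a - (47 / 100) * b + 1 * y + (1 / 100) * x - (11 / 50) * w) ^ 2 := by positivity
  have g19 : 0 ≤ (609811 / 250000 : ℝ) * a * x ^ 2 * ((51 / 100) * o - (13 / 20) * a + (13 / 25) * b + (6 / 25) * y - 1 * x - (4 / 25) * w) ^ 2 := by positivity
  have g20 : 0 ≤ (60659 / 500000 : ℝ) * o * (-(1 / 25) * o * a + (1 / 20) * o * b + (17 / 100) * o * y + (6 / 25) * o * x - (3 / 20) * a ^ 2 + (19 / 50) * a * b - (31 / 50) * a * y - (9 / 10) * a * x + (6 / 25) * a * w - (1 / 50) * b ^ 2 - (7 / 100) * b * y + (29 / 100) * b * x - (4 / 25) * b * w + 1 * y ^ 2 + (13 / 20) * y * x - (21 / 100) * y * w - (7 / 100) * x ^ 2 - (7 / 20) * x * w) ^ 2 := by positivity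
  have g21 : 0 ≤ (1861929 / 500000 : ℝ) * o ^ 2 * w * (-(37 / 50) * a + 1 * b + (11 / 25) * y - (19 / 25) * x) ^ 2 := by positivity
  have g22 : 0 ≤ (2779359 / 500000 : ℝ) * o * ((3 / 50) * o * a + (7 / 50) * o * b - 1 * o * y - (13 / 100) * o * x + (21 / 50) * a * b - (1 / 4) * a * y - (4 / 25) * a * x + (39 / 50) * a * w - (1 / 4) * b * y - (11 / 50) * b * x + (7 / 100) * b * w - (19 / 50) * y ^ 2 - (8 / 25) * y * x + (6 / 25) * y * w - (4 / 25) * x ^ 2 - (2 / 25) * x * w) ^ 2 := by positivity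
  have g23 : 0 ≤ (150763 / 31250 : ℝ) * o * b * x * (-(2 / 25) * o - (11 / 25) * a + 1 * b - (39 / 100) * y - (79 / 100) * x + (1 / 25) * w) ^ 2 := by positivity
  have g24 : 0 ≤ (603457 / 100000 : ℝ) * o * y * x * ((3 / 100) * o + (1 / 50) * a - (1 / 2) * b + 1 * y + (9 / 50) * x - (1 / 5) * w) ^ 2 := by positivity
  have g25 : 0 ≤ (4891 / 100000 : ℝ) * b * (-(7 / 100) * o * a + (17 / 50) * o * b - (27 / 100) * o * y + (22 / 25) * o * x - (39 / 100) * o * w + (3 / 20) * a ^ 2 - (67 / 100) * a * b + (16 / 25) * a * y - (19 / 25) * a * x + (33 / 100) * a * w + (3 / 50) * b ^ 2 + (19 / 50) * b * y - (11 / 50) * b * x + 1 * b * w - (29 / 50) * y ^ 2 + (23 / 50) * y * x - (43 / 100) * y * w - (21 / 50) * x ^ 2 + (11 / 20) * x * w + (1 / 20) * w ^ 2) ^ 2 := by positivity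
  have g26 : 0 ≤ (957143 / 250000 : ℝ) * a * x * w * ((7 / 100) * o + (7 / 20) * a - (23 / 25) * b + (19 / 50) * y + 1 * x - (7 / 100) * w) ^ 2 := by positivity
  have g27 : 0 ≤ (3147343 / 500000 : ℝ) * o ^ 2 * w * (-(23 / 50) * a + (7 / 25) * b + 1 * y - (91 / 100) * x) ^ 2 := by positivity
  have g28 : 0 ≤ (4562967 / 500000 : ℝ) * o * a * x * ((3 / 100) * o - (3 / 100) * a + (1 / 10) * b - (16 / 25) * y + 1 * x + (13 / 100) * w) ^ 2 := by positivity
  have g29 : 0 ≤ (187729 / 125000 : ℝ) * o * y * x * ((19 / 100) * o - (11 / 20) * a + (31 / 100) * b + 1 * x + (1 / 10) * w) ^ 2 := by positivity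
  have g30 : 0 ≤ (1484649 / 500000 : ℝ) * o * (-(13 / 100) * o * a + (11 / 100) * o * b + (61 / 100) * o * y + 1 * o * x - (13 / 100) * a ^ 2 - (21 / 100) * a * b + (2 / 25) * a * y + (1 / 100) * a * x - (7 / 10) * a * w + (1 / 50) * b ^ 2 + (39 / 100) * b * y + (1 / 100) * b * x - (53 / 100) * b * w + (17 / 50) * y ^ 2 + (9 / 100) * y * x + (7 / 25) * y * w + (1 / 10) * x ^ 2 + (3 / 100) * x * w) ^ 2 := by positivity
  have g31 : 0 ≤ (188589 / 20000 : ℝ) * o * ((1 / 20) * o * a + (1 / 100) * o * b - (3 / 5) * o * y + (1 / 20) * o * x + (21 / 100) * a ^ 2 - (1 / 4) * a * b - (1 / 20) * a * y + 1 * a * x + (3 / 100) * a * w - (29 / 100) * b ^ 2 - (3 / 100) * b * y + (39 / 100) * b * x - (29 / 100) * b * w + (11 / 100) * y ^ 2 + (53 / 100) * y * x + (1 / 25) * y * w + (3 / 5) * x ^ 2 + (41 / 100) * x * w) ^ 2 := by positivity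
  have g32 : 0 ≤ (282111 / 500000 : ℝ) * a * b * w * (-(3 / 50) * o + (29 / 50) * a - 1 * b + (43 / 100) * y + (59 / 100) * x + (13 / 50) * w) ^ 2 := by positivity
  have g33 : 0 ≤ (914931 / 500000 : ℝ) * o * b * x * ((27 / 100) * o - (21 / 25) * a + (19 / 100) * b + 1 * y + (17 / 20) * x - (21 / 50) * w) ^ 2 := by positivity
  have g34 : 0 ≤ (1931591 / 250000 : ℝ) * o ^ 2 * x * ((27 / 100) * a - (33 / 50) * b + (9 / 100) * y + 1 * x - (1 / 25) * w) ^ 2 := by positivity
  have g35 : 0 ≤ (5573 / 50000 : ℝ) * a ^ 3 * (-(1 / 50) * o + (23 / 100) * a - (18 / 25) * b + (61 / 100) * y + 1 * x - (17 / 20) * w) ^ 2 := by positivity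
  have g36 : 0 ≤ (45341 / 250000 : ℝ) * w * (-(11 / 100) * o * a + (79 / 100) * o * b + (13 / 100) * o * y - 1 * o * x - (27 / 100) * a ^ 2 + (1 / 20) * a * b + (13 / 50) * a * y - (59 / 100) * a * x - (1 / 50) * a * w - (1 / 50) * b ^ 2 - (17 / 100) * b * y + (39 / 100) * b * x + (13 / 100) * b * w + (7 / 100) * y ^ 2 - (23 / 100) * y * x + (1 / 50) * y * w + (3 / 50) * x ^ 2 - (1 / 100) * x * w) ^ 2 := by positivity
  have g37 : 0 ≤ (2759 / 100000 : ℝ) * y * ((1 / 100) * o ^ 2 - (3 / 25) * o * a - (1 / 50) * o * b - (9 / 100) * o * y + (1 / 20) * o * x + (3 / 10) * a ^ 2 - (1 / 100) * a * b - (4 / 25) * a * y - (97 / 100) * a * x - (21 / 100) * a * w + (1 / 50) * b ^ 2 - (3 / 25) * b * x + 1 * b * w + (1 / 100) * y ^ 2 - (11 / 100) * y * x - (7 / 20) * y * w + (13 / 50) * x ^ 2 - (2 / 25) * x * w + (1 / 50) * w ^ 2) ^ 2 := by positivity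
  have g38 : 0 ≤ (25581 / 25000 : ℝ) * a * ((7 / 100) * o * a + (2 / 25) * o * b - (91 / 100) * o * y - (1 / 20) * o * x + (1 / 100) * o * w + (1 / 20) * a ^ 2 + (1 / 25) * a * b - (3 / 50) * a * y + (17 / 100) * a * x + 1 * a * w - (1 / 50) * b ^ 2 - (9 / 100) * b * y + (27 / 100) * b * x - (13 / 25) * b * w - (6 / 25) * y ^ 2 + (2 / 5) * y * x + (1 / 10) * y * w - (11 / 100) * x ^ 2 + (21 / 100) * x * w - (1 / 50) * w ^ 2) ^ 2 := by positivity
  have g39 : 0 ≤ (26493 / 125000 : ℝ) * b * (-(7 / 20) * o * a + (7 / 10) * o * b + (23 / 100) * o * y + (21 / 100) * o * x - (1 / 100) * o * w + (1 / 10) * a ^ 2 - (14 / 25) * a * b + (7 / 25) * a * y + (17 / 50) * a * x - (21 / 100) * a * w - (7 / 50) * b ^ 2 + (99 / 100) * b * y - (51 / 100) * b * x - 1 * b * w - (17 / 50) * y ^ 2 - (1 / 4) * y * x + (43 / 100) * y * w + (27 / 50) * x ^ 2 - (4 / 25) * x * w + (1 / 100) * w ^ 2) ^ 2 := by positivity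
  have g40 : 0 ≤ (3538111 / 250000 : ℝ) * b * (-(9 / 100) * o * a - (3 / 25) * o * b + 1 * o * y + (7 / 25) * o * x - (1 / 20) * o * w - (4 / 25) * a ^ 2 + (31 / 100) * a * b - (27 / 100) * a * y - (29 / 50) * a * x - (7 / 10) * a * w + (1 / 25) * b ^ 2 + (3 / 50) * b * y + (4 / 25) * b * x + (1 / 100) * b * w + (1 / 50) * y ^ 2 - (1 / 5) * y * x + (2 / 5) * y * w - (11 / 50) * x ^ 2 - (3 / 20) * x * w + (1 / 25) * w ^ 2) ^ 2 := by positivity
  have g41 : 0 ≤ (37639 / 25000 : ℝ) * o * ((3 / 100) * o * a - (1 / 50) * o * b + (13 / 100) * o * y + (3 / 100) * o * x - (8 / 25) * a ^ 2 + (1 / 4) * a * b + (57 / 100) * a * y + 1 * a * x - (27 / 100) * a * w - (6 / 25) * b ^ 2 - (31 / 100) * b * y + (11 / 50) * b * x - (2 / 5) * b * w + (11 / 100) * y ^ 2 - (13 / 100) * y * x - (2 / 25) * y * w - (9 / 100) * x ^ 2 + (9 / 50) * x * w) ^ 2 := by positivity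
  have g42 : 0 ≤ (141 / 2500 : ℝ) * a * ((7 / 50) * o * a - (6 / 25) * o * b - 1 * o * y + (81 / 100) * o * x - (1 / 50) * o * w + (6 / 25) * a ^ 2 - (1 / 4) * a * b + (7 / 20) * a * y + (41 / 50) * a * x - (77 / 100) * a * w - (13 / 50) * b ^ 2 + (1 / 4) * b * y + (41 / 100) * b * x + (3 / 5) * b * w - (51 / 100) * y ^ 2 - (2 / 25) * y * x - (2 / 25) * y * w + (7 / 25) * x ^ 2 - (21 / 100) * x * w + (3 / 50) * w ^ 2) ^ 2 := by positivity
  have g43 : 0 ≤ (20127 / 250000 : ℝ) * a * w ^ 2 * (-(1 / 100) * o + (24 / 25) * a - 1 * b + (6 / 25) * y + (9 / 20) * x - (3 / 100) * w) ^ 2 := by positivity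
  have g44 : 0 ≤ (4625879 / 500000 : ℝ) * o ^ 2 * x * ((3 / 100) * o - (29 / 100) * a + (3 / 25) * b + 1 * y - (39 / 100) * x - (1 / 25) * w) ^ 2 := by positivity
  have g45 : 0 ≤ (1555073 / 500000 : ℝ) * a ^ 2 * x * (-(1 / 20) * o + (3 / 50) * a - (1 / 100) * b - (3 / 25) * y - (1 / 2) * x + 1 * w) ^ 2 := by positivity
  have g46 : 0 ≤ (380719 / 100000 : ℝ) * a * b * w * ((3 / 100) * o - (31 / 100) * a + (4 / 25) * b + (17 / 25) * y - 1 * x - (9 / 50) * w) ^ 2 := by positivity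
  unfold qLM2a
  linear_combination g0 + g1 + g2 + g3 + g4 + g5 + g6 + g7 + g8 + g9 + g10 + g11 + g12 + g13 + g14 + g15 + g16 + g17 + g18 + g19 + g20 + g21 + g22 + g23 + g24 + g25 + g26 + g27 + g28 + g29 + g30 + g31 + g32 + g33 + g34 + g35 + g36 + g37 + g38 + g39 + g40 + g41 + g42 + g43 + g44 + g45 + g46

end Pool.Agent.Lib.MP7ec162
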