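import Mathlib

/-!
# A part of block 2 (MP_7ec162_pr)
-/

set_option autoImplicit false
set_option maxRecDepth 100000
set_option linter.unusedVariables false

namespace Pool.Agent.Lib.MP7ec162

/-- part -/
noncomputable def qLM2b (o a b y x w : ℝ) : ℝ :=
    (55849 / 2500000000) * o ^ 4 * a + (57511 / 5000000000) * o ^ 4 * b
    + (116091 / 1000000000) * o ^ 4 * y + (2297877 / 5000000000) * o ^ 4 * x
    + (260043251 / 2500000000) * o ^ 3 * a ^ 2 - (80383143 / 250000000) * o ^ 3 * a * b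
    - (1070214847 / 1250000000) * o ^ 3 * a * y + (768757247 / 2500000000) * o ^ 3 * a * x
    + (130769559 / 5000000000) * o ^ 3 * a * w + (559501311 / 1250000000) * o ^ 3 * b ^ 2
    + (32718253 / 39062500) * o ^ 3 * b * y - (5154660143 / 2500000000) * o ^ 3 * b * x
    - (977687 / 2500000000) * o ^ 3 * b * w + (5158099947 / 2500000000) * o ^ 3 * y ^ 2
    + (1615676707 / 2500000000) * o ^ 3 * y * x + (1777321 / 1000000000) * o ^ 3 * y * w
    + (2214947543 / 625000000) * o ^ 3 * x ^ 2 - (2297877 / 2500000000) * o ^ 3 * x * w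
    + (55402861 / 500000000) * o ^ 2 * a ^ 3 - (197972197 / 1250000000) * o ^ 2 * a ^ 2 * b
    - (75998187 / 1250000000) * o ^ 2 * a ^ 2 * y + (5945566823 / 5000000000) * o ^ 2 * a ^ 2 * x
    + (1743321471 / 5000000000) * o ^ 2 * a ^ 2 * w + (1290027591 / 2500000000) * o ^ 2 * a * b ^ 2
    - (7397162757 / 2500000000) * o ^ 2 * a * b * y - (12046188391 / 2500000000) * o ^ 2 * a * b * x
    + (661206319 / 625000000) * o ^ 2 * a * b * w - (2073616341 / 1250000000) * o ^ 2 * a * y ^ 2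
    - (3516171463 / 2500000000) * o ^ 2 * a * y * x - (958301019 / 250000000) * o ^ 2 * a * y * w
    + (651155613 / 312500000) * o ^ 2 * a * x ^ 2 - (15827400273 / 2500000000) * o ^ 2 * a * x * w
    - (62851067 / 1250000000) * o ^ 2 * a * w ^ 2 - (314347411 / 625000000) * o ^ 2 * b ^ 3
    + (2811784409 / 1000000000) * o ^ 2 * b ^ 2 * y + (13866598701 / 5000000000) * o ^ 2 * b ^ 2 * x
    + (253289463 / 312500000) * o ^ 2 * b ^ 2 * w + (8431431211 / 5000000000) * o ^ 2 * b * y ^ 2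
    + (3486166573 / 2500000000) * o ^ 2 * b * y * x - (1174202413 / 312500000) * o ^ 2 * b * y * w
    + (3684685189 / 1250000000) * o ^ 2 * b * x ^ 2 - (2560203779 / 500000000) * o ^ 2 * b * x * w
    + (17655877 / 5000000000) * o ^ 2 * b * w ^ 2 + (36182308683 / 5000000000) * o ^ 2 * y ^ 3
    + (39443858891 / 5000000000) * o ^ 2 * y ^ 2 * x + (5357011941 / 2500000000) * o ^ 2 * y ^ 2 * w
    + (3386101263 / 5000000000) * o ^ 2 * y * x ^ 2 + (699271829 / 125000000) * o ^ 2 * y * x * w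
    - (27474631 / 5000000000) * o ^ 2 * y * w ^ 2 - (4099451641 / 5000000000) * o ^ 2 * x ^ 3
    + (2631223907 / 1000000000) * o ^ 2 * x ^ 2 * w + (474163 / 1000000000) * o ^ 2 * x * w ^ 2
    + (17632651 / 125000000) * o * a ^ 4 - (1451523937 / 2500000000) * o * a ^ 3 * b
    - (1049487113 / 2500000000) * o * a ^ 3 * y + (298924643 / 625000000) * o * a ^ 3 * x
    + (904050659 / 625000000) * o * a ^ 3 * w + (3746734841 / 2500000000) * o * a ^ 2 * b ^ 2
    + (473559407 / 312500000) * o * a ^ 2 * b * y + (871730347 / 625000000) * o * a ^ 2 * b * x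
    + (3323553437 / 2500000000) * o * a ^ 2 * b * w + (2766719327 / 5000000000) * o * a ^ 2 * y ^ 2
    - (3804330779 / 1250000000) * o * a ^ 2 * y * x - (36179683257 / 5000000000) * o * a ^ 2 * y * w
    + (21609801983 / 5000000000) * o * a ^ 2 * x ^ 2 + (8868682551 / 625000000) * o * a ^ 2 * x * w
    + (21579144507 / 5000000000) * o * a ^ 2 * w ^ 2 - (3113635663 / 2500000000) * o * a * b ^ 3
    - (302477837 / 250000000) * o * a * b ^ 2 * y - (1849450309 / 250000000) * o * a * b ^ 2 * x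
    + (988709641 / 1000000000) * o * a * b ^ 2 * w - (4699380813 / 625000000) * o * a * b * y ^ 2
    - (3171369713 / 1250000000) * o * a * b * y * x + (4958369171 / 2500000000) * o * a * b * y * w
    + (726856309 / 312500000) * o * a * b * x ^ 2 - (6252260441 / 312500000) * o * a * b * x * w
    + (11375756449 / 2500000000) * o * a * b * w ^ 2 + (12674807569 / 2500000000) * o * a * y ^ 3
    + (3468401383 / 2500000000) * o * a * y ^ 2 * x - (13696136517 / 5000000000) * o * a * y ^ 2 * w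
    - (4313106741 / 1250000000) * o * a * y * x ^ 2 - (73884563401 / 2500000000) * o * a * y * x * w
    - (6627789881 / 1250000000) * o * a * y * w ^ 2 + (565573471 / 250000000) * o * a * x ^ 3
    + (5977394667 / 250000000) * o * a * x ^ 2 * w - (2421967791 / 2500000000) * o * a * x * w ^ 2
    + (122145787 / 5000000000) * o * a * w ^ 3 + (1220395963 / 2500000000) * o * b ^ 4
    - (917900211 / 1250000000) * o * b ^ 3 * y + (3630921723 / 1250000000) * o * b ^ 3 * x
    - (1124212633 / 625000000) * o * b ^ 3 * w + (12584303327 / 2500000000) * o * b ^ 2 * y ^ 2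
    - (1338744469 / 2500000000) * o * b ^ 2 * y * x + (1110030887 / 500000000) * o * b ^ 2 * y * w
    - (8090710999 / 5000000000) * o * b ^ 2 * x ^ 2 + (42997017 / 500000000) * o * b ^ 2 * x * w
    + (2022263467 / 1000000000) * o * b ^ 2 * w ^ 2 - (249715299 / 500000000) * o * b * y ^ 3
    + (1580168371 / 312500000) * o * b * y ^ 2 * x - (15688159419 / 2500000000) * o * b * y ^ 2 * w
    - (2039120797 / 2500000000) * o * b * y * x ^ 2 + (1011723269 / 2500000000) * o * b * y * x * w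
    - (1729356393 / 625000000) * o * b * y * w ^ 2 + (1627933029 / 2500000000) * o * b * x ^ 3
    + (3300244153 / 2500000000) * o * b * x ^ 2 * w - (1323087243 / 625000000) * o * b * x * w ^ 2
    - (8799183 / 2500000000) * o * b * w ^ 3 + (1390711017 / 500000000) * o * y ^ 4
    + (1774729647 / 1250000000) * o * y ^ 3 * x + (21984711447 / 5000000000) * o * y ^ 3 * w
    - (2253497453 / 1000000000) * o * y ^ 2 * x ^ 2 + (11892700927 / 2500000000) * o * y ^ 2 * x * w
    + (87273723 / 50000000) * o * y ^ 2 * w ^ 2 + (468586919 / 2500000000) * o * y * x ^ 3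
    - (38528273 / 500000000) * o * y * x ^ 2 * w + (1899287641 / 2500000000) * o * y * x * w ^ 2
    + (6079013 / 1250000000) * o * y * w ^ 3 - (44911039 / 2500000000) * o * x ^ 4
    - (370648887 / 500000000) * o * x ^ 3 * w + (4237591317 / 5000000000) * o * x ^ 2 * w ^ 2
    - (36469 / 1250000000) * o * x * w ^ 3 + (11184057 / 625000000) * a ^ 5
    - (271569593 / 5000000000) * a ^ 4 * b + (150514419 / 5000000000) * a ^ 4 * y
    + (6072137 / 12500000) * a ^ 4 * x - (263425353 / 5000000000) * a ^ 4 * w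
    + (36486551 / 2500000000) * a ^ 3 * b ^ 2 - (3770257 / 156250000) * a ^ 3 * b * y
    - (596752507 / 312500000) * a ^ 3 * b * x - (78702713 / 2500000000) * a ^ 3 * b * w
    - (34426217 / 2500000000) * a ^ 3 * y ^ 2 + (1040014363 / 625000000) * a ^ 3 * y * x
    + (14491943 / 2500000000) * a ^ 3 * y * w - (562251327 / 625000000) * a ^ 3 * x ^ 2
    - (1176844507 / 625000000) * a ^ 3 * x * w + (11650043 / 250000000) * a ^ 3 * w ^ 2
    + (230361131 / 5000000000) * a ^ 2 * b ^ 3 + (6149593561 / 5000000000) * a ^ 2 * b ^ 2 * y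
    + (16571850563 / 5000000000) * a ^ 2 * b ^ 2 * x + (412989073 / 2500000000) * a ^ 2 * b ^ 2 * w
    - (13940122349 / 5000000000) * a ^ 2 * b * y ^ 2
    - (10040622597 / 2500000000) * a ^ 2 * b * y * x + (1295898711 / 500000000) * a ^ 2 * b * y * w
    + (5472054643 / 1250000000) * a ^ 2 * b * x ^ 2 + (19974169063 / 2500000000) * a ^ 2 * b * x * w
    + (973356611 / 5000000000) * a ^ 2 * b * w ^ 2 + (759126313 / 500000000) * a ^ 2 * y ^ 3
    + (152940891 / 125000000) * a ^ 2 * y ^ 2 * x - (8009544783 / 2500000000) * a ^ 2 * y ^ 2 * w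
    - (5309625723 / 5000000000) * a ^ 2 * y * x ^ 2 - (1513450159 / 312500000) * a ^ 2 * y * x * w
    + (8203421699 / 5000000000) * a ^ 2 * y * w ^ 2 + (7336016027 / 2500000000) * a ^ 2 * x ^ 3
    + (16672193437 / 2500000000) * a ^ 2 * x ^ 2 * w
    + (11625134859 / 2500000000) * a ^ 2 * x * w ^ 2 - (18220689 / 5000000000) * a ^ 2 * w ^ 3
    + (1344829 / 250000000) * a * b ^ 4 - (21197127 / 250000000) * a * b ^ 3 * y
    - (4800198623 / 2500000000) * a * b ^ 3 * x + (189360387 / 1250000000) * a * b ^ 3 * w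
    - (294804501 / 156250000) * a * b ^ 2 * y ^ 2 + (7212896377 / 2500000000) * a * b ^ 2 * y * x
    + (2801813629 / 2500000000) * a * b ^ 2 * y * w + (4862392321 / 2500000000) * a * b ^ 2 * x ^ 2
    - (8957641809 / 1250000000) * a * b ^ 2 * x * w + (472609947 / 2500000000) * a * b ^ 2 * w ^ 2
    + (146384871 / 50000000) * a * b * y ^ 3 - (1741267121 / 312500000) * a * b * y ^ 2 * x
    - (10347548937 / 2500000000) * a * b * y ^ 2 * w - (3667918463 / 625000000) * a * b * y * x ^ 2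
    + (3727517949 / 625000000) * a * b * y * x * w + (2614826077 / 2500000000) * a * b * y * w ^ 2
    + (6784948469 / 2500000000) * a * b * x ^ 3 + (934001233 / 1250000000) * a * b * x ^ 2 * w
    - (14008408969 / 2500000000) * a * b * x * w ^ 2 - (3655259 / 312500000) * a * b * w ^ 3
    - (32170939 / 39062500) * a * y ^ 4 + (6282281531 / 2500000000) * a * y ^ 3 * x
    + (11052508087 / 5000000000) * a * y ^ 3 * w + (6256084491 / 2500000000) * a * y ^ 2 * x ^ 2
    - (2130521743 / 500000000) * a * y ^ 2 * x * w - (3216147169 / 2500000000) * a * y ^ 2 * w ^ 2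
    + (1845789013 / 500000000) * a * y * x ^ 3 - (12353903 / 7812500) * a * y * x ^ 2 * w
    + (3215364573 / 2500000000) * a * y * x * w ^ 2 + (1138246319 / 5000000000) * a * y * w ^ 3
    - (1738274817 / 2500000000) * a * x ^ 4 - (376553813 / 625000000) * a * x ^ 3 * w
    + (88652767 / 156250000) * a * x ^ 2 * w ^ 2 - (3350777 / 2500000000) * a * x * w ^ 3
    + (55849 / 625000000) * a * w ^ 4 + (57511 / 1250000000) * b ^ 5
    + (168799 / 200000000) * b ^ 4 * y + (48475839 / 156250000) * b ^ 4 * x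
    + (439483 / 50000000) * b ^ 4 * w + (337438047 / 5000000000) * b ^ 3 * y ^ 2
    + (1452322711 / 2500000000) * b ^ 3 * y * x + (251884429 / 1250000000) * b ^ 3 * y * w
    - (1196909313 / 1000000000) * b ^ 3 * x ^ 2 + (1676711919 / 1250000000) * b ^ 3 * x * w
    + (9542791 / 78125000) * b ^ 3 * w ^ 2 + (1114828831 / 1250000000) * b ^ 2 * y ^ 3
    - (4356161337 / 5000000000) * b ^ 2 * y ^ 2 * x - (2274991221 / 1250000000) * b ^ 2 * y ^ 2 * w
    - (200501291 / 156250000) * b ^ 2 * y * x ^ 2 + (5656512347 / 2500000000) * b ^ 2 * y * x * w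
    + (1288139827 / 1250000000) * b ^ 2 * y * w ^ 2 + (7339102257 / 5000000000) * b ^ 2 * x ^ 3
    - (7615288773 / 2500000000) * b ^ 2 * x ^ 2 * w + (569992983 / 312500000) * b ^ 2 * x * w ^ 2
    - (86555241 / 5000000000) * b ^ 2 * w ^ 3 - (853437577 / 1250000000) * b * y ^ 4
    + (439857717 / 1250000000) * b * y ^ 3 * x + (394886323 / 250000000) * b * y ^ 3 * w
    - (1497454873 / 5000000000) * b * y ^ 2 * x ^ 2 - (564715731 / 625000000) * b * y ^ 2 * x * w
    - (147797443 / 125000000) * b * y ^ 2 * w ^ 2 + (551563519 / 500000000) * b * y * x ^ 3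
    - (2790193593 / 2500000000) * b * y * x ^ 2 * w + (382749809 / 1250000000) * b * y * x * w ^ 2
    + (67545587 / 250000000) * b * y * w ^ 3 - (257161977 / 500000000) * b * x ^ 4
    + (34872533 / 39062500) * b * x ^ 3 * w - (1616766883 / 5000000000) * b * x ^ 2 * w ^ 2
    - (2211651 / 625000000) * b * x * w ^ 3 + (4658391 / 5000000000) * b * w ^ 4
    + (318684869 / 2500000000) * y ^ 5 - (76153393 / 2500000000) * y ^ 4 * x
    - (743697619 / 2500000000) * y ^ 4 * w + (965796497 / 5000000000) * y ^ 3 * x ^ 2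
    + (196700227 / 2500000000) * y ^ 3 * x * w + (911106057 / 5000000000) * y ^ 3 * w ^ 2
    + (1514399 / 125000000) * y ^ 2 * x ^ 3 - (473220091 / 2500000000) * y ^ 2 * x ^ 2 * w
    + (49494479 / 5000000000) * y ^ 2 * x * w ^ 2 + (34021009 / 5000000000) * y ^ 2 * w ^ 3
    - (732575363 / 5000000000) * y * x ^ 4 + (434018617 / 2500000000) * y * x ^ 3 * w
    - (5655849 / 125000000) * y * x ^ 2 * w ^ 2 - (525693 / 625000000) * y * x * w ^ 3
    + (699223 / 2500000000) * y * w ^ 4 + (278334869 / 5000000000) * x ^ 5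
    - (303477077 / 5000000000) * x ^ 4 * w + (10771301 / 625000000) * x ^ 3 * w ^ 2
    - (997861 / 5000000000) * x ^ 2 * w ^ 3 + (36469 / 2500000000) * x * w ^ 4

theorem qLM2b_nonneg (o a b y x w : ℝ) (ho : 0 ≤ o) (ha : 0 ≤ a) (hb : 0 ≤ b) (hy : 0 ≤ y)
    (hx : 0 ≤ x) (hw : 0 ≤ w) :
    0 ≤ qLM2b o a b y x w := by
  have g0 : 0 ≤ (77481 / 500000 : ℝ) * o * (-(23 / 100) * o * a + (8 / 25) * o * b + 1 * o * y + (9 / 100) * o * x - (17 / 100) * a ^ 2 - (13 / 100) * a * b + (11 / 100) * a * y + (1 / 25) * a * x - (2 / 5) * a * w + (7 / 100) * b ^ 2 - (11 / 100) * b * y + (1 / 5) * b * x - (8 / 25) * b * w + (43 / 100) * y ^ 2 + (1 / 25) * y * x + (7 / 100) * y * w + (13 / 100) * x ^ 2 + (3 / 50) * x * w) ^ 2 := by positivity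
  have g1 : 0 ≤ (15993 / 20000 : ℝ) * o ^ 2 * y * (-(1 / 100) * o + (1 / 25) * a - (21 / 50) * b + 1 * y - (3 / 25) * x + (1 / 100) * w) ^ 2 := by positivity
  have g2 : 0 ≤ (1171153 / 500000 : ℝ) * o * a ^ 2 * ((1 / 100) * a - (1 / 25) * b - (39 / 100) * y + 1 * x + (11 / 50) * w) ^ 2 := by positivity
  have g3 : 0 ≤ (98303 / 500000 : ℝ) * o * y * w * ((11 / 100) * o + (17 / 100) * a - (23 / 50) * b + (17 / 100) * y + 1 * x - (9 / 50) * w) ^ 2 := by positivity
  have g4 : 0 ≤ (275637 / 500000 : ℝ) * o * ((3 / 100) * o * a - (21 / 100) * o * y - (3 / 20) * o * x - (3 / 25) * a ^ 2 + (7 / 25) * a * b + (24 / 25) * a * y - (23 / 25) * a * x + (12 / 25) * a * w - (7 / 100) * b ^ 2 - (93 / 100) * b * y + (1 / 5) * b * x - (23 / 50) * b * w + (37 / 100) * y ^ 2 - (1 / 50) * y * x - 1 * y * w - (27 / 100) * x ^ 2 + (18 / 25) * x * w) ^ 2 := by positivity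
  have g5 : 0 ≤ (11709 / 15625 : ℝ) * o ^ 2 * w * (-(13 / 50) * a - (2 / 5) * b + 1 * y + (23 / 50) * x) ^ 2 := by positivity
  have g6 : 0 ≤ (167007 / 500000 : ℝ) * a * y * x * (-(4 / 25) * o - (1 / 50) * a + (27 / 50) * b - 1 * y + (31 / 50) * x + (1 / 10) * w) ^ 2 := by positivity
  have g7 : 0 ≤ (18837 / 100000 : ℝ) * o * (-(1 / 10) * o * a + (4 / 25) * o * b + (7 / 50) * o * y + (29 / 50) * o * x + (1 / 50) * a ^ 2 - (7 / 20) * a * b + (21 / 100) * a * y - (13 / 100) * a * x - 1 * a * w + (2 / 25) * b ^ 2 + (3 / 10) * b * y + (7 / 100) * b * x - (29 / 50) * b * w + (13 / 25) * y ^ 2 + (13 / 100) * y * x + (29 / 100) * y * w - (11 / 100) * x ^ 2) ^ 2 := by positivity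
  have g8 : 0 ≤ (57511 / 500000 : ℝ) * b * (-(1 / 100) * o ^ 2 + (9 / 50) * o * a - (9 / 50) * o * b - (7 / 20) * o * y - (17 / 50) * o * x + (17 / 100) * o * w - (17 / 100) * a ^ 2 + (47 / 100) * a * b - (1 / 4) * a * y - (1 / 5) * a * x + (1 / 20) * a * w + (1 / 50) * b ^ 2 - (17 / 100) * b * y - (41 / 100) * b * x + 1 * b * w + (1 / 50) * y ^ 2 + (13 / 100) * y * x - (1 / 10) * y * w - (2 / 25) * x ^ 2 + (7 / 100) * x * w - (9 / 100) * w ^ 2) ^ 2 := by positivity
  have g9 : 0 ≤ (55849 / 250000 : ℝ) * a * ((1 / 100) * o ^ 2 - (6 / 25) * o * a + (1 / 50) * o * b + (11 / 20) * o * y + (49 / 100) * o * x - (7 / 100) * o * w + (13 / 50) * a ^ 2 - (2 / 5) * a * b + (1 / 4) * a * y + 1 * a * x - (9 / 20) * a * w - (3 / 25) * b ^ 2 - (33 / 100) * b * y + (9 / 50) * b * x - (47 / 50) * b * w + (1 / 5) * y ^ 2 + (37 / 50) * y * x - (9 / 50) * y * w + (49 / 100) * x ^ 2 + (3 / 100) * x * w + (1 / 50) * w ^ 2) ^ 2 := by positivity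
  have g10 : 0 ≤ (1434543 / 500000 : ℝ) * y * (-(33 / 100) * o * a + (11 / 20) * o * b + 1 * o * y + (33 / 100) * o * x - (1 / 50) * a ^ 2 - (63 / 100) * a * b + (7 / 10) * a * y - (49 / 100) * a * x - (61 / 100) * a * w + (1 / 50) * b ^ 2 + (14 / 25) * b * y - (29 / 100) * b * x - (19 / 50) * b * w - (21 / 100) * y ^ 2 + (1 / 20) * y * x + (6 / 25) * y * w - (1 / 20) * x ^ 2 - (1 / 100) * x * w) ^ 2 := by positivity
  have g11 : 0 ≤ (353 / 10000 : ℝ) * o * a * w * (-(13 / 25) * o + (9 / 50) * a + (33 / 100) * b - (31 / 50) * y + 1 * x + (12 / 25) * w) ^ 2 := by positivity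
  have g12 : 0 ≤ (81321 / 250000 : ℝ) * o * (-(3 / 20) * o * b + (3 / 50) * o * y + (3 / 100) * o * x + (2 / 5) * a ^ 2 - (31 / 50) * a * b - (53 / 100) * a * y + 1 * a * x - (2 / 25) * a * w - (19 / 100) * b ^ 2 + (43 / 50) * b * y + (11 / 25) * b * x + (6 / 25) * b * w - (41 / 100) * y ^ 2 + (1 / 2) * y * x - (13 / 100) * y * w + (1 / 10) * x ^ 2 + (1 / 5) * x * w) ^ 2 := by positivity
  have g13 : 0 ≤ (39099 / 15625 : ℝ) * a * y * x * (-(3 / 100) * o - (11 / 25) * a + 1 * b - (21 / 25) * y - (4 / 5) * x + (77 / 100) * w) ^ 2 := by positivity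
  have g14 : 0 ≤ (36469 / 250000 : ℝ) * x * (-(1 / 10) * o * a + (47 / 100) * o * b + (91 / 100) * o * y + (1 / 20) * o * x - (1 / 100) * o * w - 1 * a ^ 2 + (39 / 50) * a * b + (17 / 100) * a * y - (13 / 100) * a * x - (29 / 50) * a * w + (1 / 10) * b ^ 2 - (1 / 4) * b * y + (1 / 10) * b * x - (63 / 100) * b * w + (23 / 100) * y ^ 2 - (23 / 100) * y * x + (6 / 25) * y * w + (1 / 50) * x ^ 2 - (7 / 100) * x * w + (1 / 100) * w ^ 2) ^ 2 := by positivity
  have g15 : 0 ≤ (2297877 / 500000 : ℝ) * x * ((1 / 100) * o ^ 2 + (19 / 100) * o * a - (53 / 100) * o * b - (27 / 100) * o * y + (37 / 100) * o * x - (1 / 100) * o * w - (1 / 5) * a ^ 2 + (79 / 100) * a * b - (27 / 50) * a * y + (37 / 50) * a * x + 1 * a * w - (13 / 50) * b ^ 2 - (1 / 4) * b * y + (51 / 100) * b * x - (31 / 50) * b * w + (2 / 25) * y ^ 2 + (4 / 25) * y * x - (7 / 100) * y * w - (11 / 100) * x ^ 2 + (3 / 50) * x * w) ^ 2 := by positivity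
  have g16 : 0 ≤ (4453 / 31250 : ℝ) * a ^ 3 * (-(3 / 100) * o + (7 / 50) * a - (7 / 25) * b - (9 / 100) * y + 1 * x - (3 / 100) * w) ^ 2 := by positivity
  have g17 : 0 ≤ (52619 / 250000 : ℝ) * o * b * y * ((17 / 100) * o - (33 / 50) * a + 1 * b - (16 / 25) * y - (11 / 100) * x - (1 / 50) * w) ^ 2 := by positivity
  have g18 : 0 ≤ (14921 / 50000 : ℝ) * b * y * w * ((21 / 25) * o + (37 / 100) * a - (24 / 25) * b + 1 * y + (17 / 100) * x - (97 / 100) * w) ^ 2 := by positivity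
  have g19 : 0 ≤ (368579 / 500000 : ℝ) * o * (-(3 / 25) * o * a + (7 / 25) * o * b + (23 / 100) * o * y - (9 / 20) * o * x + (11 / 100) * a ^ 2 - (21 / 100) * a * b - (23 / 50) * a * y + (33 / 50) * a * x - (7 / 50) * a * w - (6 / 25) * b ^ 2 + (1 / 100) * b * y + (12 / 25) * b * x + (19 / 100) * b * w + 1 * y ^ 2 + (1 / 50) * y * x - (19 / 100) * y * w - (7 / 25) * x ^ 2 + (1 / 25) * x * w) ^ 2 := by positivity
  have g20 : 0 ≤ (306249 / 500000 : ℝ) * a * y * w * ((1 / 2) * o - (8 / 25) * a - (3 / 25) * b + (99 / 100) * y - 1 * x - (47 / 100) * w) ^ 2 := by positivity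
  have g21 : 0 ≤ (9400859 / 500000 : ℝ) * o * a * w * (-(3 / 100) * o + (8 / 25) * a - (21 / 100) * b - (67 / 100) * y + 1 * x + (3 / 100) * w) ^ 2 := by positivity
  have g22 : 0 ≤ (295379 / 100000 : ℝ) * o * (-(1 / 50) * o * a - (11 / 50) * o * b + (19 / 50) * o * y + (99 / 100) * o * x + (13 / 100) * a ^ 2 - (59 / 100) * a * b + (1 / 25) * a * y + (4 / 25) * a * x - (99 / 100) * a * w + (19 / 50) * b ^ 2 - (9 / 20) * b * y + (41 / 50) * b * x - (37 / 50) * b * w + 1 * y ^ 2 + (8 / 25) * y * x + (63 / 100) * y * w - (29 / 100) * x ^ 2 + (43 / 100) * x * w) ^ 2 := by positivity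
  have g23 : 0 ≤ (152227 / 500000 : ℝ) * y * (-(1 / 100) * o ^ 2 - (3 / 50) * o * a - (4 / 25) * o * b + (47 / 50) * o * y + (7 / 50) * o * x + (2 / 25) * o * w + (1 / 10) * a ^ 2 - (43 / 100) * a * b + (23 / 50) * a * y + (4 / 25) * a * x - 1 * a * w + (3 / 100) * b ^ 2 - (4 / 25) * b * y + (11 / 25) * b * x + (13 / 50) * b * w + (1 / 25) * y ^ 2 - (23 / 100) * y * x - (4 / 25) * y * w + (9 / 100) * x ^ 2 + (1 / 10) * x * w - (3 / 100) * w ^ 2) ^ 2 := by positivity
  have g24 : 0 ≤ (23271 / 500000 : ℝ) * w * ((21 / 100) * o * a - (47 / 50) * o * b - (3 / 25) * o * y + (89 / 100) * o * x - (13 / 100) * a ^ 2 + (13 / 50) * a * b + (2 / 5) * a * y + (16 / 25) * a * x + (9 / 100) * a * w - (3 / 10) * b ^ 2 - (21 / 50) * b * y + 1 * b * x - (27 / 100) * b * w - (1 / 50) * y ^ 2 - (4 / 25) * y * x + (27 / 100) * y * w - (9 / 100) * x ^ 2 + (1 / 100) * x * w) ^ 2 := by positivity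
  have g25 : 0 ≤ (18249 / 250000 : ℝ) * a * y * w * (-(59 / 100) * o + (27 / 100) * a - (1 / 10) * b - (1 / 50) * y - (29 / 50) * x + 1 * w) ^ 2 := by positivity
  have g26 : 0 ≤ (28403 / 500000 : ℝ) * y * (-(1 / 100) * o ^ 2 - (3 / 100) * o * a - (3 / 50) * o * b + (13 / 20) * o * y + (16 / 25) * o * x - (1 / 25) * o * w + (9 / 100) * a ^ 2 - (41 / 100) * a * b + (1 / 50) * a * y - (4 / 25) * a * x + (19 / 50) * a * w + (3 / 50) * b ^ 2 + (2 / 5) * b * y - (9 / 100) * b * x - 1 * b * w - (9 / 100) * y ^ 2 + (17 / 100) * y * x + (43 / 100) * y * w - (7 / 20) * x ^ 2 + (3 / 100) * x * w + (1 / 100) * w ^ 2) ^ 2 := by positivity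
  have g27 : 0 ≤ (359009 / 250000 : ℝ) * o * (-(6 / 25) * o * a + (39 / 100) * o * b + 1 * o * y - (13 / 25) * o * x - (9 / 50) * a ^ 2 - (3 / 25) * a * b + (31 / 100) * a * y - (39 / 100) * a * x - (63 / 100) * a * w + (1 / 20) * b ^ 2 + (11 / 50) * b * y + (1 / 100) * b * x - (13 / 50) * b * w + (11 / 50) * y ^ 2 - (3 / 100) * y * x - (1 / 10) * y * w - (3 / 100) * x ^ 2 - (3 / 50) * x * w) ^ 2 := by positivity
  unfold qLM2b
  linear_combination g0 + g1 + g2 + g3 + g4 + g5 + g6 + g7 + g8 + g9 + g10 + g11 + g12 + g13 + g14 + g15 + g16 + g17 + g18 + g19 + g20 + g21 + g22 + g23 + g24 + g25 + g26 + g27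

end Pool.Agent.Lib.MP7ec162
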