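import Pool.Agent.Lib.MP_7ec162_pr.LW.KLMDef
import Pool.Agent.Lib.MP_7ec162_pr.LW.MLM2a
import Pool.Agent.Lib.MP_7ec162_pr.LW.MLM2b
import Pool.Agent.Lib.MP_7ec162_pr.LW.MLM2c
import Pool.Agent.Lib.MP_7ec162_pr.LW.MLM2d
import Pool.Agent.Lib.MP_7ec162_pr.LW.MLM2e
import Pool.Agent.Lib.MP_7ec162_pr.LW.MLM2f
import Pool.Agent.Lib.MP_7ec162_pr.LW.MLM2g
import Pool.Agent.Lib.MP_7ec162_pr.LW.MLM2r

/-!
# Block 2 (MP_7ec162_pr)
-/

set_option autoImplicit false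
set_option maxRecDepth 100000
set_option linter.unusedVariables false

namespace Pool.Agent.Lib.MP7ec162

theorem twoLM (o a b y x w : ℝ) (ho : 0 ≤ o) (ha : 0 ≤ a) (hb : 0 ≤ b) (hy : 0 ≤ y)
    (hx : 0 ≤ x) (hw : 0 ≤ w) :
    0 ≤ 20 * aLM o a b y x w + (o + a + b + y + x + w) * bLM o a b y x w -
      20 * iLM o a b y x w + (o + a + b + y + x + w) * jLM o a b y x w := by
  have hqLM2a := qLM2a_nonneg o a b y x w ho ha hb hy hx hw
  have hqLM2b := qLM2b_nonneg o a b y x w ho ha hb hy hx hw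
  have hqLM2c := qLM2c_nonneg o a b y x w ho ha hb hy hx hw
  have hqLM2d := qLM2d_nonneg o a b y x w ho ha hb hy hx hw
  have hqLM2e := qLM2e_nonneg o a b y x w ho ha hb hy hx hw
  have hqLM2f := qLM2f_nonneg o a b y x w ho ha hb hy hx hw
  have hqLM2g := qLM2g_nonneg o a b y x w ho ha hb hy hx hw
  have hqLM2r := qLM2r_nonneg o a b y x w ho ha hb hy hx hw
  unfold qLM2a at hqLM2a
  unfold qLM2b at hqLM2b
  unfold qLM2c at hqLM2c
  unfold qLM2d at hqLM2d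
  unfold qLM2e at hqLM2e
  unfold qLM2f at hqLM2f
  unfold qLM2g at hqLM2g
  unfold qLM2r at hqLM2r
  unfold aLM bLM iLM jLM
  linear_combination hqLM2a + hqLM2b + hqLM2c + hqLM2d + hqLM2e + hqLM2f + hqLM2g + hqLM2r

end Pool.Agent.Lib.MP7ec162
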