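import Pool.Agent.Lib.MP_7ec162_pr.Levels2
import Pool.Agent.Lib.MP_7ec162_pr.LW.KLMOne
import Pool.Agent.Lib.MP_7ec162_pr.LW.KLMTwo
import Pool.Agent.Lib.MP_7ec162_pr.LW.KLMThr
import Pool.Agent.Lib.MP_7ec162_pr.LW.KLMEa
import Pool.Agent.Lib.MP_7ec162_pr.LW.KLMEb

/-!
# The lower certificate with three levels (MP_7ec162_pr)
-/

set_option autoImplicit false
set_option maxRecDepth 100000

namespace Pool.Agent.Lib.MP7ec162

theorem sumLM (o a b y x w : ℝ) : cpLM o a b y x w - wqLM o a b y x w =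
    aLM o a b y x w + bLM o a b y x w + rLM o a b y x w := by
  unfold cpLM wqLM aLM bLM rLM
  unfold wqLM_0 wqLM_1 wqLM_2 wqLM_3 wqLM_4 wqLM_5 wqLM_6 wqLM_7 wqLM_8 wqLM_9 wqLM_10 wqLM_11 wqLM_12 wqLM_13 wqLM_14
  ring

theorem expLM (N o a b y x w : ℝ) (hN : N = o + a + b + y + x + w) :
    2 * y * (o + a + b) * (N ^ 3 + (phLM N (o + a + b + y + x) (o + a + b + y) ((o + a + b) + 1) - phLM N (o + a + b + y + x) (o + a + b + y) (o + a + b)) +
        (phLM N (o + a + b + y) ((o + a + b) + 1) (o + a) - phLM N (o + a + b + y) (o + a + b) (o + a)) +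
        (phLM N ((o + a + b) + 1) (o + a) o - phLM N (o + a + b) (o + a) o)) +
      y * (y - 1) * (2 * N ^ 3 + (phLM N (o + a + b + y + x) (o + a + b + y) ((o + a + b) + 2) - phLM N (o + a + b + y + x) (o + a + b + y) (o + a + b)) +
        (phLM N (o + a + b + y) ((o + a + b) + 2) (o + a) - phLM N (o + a + b + y) (o + a + b) (o + a)) +
        (phLM N ((o + a + b) + 2) (o + a) o - phLM N (o + a + b) (o + a) o)) -
      whLM N (o + a + b + y + x) (o + a + b + y) (o + a + b) (o + a) + whLM N (o + a + b + y) (o + a + b) (o + a) o =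
    aLM o a b y x w + bLM o a b y x w + rLM o a b y x w := by
  have h1 := cpeLM N o a b y x w hN
  have h2 := wqeLM N o a b y x w hN
  have h3 := sumLM o a b y x w
  linear_combination h1 - h2 + h3

theorem keyLM (N o a b y x w : ℝ) (ho : 0 ≤ o) (ha : 0 ≤ a) (hb : 0 ≤ b) (hy : 0 ≤ y)
    (hx : 0 ≤ x) (hw : 0 ≤ w)
    (ka : 0 ≤ a * (a - 1))
    (kb : 0 ≤ b * (b - 1))
    (ky : 0 ≤ y * (y - 1))
    (kx : 0 ≤ x * (x - 1))
    (kw : 0 ≤ w * (w - 1))
    (ko2 : 0 ≤ o * (o - 2))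
    (kp2 : 0 ≤ (o + a) * (o + a - 2))
    (kq2 : 0 ≤ (o + a + b) * (o + a + b - 2))
    (kr2 : 0 ≤ (o + a + b + y) * (o + a + b + y - 2))
    (hN : N = o + a + b + y + x + w) (h20 : 20 ≤ N) :
    0 ≤ 2 * y * (o + a + b) * (N ^ 3 + (phLM N (o + a + b + y + x) (o + a + b + y) ((o + a + b) + 1) - phLM N (o + a + b + y + x) (o + a + b + y) (o + a + b)) +
        (phLM N (o + a + b + y) ((o + a + b) + 1) (o + a) - phLM N (o + a + b + y) (o + a + b) (o + a)) +
        (phLM N ((o + a + b) + 1) (o + a) o - phLM N (o + a + b) (o + a) o)) +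
      y * (y - 1) * (2 * N ^ 3 + (phLM N (o + a + b + y + x) (o + a + b + y) ((o + a + b) + 2) - phLM N (o + a + b + y + x) (o + a + b + y) (o + a + b)) +
        (phLM N (o + a + b + y) ((o + a + b) + 2) (o + a) - phLM N (o + a + b + y) (o + a + b) (o + a)) +
        (phLM N ((o + a + b) + 2) (o + a) o - phLM N (o + a + b) (o + a) o)) -
      whLM N (o + a + b + y + x) (o + a + b + y) (o + a + b) (o + a) + whLM N (o + a + b + y) (o + a + b) (o + a) o := by
  rw [expLM N o a b y x w hN]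
  have h1 := oneLM o a b y x w ho ha hb hy hx hw
  have h2 := twoLM o a b y x w ho ha hb hy hx hw
  have h3 := thrLM o a b y x w ho ha hb hy hx hw ka kb ky kx kw ko2 kp2 kq2 kr2
  have h4 := resLM o a b y x w ho ha hb hy hx hw
  have hN0 : (0 : ℝ) < N := by linarith
  rw [← hN] at h2
  generalize aLM o a b y x w = aa at *
  generalize bLM o a b y x w = bb at *
  generalize iLM o a b y x w = ii at *
  generalize jLM o a b y x w = jj at *
  generalize rLM o a b y x w = rr at *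
  have h5 : 0 ≤ N * (aa + bb + rr) := by
    have h6 := mul_nonneg (by linarith : (0 : ℝ) ≤ N - 20) h1
    have h7 := mul_nonneg hN0.le h3
    have h8 := mul_nonneg hN0.le h4
    linear_combination h6 + h2 + h7 + h8
  exact nonneg_of_mul_nonneg_right h5 hN0

/-- The lower bound. -/
theorem lower_five {N : ℕ} (hN : 20 ≤ N) {V : ℝ} (hV : IsSpeed N V) :
    ((12413219 / 10000000) * (N : ℝ) ^ 4 - (9888929 / 10000000) * (N : ℝ) ^ 3 - (47871 / 50000) * (N : ℝ) ^ 2 - (4) * N - (197 / 100)) /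
      ((N : ℝ) ^ 3 * (N - 1)) ≤ V := by
  have h20 : (20 : ℝ) ≤ N := by exact_mod_cast hN
  have hN0 : (0 : ℝ) < N := by linarith
  have hN1 : (0 : ℝ) < (N : ℝ) - 1 := by linarith
  obtain ⟨κ, hκ⟩ : ∃ κ : ℝ, κ = 1 / (N : ℝ) ^ 3 := ⟨_, rfl⟩
  have hκ0 : 0 < κ := by rw [hκ]; positivity
  have hκe : κ * (N : ℝ) ^ 3 = 1 := by
    rw [hκ]
    field_simp
  refine certB_lower (by omega) (Φ := fun x t u => κ * phLM N x t u)
    (W := fun x t u v => κ * whLM N x t u v) ?_ ?_ ?_ ?_ ?_ hV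
  · simp [phLM]
  · have : phLM (N : ℝ) N N N = 0 := by
      unfold phLM
      ring
    simp [this]
  · simp [whLM]
  · have h1 : whLM (N : ℝ) N N N N = (N : ℝ) * ((12413219 / 10000000) * (N : ℝ) ^ 4 - (9888929 / 10000000) * (N : ℝ) ^ 3 - (47871 / 50000) * (N : ℝ) ^ 2 - (4) * N - (197 / 100)) := by
      unfold whLM
      ring
    have h2 : ((12413219 / 10000000) * (N : ℝ) ^ 4 - (9888929 / 10000000) * (N : ℝ) ^ 3 - (47871 / 50000) * (N : ℝ) ^ 2 - (4) * N - (197 / 100)) / ((N : ℝ) ^ 3 * (N - 1)) * ((N : ℝ) * (N - 1)) = κ * whLM (N : ℝ) N N N N := by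
      rw [h1, hκ]
      field_simp
    exact h2.le
  · intro o p q r s hop hpq hqr hrs hsN ho1 hp1 hq1 hr1 hs1
    obtain ⟨w, rfl⟩ := Nat.exists_eq_add_of_le hsN
    obtain ⟨x, rfl⟩ := Nat.exists_eq_add_of_le hrs
    obtain ⟨y, rfl⟩ := Nat.exists_eq_add_of_le hqr
    obtain ⟨b, rfl⟩ := Nat.exists_eq_add_of_le hpq
    obtain ⟨a, rfl⟩ := Nat.exists_eq_add_of_le hop
    have ip : ∀ n : ℕ, (0 : ℝ) ≤ (n : ℝ) * (n - 1) := by
      intro n
      rcases Nat.eq_zero_or_pos n with h | h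
      · subst h
        simp
      · have : (1 : ℝ) ≤ n := by exact_mod_cast h
        exact mul_nonneg (by linarith) (by linarith)
    have i2 : ∀ n : ℕ, n ≠ 1 → (0 : ℝ) ≤ (n : ℝ) * (n - 2) := by
      intro n hn
      rcases Nat.eq_zero_or_pos n with h | h
      · subst h
        simp
      · have : (2 : ℝ) ≤ n := by exact_mod_cast (by omega : 2 ≤ n)
        exact mul_nonneg (by linarith) (by linarith)
    have hr2 := i2 (o + a + b + y) hr1
    have hq2 := i2 (o + a + b) hq1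
    have hp2 := i2 (o + a) hp1
    push_cast at hr2 hq2 hp2
    have key := mul_nonneg hκ0.le (keyLM ((o + a + b + y + x + w : ℕ) : ℝ) o a b y x w (Nat.cast_nonneg o)
      (Nat.cast_nonneg a) (Nat.cast_nonneg b) (Nat.cast_nonneg y) (Nat.cast_nonneg x)
      (Nat.cast_nonneg w) (ip a) (ip b) (ip y) (ip x) (ip w) (i2 o ho1) hp2
      hq2 hr2 (by push_cast; ring) h20)
    generalize ((o + a + b + y + x + w : ℕ) : ℝ) = M at *
    unfold costB
    push_cast
    linear_combination key + (2 * (y : ℝ) * (o + a + b) + 2 * y * (y - 1)) * hκe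

end Pool.Agent.Lib.MP7ec162
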