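import Pool.Agent.Lib.MP_7ec162_pr.Tables

/-!
# Lookup in nested tables (MP_7ec162_pr)
-/

set_option autoImplicit false

namespace Pool.Agent.Lib.MP7ec162

/-- Lookup in a nested table. -/
def lookT (l : List (List ℤ)) (x y : ℕ) : ℤ := (l.getD x []).getD y 0

end Pool.Agent.Lib.MP7ec162
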